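import Pool.Agent.Lib.MP_8be780_co.Shannon

/-!
# Counting configurations
-/

open Finset

namespace Pool.Agent.Lib.MP_8be780_co

/-- The `C₄` (Sidorenko) inequality. -/
lemma c4 {α β : Type*} (X : Finset α) (Y : Finset β) (f : α → β → ℝ) :
    (∑ x ∈ X, ∑ y ∈ Y, f x y) ^ 4 ≤ (X.card : ℝ) ^ 2 * (Y.card : ℝ) ^ 2 *
      ∑ y ∈ Y, ∑ y' ∈ Y, ∑ x ∈ X, ∑ x' ∈ X, (f x y * f x y') * (f x' y * f x' y') := by
  have h1 : (∑ x ∈ X, ∑ y ∈ Y, f x y) ^ 2 ≤ X.card * ∑ x ∈ X, (∑ y ∈ Y, f x y) ^ 2 :=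
    sq_sum_le_card_mul_sum_sq
  have h2 : ∑ x ∈ X, (∑ y ∈ Y, f x y) ^ 2 = ∑ y ∈ Y, ∑ y' ∈ Y, ∑ x ∈ X, f x y * f x y' := by
    simp only [sq, Finset.sum_mul_sum]
    rw [Finset.sum_comm]
    refine Finset.sum_congr rfl fun y _ => ?_
    rw [Finset.sum_comm]
  have h3 : (∑ y ∈ Y, ∑ y' ∈ Y, ∑ x ∈ X, f x y * f x y') ^ 2
      ≤ (Y.card : ℝ) ^ 2 * ∑ y ∈ Y, ∑ y' ∈ Y, (∑ x ∈ X, f x y * f x y') ^ 2 := by
    have h := sq_sum_le_card_mul_sum_sq (s := Y ×ˢ Y)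
      (f := fun p : β × β => ∑ x ∈ X, f x p.1 * f x p.2)
    rw [Finset.card_product, Finset.sum_product, Finset.sum_product] at h
    push_cast at h
    rw [sq (Y.card : ℝ)]
    exact h
  have h4 : ∑ y ∈ Y, ∑ y' ∈ Y, (∑ x ∈ X, f x y * f x y') ^ 2
      = ∑ y ∈ Y, ∑ y' ∈ Y, ∑ x ∈ X, ∑ x' ∈ X, (f x y * f x y') * (f x' y * f x' y') := by
    refine Finset.sum_congr rfl fun y _ => Finset.sum_congr rfl fun y' _ => ?_
    rw [sq, Finset.sum_mul_sum]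
  rw [← h4]
  calc (∑ x ∈ X, ∑ y ∈ Y, f x y) ^ 4 = ((∑ x ∈ X, ∑ y ∈ Y, f x y) ^ 2) ^ 2 := by ring
    _ ≤ (X.card * ∑ x ∈ X, (∑ y ∈ Y, f x y) ^ 2) ^ 2 := by
        exact pow_le_pow_left₀ (by positivity) h1 2
    _ = (X.card : ℝ) ^ 2 * (∑ y ∈ Y, ∑ y' ∈ Y, ∑ x ∈ X, f x y * f x y') ^ 2 := by
        rw [h2]; ring
    _ ≤ (X.card : ℝ) ^ 2 * ((Y.card : ℝ) ^ 2 *
          ∑ y ∈ Y, ∑ y' ∈ Y, (∑ x ∈ X, f x y * f x y') ^ 2) :=
        mul_le_mul_of_nonneg_left h3 (by positivity)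
    _ = _ := by ring

/-- Two pairs are related if the cross pairs are in `R`. -/
def rel (R : Finset (ℤ × ℤ)) (P Q : ℤ × ℤ) : Prop := (P.1, Q.2) ∈ R ∧ (Q.1, P.2) ∈ R

instance (R : Finset (ℤ × ℤ)) (P Q : ℤ × ℤ) : Decidable (rel R P Q) := by
  unfold rel; infer_instance

/-- Indicator of `rel`. -/
def g (R : Finset (ℤ × ℤ)) (P Q : ℤ × ℤ) : ℝ := if rel R P Q then 1 else 0

/-- Finset version of the configuration space. -/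
def OmF (R : Finset (ℤ × ℤ)) : Finset (((ℤ × ℤ) × (ℤ × ℤ)) × ((ℤ × ℤ) × (ℤ × ℤ))) :=
  ((R ×ˢ R) ×ˢ (R ×ˢ R)).filter (fun p =>
    (p.1.2.1 + p.1.2.2 = p.1.1.1 + p.1.1.2 ∧ p.2.2.1 + p.2.2.2 = p.2.1.1 + p.2.1.2) ∧
    (rel R p.2.1 p.1.1 ∧ rel R p.2.1 p.1.2) ∧ (rel R p.2.2 p.1.1 ∧ rel R p.2.2 p.1.2))

lemma mem_OmF {R : Finset (ℤ × ℤ)} {p : ((ℤ × ℤ) × (ℤ × ℤ)) × ((ℤ × ℤ) × (ℤ × ℤ))} :
    p ∈ OmF R ↔ ((p.1.1 ∈ R ∧ p.1.2 ∈ R) ∧ (p.2.1 ∈ R ∧ p.2.2 ∈ R)) ∧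
    ((p.1.2.1 + p.1.2.2 = p.1.1.1 + p.1.1.2 ∧ p.2.2.1 + p.2.2.2 = p.2.1.1 + p.2.1.2) ∧
    (rel R p.2.1 p.1.1 ∧ rel R p.2.1 p.1.2) ∧ (rel R p.2.2 p.1.1 ∧ rel R p.2.2 p.1.2)) := by
  simp only [OmF, Finset.mem_filter, Finset.mem_product]

/-- The configuration space is a finite set. -/
def omEquiv (R : Finset (ℤ × ℤ)) : Om R ≃ {p // p ∈ OmF R} where
  toFun ω := ⟨(((ω.u1, ω.w1), (ω.y1, ω.x1)), ((ω.u2, ω.w2), (ω.y2, ω.x2))),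
    mem_OmF.mpr ⟨⟨⟨ω.u1w1, ω.y1x1⟩, ⟨ω.u2w2, ω.y2x2⟩⟩, ⟨⟨ω.s1.symm, ω.s2.symm⟩,
      ⟨⟨⟨ω.u2w1, ω.u1w2⟩, ⟨ω.u2x1, ω.y1w2⟩⟩, ⟨⟨ω.y2w1, ω.u1x2⟩, ⟨ω.y2x1, ω.y1x2⟩⟩⟩⟩⟩⟩
  invFun p := 
    { u1 := p.1.1.1.1
      w1 := p.1.1.1.2
      y1 := p.1.1.2.1
      x1 := p.1.1.2.2
      u2 := p.1.2.1.1
      w2 := p.1.2.1.2
      y2 := p.1.2.2.1
      x2 := p.1.2.2.2
      s1 := (mem_OmF.mp p.2).2.1.1.symm
      s2 := (mem_OmF.mp p.2).2.1.2.symm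
      u1w1 := (mem_OmF.mp p.2).1.1.1
      y1x1 := (mem_OmF.mp p.2).1.1.2
      u2w2 := (mem_OmF.mp p.2).1.2.1
      y2x2 := (mem_OmF.mp p.2).1.2.2
      u1w2 := (mem_OmF.mp p.2).2.2.1.1.2
      u1x2 := (mem_OmF.mp p.2).2.2.2.1.2
      y1w2 := (mem_OmF.mp p.2).2.2.1.2.2
      y1x2 := (mem_OmF.mp p.2).2.2.2.2.2
      u2w1 := (mem_OmF.mp p.2).2.2.1.1.1
      u2x1 := (mem_OmF.mp p.2).2.2.1.2.1
      y2w1 := (mem_OmF.mp p.2).2.2.2.1.1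
      y2x1 := (mem_OmF.mp p.2).2.2.2.2.1 }
  left_inv _ := rfl
  right_inv _ := rfl

noncomputable instance (R : Finset (ℤ × ℤ)) : Fintype (Om R) :=
  Fintype.ofEquiv _ (omEquiv R).symm

lemma card_Om (R : Finset (ℤ × ℤ)) : Fintype.card (Om R) = (OmF R).card := by
  rw [Fintype.card_congr (omEquiv R), Fintype.card_coe]

/-- Pairs of `R` with a given sum. -/
def Rs (R : Finset (ℤ × ℤ)) (s : ℤ) : Finset (ℤ × ℤ) := R.filter (fun P => P.1 + P.2 = s)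

lemma sum_Rs {R : Finset (ℤ × ℤ)} {T : Finset ℤ} (hT : ∀ P ∈ R, P.1 + P.2 ∈ T)
    (φ : ℤ × ℤ → ℝ) : ∑ s ∈ T, ∑ y ∈ Rs R s, φ y = ∑ y ∈ R, φ y :=
  Finset.sum_fiberwise_of_maps_to hT φ

lemma sum_Rs2 {R : Finset (ℤ × ℤ)} {T : Finset ℤ} (hT : ∀ P ∈ R, P.1 + P.2 ∈ T)
    (φ : ℤ × ℤ → ℤ × ℤ → ℝ) : ∑ s ∈ T, ∑ y ∈ Rs R s, ∑ y' ∈ Rs R s, φ y y'
      = ∑ y ∈ R, ∑ y' ∈ R, if y'.1 + y'.2 = y.1 + y.2 then φ y y' else 0 := by
  rw [← sum_Rs hT (fun y => ∑ y' ∈ R, if y'.1 + y'.2 = y.1 + y.2 then φ y y' else 0)]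
  refine Finset.sum_congr rfl fun s _ => Finset.sum_congr rfl fun y hy => ?_
  have hy' : y.1 + y.2 = s := by
    have := hy
    simp only [Rs, Finset.mem_filter] at this
    exact this.2
  rw [hy', ← Finset.sum_filter]
  rfl

/-- The sum of the class `C₄` counts is the number of configurations. -/
lemma sum_eq_card {R : Finset (ℤ × ℤ)} {T : Finset ℤ} (hT : ∀ P ∈ R, P.1 + P.2 ∈ T) :
    ∑ s ∈ T, ∑ t ∈ T, ∑ y ∈ Rs R s, ∑ y' ∈ Rs R s, ∑ x ∈ Rs R t, ∑ x' ∈ Rs R t,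
      (g R x y * g R x y') * (g R x' y * g R x' y') = (Fintype.card (Om R) : ℝ) := by
  have h1 : ∀ s ∈ T, ∑ t ∈ T, ∑ y ∈ Rs R s, ∑ y' ∈ Rs R s, ∑ x ∈ Rs R t, ∑ x' ∈ Rs R t,
      (g R x y * g R x y') * (g R x' y * g R x' y')
      = ∑ y ∈ Rs R s, ∑ y' ∈ Rs R s, ∑ x ∈ R, ∑ x' ∈ R, 
        if x'.1 + x'.2 = x.1 + x.2 then (g R x y * g R x y') * (g R x' y * g R x' y') else 0 := by
    intro s _
    rw [Finset.sum_comm]
    refine Finset.sum_congr rfl fun y _ => ?_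
    rw [Finset.sum_comm]
    refine Finset.sum_congr rfl fun y' _ => ?_
    exact sum_Rs2 hT (fun x x' => (g R x y * g R x y') * (g R x' y * g R x' y'))
  rw [Finset.sum_congr rfl h1, sum_Rs2 hT, card_Om, OmF, Finset.card_filter]
  push_cast
  rw [Finset.sum_product, Finset.sum_product]
  refine Finset.sum_congr rfl fun y _ => Finset.sum_congr rfl fun y' _ => ?_
  rw [Finset.sum_product]
  simp only []
  by_cases hy : y'.1 + y'.2 = y.1 + y.2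
  · rw [if_pos hy]
    refine Finset.sum_congr rfl fun x _ => Finset.sum_congr rfl fun x' _ => ?_
    by_cases hx : x'.1 + x'.2 = x.1 + x.2
    · simp only [hx, hy, g, true_and, if_true]
      by_cases a : rel R x y <;> by_cases b : rel R x y' <;> by_cases c : rel R x' y <;>
        by_cases d : rel R x' y' <;> simp [a, b, c, d]
    · simp [hx]
  · rw [if_neg hy]
    simp [hy]

/-- Number of related pairs of pairs. -/
noncomputable def K (R : Finset (ℤ × ℤ)) : ℝ := ∑ P ∈ R, ∑ Q ∈ R, g R P Q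

lemma K_lower {A : Finset ℤ} {R : Finset (ℤ × ℤ)} (hR : R ⊆ A ×ˢ A) :
    (R.card : ℝ) ^ 4 ≤ (A.card : ℝ) ^ 4 * K R := by
  classical
  set f : ℤ → ℤ → ℝ := fun u w => if (u, w) ∈ R then 1 else 0 with hf
  have h := c4 A A f
  have h1 : ∑ x ∈ A, ∑ y ∈ A, f x y = R.card := by
    rw [← Finset.sum_product', hf]
    simp only [Prod.mk.eta]
    rw [Finset.sum_boole, Finset.filter_mem_eq_inter, Finset.inter_eq_right.mpr hR]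
  have h2 : ∑ y ∈ A, ∑ y' ∈ A, ∑ x ∈ A, ∑ x' ∈ A, (f x y * f x y') * (f x' y * f x' y') = K R := by
    have e1 : ∑ y ∈ A, ∑ y' ∈ A, ∑ x ∈ A, ∑ x' ∈ A, (f x y * f x y') * (f x' y * f x' y')
        = ∑ x ∈ A, ∑ y ∈ A, ∑ x' ∈ A, ∑ y' ∈ A, (f x y * f x y') * (f x' y * f x' y') := by
      calc _ = ∑ y ∈ A, ∑ x ∈ A, ∑ y' ∈ A, ∑ x' ∈ A, (f x y * f x y') * (f x' y * f x' y') := by
            refine Finset.sum_congr rfl fun y _ => ?_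
            rw [Finset.sum_comm]
        _ = ∑ x ∈ A, ∑ y ∈ A, ∑ y' ∈ A, ∑ x' ∈ A, (f x y * f x y') * (f x' y * f x' y') := by
            rw [Finset.sum_comm]
        _ = _ := by
            refine Finset.sum_congr rfl fun x _ => Finset.sum_congr rfl fun y _ => ?_
            rw [Finset.sum_comm]
    rw [e1, ← Finset.sum_product' (s := A) (t := A)
      (f := fun x y => ∑ x' ∈ A, ∑ y' ∈ A, (f x y * f x y') * (f x' y * f x' y'))]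
    have e2 : ∀ P ∈ A ×ˢ A, ∑ x' ∈ A, ∑ y' ∈ A, (f P.1 P.2 * f P.1 y') * (f x' P.2 * f x' y')
        = if P ∈ R then ∑ Q ∈ R, g R P Q else 0 := by
      intro P _
      rw [← Finset.sum_product' (s := A) (t := A)
        (f := fun x' y' => (f P.1 P.2 * f P.1 y') * (f x' P.2 * f x' y'))]
      by_cases hP : P ∈ R
      · rw [if_pos hP]
        have e3 : ∀ Q ∈ A ×ˢ A, (f P.1 P.2 * f P.1 Q.2) * (f Q.1 P.2 * f Q.1 Q.2)
            = if Q ∈ R then g R P Q else 0 := by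
          intro Q _
          have hP' : (P.1, P.2) ∈ R := hP
          by_cases hQ : Q ∈ R
          · have hQ' : (Q.1, Q.2) ∈ R := hQ
            simp only [hf, g, rel]
            by_cases a : (P.1, Q.2) ∈ R <;> by_cases b : (Q.1, P.2) ∈ R <;>
              simp [hP, hQ, a, b]
          · have hQ' : (Q.1, Q.2) ∉ R := hQ
            simp [hf, hQ]
        rw [Finset.sum_congr rfl e3, ← Finset.sum_filter, Finset.filter_mem_eq_inter,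
          Finset.inter_eq_right.mpr hR]
      · rw [if_neg hP]
        refine Finset.sum_eq_zero fun Q _ => ?_
        simp [hf, hP]
    rw [Finset.sum_congr rfl e2, ← Finset.sum_filter, Finset.filter_mem_eq_inter,
      Finset.inter_eq_right.mpr hR]
    rfl
  rw [h1, h2] at h
  calc (R.card : ℝ) ^ 4 ≤ (A.card : ℝ) ^ 2 * (A.card : ℝ) ^ 2 * K R := h
    _ = _ := by ring

lemma g_nonneg (R : Finset (ℤ × ℤ)) (P Q : ℤ × ℤ) : 0 ≤ g R P Q := by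
  unfold g; split_ifs <;> norm_num

lemma K_upper {R : Finset (ℤ × ℤ)} {T : Finset ℤ} (hT : ∀ P ∈ R, P.1 + P.2 ∈ T) :
    K R ^ 4 ≤ (R.card : ℝ) ^ 4 * (T.card : ℝ) ^ 2 * Fintype.card (Om R) := by
  classical
  set E : ℤ × ℤ → ℝ := fun p => ∑ x ∈ Rs R p.2, ∑ y ∈ Rs R p.1, g R x y with hE
  set C : ℤ × ℤ → ℝ := fun p => ∑ y ∈ Rs R p.1, ∑ y' ∈ Rs R p.1, ∑ x ∈ Rs R p.2, ∑ x' ∈ Rs R p.2,
      (g R x y * g R x y') * (g R x' y * g R x' y') with hC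
  set ρ : ℤ → ℝ := fun s => ((Rs R s).card : ℝ) with hρ
  have hρ0 : ∀ s, 0 ≤ ρ s := fun s => Nat.cast_nonneg _
  have hE0 : ∀ p, 0 ≤ E p := fun p =>
    Finset.sum_nonneg fun x _ => Finset.sum_nonneg fun y _ => g_nonneg R x y
  have hC0 : ∀ p, 0 ≤ C p := fun p =>
    Finset.sum_nonneg fun y _ => Finset.sum_nonneg fun y' _ =>
      Finset.sum_nonneg fun x _ => Finset.sum_nonneg fun x' _ => by
        have h1 := g_nonneg R x y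
        have h2 := g_nonneg R x y'
        have h3 := g_nonneg R x' y
        have h4 := g_nonneg R x' y'
        positivity
  have hEC : ∀ p, E p ^ 2 ≤ (ρ p.1 * ρ p.2) * Real.sqrt (C p) := by
    intro p
    have h := c4 (Rs R p.2) (Rs R p.1) (g R)
    have h' : (E p ^ 2) ^ 2 ≤ ((ρ p.1 * ρ p.2) * Real.sqrt (C p)) ^ 2 := by
      calc (E p ^ 2) ^ 2 = E p ^ 4 := by ring
        _ ≤ (ρ p.2) ^ 2 * (ρ p.1) ^ 2 * C p := h
        _ = ((ρ p.1 * ρ p.2)) ^ 2 * (Real.sqrt (C p)) ^ 2 := by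
            rw [Real.sq_sqrt (hC0 p)]; ring
        _ = _ := by ring
    have hnn : 0 ≤ (ρ p.1 * ρ p.2) * Real.sqrt (C p) :=
      mul_nonneg (mul_nonneg (hρ0 _) (hρ0 _)) (Real.sqrt_nonneg _)
    exact (pow_le_pow_iff_left₀ (by positivity) hnn two_ne_zero).mp h'
  have hK : K R = ∑ p ∈ T ×ˢ T, E p := by
    rw [Finset.sum_product_right]
    unfold K
    rw [← sum_Rs hT]
    refine Finset.sum_congr rfl fun t _ => ?_
    have h5 : ∑ s ∈ T, E (s, t) = ∑ x ∈ Rs R t, ∑ s ∈ T, ∑ y ∈ Rs R s, g R x y := by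
      rw [Finset.sum_comm]
    rw [h5]
    exact Finset.sum_congr rfl fun x _ => (sum_Rs hT _).symm
  have hρsum : ∑ p ∈ T ×ˢ T, ρ p.1 * ρ p.2 = (R.card : ℝ) ^ 2 := by
    have h0 : ∑ s ∈ T, ρ s = R.card := by
      have := sum_Rs hT (fun _ => (1 : ℝ))
      simpa [hρ] using this
    rw [Finset.sum_product]
    simp only []
    rw [← Finset.sum_mul_sum, h0]
    ring
  have hCsum : ∑ p ∈ T ×ˢ T, C p = Fintype.card (Om R) := by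
    rw [Finset.sum_product]
    exact sum_eq_card hT
  -- Cauchy–Schwarz
  have hcs : (∑ p ∈ T ×ˢ T, E p) ^ 2
      ≤ (∑ p ∈ T ×ˢ T, ρ p.1 * ρ p.2) * ∑ p ∈ T ×ˢ T, Real.sqrt (C p) := by
    have h1 : ∑ p ∈ T ×ˢ T, E p ≤ ∑ p ∈ T ×ˢ T,
        Real.sqrt (ρ p.1 * ρ p.2) * Real.sqrt (Real.sqrt (C p)) := by
      refine Finset.sum_le_sum fun p _ => ?_
      rw [← Real.sqrt_mul (mul_nonneg (hρ0 _) (hρ0 _))]
      exact Real.le_sqrt_of_sq_le (hEC p)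
    have h2 := Finset.sum_mul_sq_le_sq_mul_sq (T ×ˢ T)
      (fun p => Real.sqrt (ρ p.1 * ρ p.2)) (fun p => Real.sqrt (Real.sqrt (C p)))
    have h3 : ∑ p ∈ T ×ˢ T, Real.sqrt (ρ p.1 * ρ p.2) ^ 2 = ∑ p ∈ T ×ˢ T, ρ p.1 * ρ p.2 :=
      Finset.sum_congr rfl fun p _ => Real.sq_sqrt (mul_nonneg (hρ0 _) (hρ0 _))
    have h4 : ∑ p ∈ T ×ˢ T, Real.sqrt (Real.sqrt (C p)) ^ 2 = ∑ p ∈ T ×ˢ T, Real.sqrt (C p) :=
      Finset.sum_congr rfl fun p _ => Real.sq_sqrt (Real.sqrt_nonneg _)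
    rw [h3, h4] at h2
    refine le_trans ?_ h2
    exact pow_le_pow_left₀ (Finset.sum_nonneg fun p _ => hE0 p) h1 2
  have hcs2 : (∑ p ∈ T ×ˢ T, Real.sqrt (C p)) ^ 2 ≤ (T.card : ℝ) ^ 2 * Fintype.card (Om R) := by
    have h := sq_sum_le_card_mul_sum_sq (s := T ×ˢ T) (f := fun p => Real.sqrt (C p))
    have h4 : ∑ p ∈ T ×ˢ T, Real.sqrt (C p) ^ 2 = ∑ p ∈ T ×ˢ T, C p :=
      Finset.sum_congr rfl fun p _ => Real.sq_sqrt (hC0 p)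
    rw [h4, hCsum, Finset.card_product] at h
    push_cast at h
    rw [sq (T.card : ℝ)]
    exact h
  rw [← hK, hρsum] at hcs
  have hsq0 : 0 ≤ ∑ p ∈ T ×ˢ T, Real.sqrt (C p) := Finset.sum_nonneg fun p _ => Real.sqrt_nonneg _
  calc K R ^ 4 = (K R ^ 2) ^ 2 := by ring
    _ ≤ ((R.card : ℝ) ^ 2 * ∑ p ∈ T ×ˢ T, Real.sqrt (C p)) ^ 2 :=
        pow_le_pow_left₀ (by positivity) hcs 2
    _ = (R.card : ℝ) ^ 4 * (∑ p ∈ T ×ˢ T, Real.sqrt (C p)) ^ 2 := by ring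
    _ ≤ (R.card : ℝ) ^ 4 * ((T.card : ℝ) ^ 2 * Fintype.card (Om R)) :=
        mul_le_mul_of_nonneg_left hcs2 (by positivity)
    _ = _ := by ring

/-- Lower bound for the number of configurations. -/
lemma card_Om_lower {A : Finset ℤ} {R : Finset (ℤ × ℤ)} (hR : R ⊆ A ×ˢ A) {T : Finset ℤ}
    (hT : ∀ P ∈ R, P.1 + P.2 ∈ T) (hR0 : R.Nonempty) :
    (R.card : ℝ) ^ 12 ≤ (A.card : ℝ) ^ 16 * (T.card : ℝ) ^ 2 * Fintype.card (Om R) := by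
  have h1 := K_lower hR
  have h2 := K_upper hT
  have hr : (0 : ℝ) < R.card := by exact_mod_cast hR0.card_pos
  have h3 : (R.card : ℝ) ^ 16 ≤ (A.card : ℝ) ^ 16 *
      ((R.card : ℝ) ^ 4 * (T.card : ℝ) ^ 2 * Fintype.card (Om R)) := by
    calc (R.card : ℝ) ^ 16 = ((R.card : ℝ) ^ 4) ^ 4 := by ring
      _ ≤ ((A.card : ℝ) ^ 4 * K R) ^ 4 := pow_le_pow_left₀ (by positivity) h1 4
      _ = (A.card : ℝ) ^ 16 * K R ^ 4 := by ring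
      _ ≤ _ := mul_le_mul_of_nonneg_left h2 (by positivity)
  have h4 : (R.card : ℝ) ^ 4 * (R.card : ℝ) ^ 12 ≤ (R.card : ℝ) ^ 4 *
      ((A.card : ℝ) ^ 16 * (T.card : ℝ) ^ 2 * Fintype.card (Om R)) := by
    calc (R.card : ℝ) ^ 4 * (R.card : ℝ) ^ 12 = (R.card : ℝ) ^ 16 := by ring
      _ ≤ _ := h3
      _ = _ := by ring
  exact le_of_mul_le_mul_left h4 (by positivity)

end Pool.Agent.Lib.MP_8be780_co
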