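import Mathlib

/-!
# Entropy of functions on a finite uniform probability space

For a finite nonempty type `Ω` (with the uniform distribution) and a function `f : Ω → β`, `H f` is
the Shannon entropy of `f`.  We prove the basic inequalities in a form which only mentions the
kernels of the functions.
-/

open Finset

namespace Pool.Agent.Lib.MP_8be780_co

section Entropy

variable {Ω : Type*} [Fintype Ω] {β γ δ ε : Type*}

open Classical in
/-- The number of `ω'` with `f ω' = f ω`. -/
noncomputable def cls (f : Ω → β) (ω : Ω) : ℕ :=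
  (univ.filter (fun ω' => f ω' = f ω)).card

/-- Shannon entropy of `f` under the uniform distribution. -/
noncomputable def H (f : Ω → β) : ℝ :=
  (∑ ω, Real.log ((Fintype.card Ω : ℝ) / cls f ω)) / Fintype.card Ω

lemma cls_eq (f : Ω → β) (ω : Ω) [DecidablePred (fun ω' => f ω' = f ω)] :
    (univ.filter (fun ω' => f ω' = f ω)).card = cls f ω := by
  unfold cls
  refine congrArg Finset.card ?_
  ext ω'
  simp only [mem_filter, mem_univ, true_and]

lemma cls_pos (f : Ω → β) (ω : Ω) : 0 < cls f ω := by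
  classical
  unfold cls
  exact Finset.card_pos.mpr ⟨ω, by simp⟩

lemma cls_le {f : Ω → β} {g : Ω → γ} (h : ∀ ω ω', f ω = f ω' → g ω = g ω') (ω : Ω) :
    cls f ω ≤ cls g ω := by
  classical
  unfold cls
  refine Finset.card_le_card ?_
  intro ω' hω'
  simp only [mem_filter, mem_univ, true_and] at hω' ⊢
  exact h _ _ hω'

lemma H_mono {f : Ω → β} {g : Ω → γ} (h : ∀ ω ω', f ω = f ω' → g ω = g ω') : H g ≤ H f := by
  unfold H
  refine div_le_div_of_nonneg_right ?_ (by positivity)
  refine Finset.sum_le_sum fun ω _ => ?_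
  have hc : 0 < (Fintype.card Ω : ℝ) := by
    have : 0 < Fintype.card Ω := Fintype.card_pos_iff.mpr ⟨ω⟩
    exact_mod_cast this
  have hf : (0 : ℝ) < cls f ω := by exact_mod_cast cls_pos f ω
  have hg : (0 : ℝ) < cls g ω := by exact_mod_cast cls_pos g ω
  refine Real.log_le_log (by positivity) ?_
  exact div_le_div_of_nonneg_left hc.le hf (by exact_mod_cast cls_le h ω)

lemma H_congr {f : Ω → β} {g : Ω → γ} (h : ∀ ω ω', f ω = f ω' → g ω = g ω')
    (h' : ∀ ω ω', g ω = g ω' → f ω = f ω') : H f = H g :=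
  le_antisymm (H_mono h') (H_mono h)

lemma H_comp (g : Ω ≃ Ω) (f : Ω → β) : H (fun ω => f (g ω)) = H f := by
  classical
  unfold H
  congr 1
  have hcls : ∀ ω, cls (fun ω => f (g ω)) ω = cls f (g ω) := by
    intro ω
    unfold cls
    refine Finset.card_bij (fun a _ => g a) ?_ ?_ ?_
    · intro a ha
      simpa using ha
    · intro a _ b _ hab
      exact g.injective hab
    · intro b hb
      refine ⟨g.symm b, ?_, by simp⟩
      simpa using hb
  simp only [hcls]
  exact Equiv.sum_comp g (fun ω => Real.log ((Fintype.card Ω : ℝ) / cls f ω))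

lemma H_inj [Nonempty Ω] {f : Ω → β} (hf : ∀ ω ω', f ω = f ω' → ω = ω') :
    H f = Real.log (Fintype.card Ω) := by
  classical
  have hcls : ∀ ω, cls f ω = 1 := by
    intro ω
    unfold cls
    rw [Finset.card_eq_one]
    refine ⟨ω, ?_⟩
    ext ω'
    simp only [mem_filter, mem_univ, true_and, mem_singleton]
    constructor
    · intro h; exact hf _ _ h
    · intro h; rw [h]
  unfold H
  simp only [hcls, Nat.cast_one, div_one, sum_const, card_univ, nsmul_eq_mul]
  have : (Fintype.card Ω : ℝ) ≠ 0 := by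
    have : 0 < Fintype.card Ω := Fintype.card_pos
    exact_mod_cast this.ne'
  field_simp

lemma sum_inv_cls [DecidableEq β] (f : Ω → β) :
    ∑ ω, (1 : ℝ) / cls f ω = ((univ : Finset Ω).image f).card := by
  classical
  rw [← Finset.sum_fiberwise_of_maps_to (s := (univ : Finset Ω)) (t := univ.image f) (g := f)
    (fun ω _ => mem_image_of_mem _ (mem_univ _))]
  rw [Finset.card_eq_sum_ones]
  push_cast
  refine Finset.sum_congr rfl fun b hb => ?_
  obtain ⟨ω₀, _, rfl⟩ := mem_image.mp hb
  have h1 : ∀ ω ∈ univ.filter (fun ω => f ω = f ω₀), (1 : ℝ) / cls f ω = 1 / cls f ω₀ := by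
    intro ω hω
    have : f ω = f ω₀ := by simpa using hω
    unfold cls
    rw [this]
  rw [Finset.sum_congr rfl h1, Finset.sum_const, nsmul_eq_mul]
  have h2 : ((univ.filter (fun ω => f ω = f ω₀)).card : ℝ) = cls f ω₀ := by
    rw [cls_eq]
  rw [h2]
  have : (cls f ω₀ : ℝ) ≠ 0 := by exact_mod_cast (cls_pos f ω₀).ne'
  field_simp

lemma H_le_log_card [Nonempty Ω] [DecidableEq β] (f : Ω → β) (s : Finset β)
    (hs : ∀ ω, f ω ∈ s) : H f ≤ Real.log s.card := by
  classical
  have hN : (0 : ℝ) < Fintype.card Ω := by exact_mod_cast (Fintype.card_pos : 0 < Fintype.card Ω)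
  have hspos : 0 < s.card := Finset.card_pos.mpr ⟨_, hs (Classical.arbitrary Ω)⟩
  have hs0 : (0 : ℝ) < s.card := by exact_mod_cast hspos
  unfold H
  rw [div_le_iff₀ hN]
  have key : ∀ ω, Real.log ((Fintype.card Ω : ℝ) / cls f ω)
      ≤ (Fintype.card Ω : ℝ) / cls f ω / s.card - 1 + Real.log s.card := by
    intro ω
    have hc : (0 : ℝ) < cls f ω := by exact_mod_cast cls_pos f ω
    have h := Real.log_le_sub_one_of_pos (x := (Fintype.card Ω : ℝ) / cls f ω / s.card)
      (by positivity)
    have h2 : Real.log ((Fintype.card Ω : ℝ) / cls f ω / s.card)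
        = Real.log ((Fintype.card Ω : ℝ) / cls f ω) - Real.log s.card :=
      Real.log_div (by positivity) (by positivity)
    linarith
  refine (Finset.sum_le_sum fun ω _ => key ω).trans ?_
  rw [Finset.sum_add_distrib, Finset.sum_sub_distrib, Finset.sum_const, Finset.sum_const,
    nsmul_eq_mul, nsmul_eq_mul, card_univ]
  have hsum : ∑ ω, (Fintype.card Ω : ℝ) / cls f ω / s.card
      = (Fintype.card Ω : ℝ) / s.card * ((univ : Finset Ω).image f).card := by
    rw [← sum_inv_cls f, Finset.mul_sum]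
    refine Finset.sum_congr rfl fun ω _ => ?_
    ring
  have himg : (((univ : Finset Ω).image f).card : ℝ) ≤ s.card := by
    have : (univ : Finset Ω).image f ⊆ s := by
      intro b hb
      obtain ⟨ω, _, rfl⟩ := mem_image.mp hb
      exact hs ω
    exact_mod_cast Finset.card_le_card this
  rw [hsum]
  have h3 : (Fintype.card Ω : ℝ) / s.card * ((univ : Finset Ω).image f).card
      ≤ Fintype.card Ω := by
    rw [div_mul_eq_mul_div, div_le_iff₀ hs0]
    exact mul_le_mul_of_nonneg_left himg hN.le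
  nlinarith

/-- Submodularity: if `D` is a function of `A` and a function of `B`, and `C` is a function of
`(A, B)`, then `H C + H D ≤ H A + H B`. -/
lemma SM {A : Ω → β} {B : Ω → γ} {C : Ω → δ} {D : Ω → ε}
    (hAD : ∀ ω ω', A ω = A ω' → D ω = D ω') (hBD : ∀ ω ω', B ω = B ω' → D ω = D ω')
    (hC : ∀ ω ω', A ω = A ω' → B ω = B ω' → C ω = C ω') :
    H C + H D ≤ H A + H B := by
  classical
  rcases isEmpty_or_nonempty Ω with hE | hE
  · simp [H]
  have hN : (0 : ℝ) < Fintype.card Ω := by exact_mod_cast (Fintype.card_pos : 0 < Fintype.card Ω)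
  -- replace `C` by the pair
  have hCle : H C ≤ H (fun ω => (A ω, B ω)) := by
    refine H_mono ?_
    intro ω ω' h
    simp only [Prod.mk.injEq] at h
    exact hC _ _ h.1 h.2
  suffices hmain : H (fun ω => (A ω, B ω)) + H D ≤ H A + H B by linarith
  set AB : Ω → β × γ := fun ω => (A ω, B ω) with hAB
  have ha : ∀ ω, (0 : ℝ) < cls A ω := fun ω => by exact_mod_cast cls_pos A ω
  have hb : ∀ ω, (0 : ℝ) < cls B ω := fun ω => by exact_mod_cast cls_pos B ω
  have hd : ∀ ω, (0 : ℝ) < cls D ω := fun ω => by exact_mod_cast cls_pos D ω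
  have hab : ∀ ω, (0 : ℝ) < cls AB ω := fun ω => by exact_mod_cast cls_pos AB ω
  unfold H
  rw [← add_div, ← add_div]
  refine div_le_div_of_nonneg_right ?_ hN.le
  rw [← Finset.sum_add_distrib, ← Finset.sum_add_distrib]
  rw [← sub_nonneg, ← Finset.sum_sub_distrib]
  have key : ∀ ω, 1 - (cls A ω : ℝ) * cls B ω / (cls AB ω * cls D ω) ≤
      (Real.log ((Fintype.card Ω : ℝ) / cls A ω) + Real.log ((Fintype.card Ω : ℝ) / cls B ω))
      - (Real.log ((Fintype.card Ω : ℝ) / cls AB ω) + Real.log ((Fintype.card Ω : ℝ) / cls D ω)) := by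
    intro ω
    have h1 := ha ω
    have h2 := hb ω
    have h3 := hd ω
    have h4 := hab ω
    rw [Real.log_div hN.ne' h1.ne', Real.log_div hN.ne' h2.ne', Real.log_div hN.ne' h3.ne',
      Real.log_div hN.ne' h4.ne']
    have h := Real.log_le_sub_one_of_pos
      (x := (cls A ω : ℝ) * cls B ω / (cls AB ω * cls D ω)) (by positivity)
    rw [Real.log_div (by positivity) (by positivity), Real.log_mul h1.ne' h2.ne',
      Real.log_mul h4.ne' h3.ne'] at h
    linarith
  refine le_trans ?_ (Finset.sum_le_sum fun ω _ => key ω)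
  rw [Finset.sum_sub_distrib, Finset.sum_const, card_univ, nsmul_eq_mul, mul_one, sub_nonneg]
  -- the main counting
  have e1 : ∀ ω, (cls A ω : ℝ) * cls B ω / (cls AB ω * cls D ω)
      = ∑ ω₁, ∑ ω₂, if A ω₁ = A ω ∧ B ω₂ = B ω then (1 : ℝ) / (cls AB ω * cls D ω) else 0 := by
    intro ω
    have hA : (cls A ω : ℝ) = ∑ ω₁, if A ω₁ = A ω then (1 : ℝ) else 0 := by
      unfold cls
      rw [Finset.sum_boole]
    have hB : (cls B ω : ℝ) = ∑ ω₁, if B ω₁ = B ω then (1 : ℝ) else 0 := by
      unfold cls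
      rw [Finset.sum_boole]
    rw [hA, hB, Finset.sum_mul_sum, div_eq_mul_one_div, Finset.sum_mul]
    refine Finset.sum_congr rfl fun ω₁ _ => ?_
    rw [Finset.sum_mul]
    refine Finset.sum_congr rfl fun ω₂ _ => ?_
    by_cases h1 : A ω₁ = A ω <;> by_cases h2 : B ω₂ = B ω <;> simp [h1, h2]
  rw [Finset.sum_congr rfl fun ω _ => e1 ω, Finset.sum_comm]
  have e2 : ∀ ω₁, ∑ ω, ∑ ω₂, (if A ω₁ = A ω ∧ B ω₂ = B ω
      then (1 : ℝ) / (cls AB ω * cls D ω) else 0) ≤ 1 := by
    intro ω₁
    rw [Finset.sum_comm]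
    have e3 : ∀ ω₂, ∑ ω, (if A ω₁ = A ω ∧ B ω₂ = B ω
        then (1 : ℝ) / (cls AB ω * cls D ω) else 0) ≤ if D ω₂ = D ω₁ then 1 / (cls D ω₁ : ℝ)
          else 0 := by
      intro ω₂
      by_cases hex : ∃ ω₀, A ω₁ = A ω₀ ∧ B ω₂ = B ω₀
      · obtain ⟨ω₀, h1, h2⟩ := hex
        have hD1 : D ω₁ = D ω₀ := hAD _ _ h1
        have hD2 : D ω₂ = D ω₀ := hBD _ _ h2
        rw [if_pos (hD2.trans hD1.symm)]
        have e4 : ∀ ω, (if A ω₁ = A ω ∧ B ω₂ = B ω
            then (1 : ℝ) / (cls AB ω * cls D ω) else 0)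
            = if AB ω = AB ω₀ then (1 : ℝ) / (cls AB ω₀ * cls D ω₁) else 0 := by
          intro ω
          by_cases h : AB ω = AB ω₀
          · have h3 : A ω = A ω₀ ∧ B ω = B ω₀ := by simpa [hAB] using h
            have h4 : D ω = D ω₁ := (hAD _ _ h3.1).trans hD1.symm
            rw [if_pos h, if_pos ⟨h1.trans h3.1.symm, h2.trans h3.2.symm⟩]
            unfold cls
            rw [h, h4]
          · rw [if_neg h, if_neg]
            rintro ⟨h5, h6⟩
            exact h (by simp [hAB, h1.symm.trans h5, h2.symm.trans h6])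
        rw [Finset.sum_congr rfl fun ω _ => e4 ω, ← Finset.sum_filter, Finset.sum_const,
          nsmul_eq_mul]
        have e5 : ((univ.filter (fun ω => AB ω = AB ω₀)).card : ℝ) = cls AB ω₀ := by
          rw [cls_eq]
        rw [e5]
        have := hab ω₀
        have := hd ω₁
        apply le_of_eq
        field_simp
      · have : ∀ ω, (if A ω₁ = A ω ∧ B ω₂ = B ω
            then (1 : ℝ) / (cls AB ω * cls D ω) else 0) = 0 := by
          intro ω
          rw [if_neg]
          intro h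
          exact hex ⟨ω, h⟩
        rw [Finset.sum_congr rfl fun ω _ => this ω, Finset.sum_const_zero]
        have := hd ω₁
        split_ifs <;> positivity
    refine (Finset.sum_le_sum fun ω₂ _ => e3 ω₂).trans ?_
    rw [← Finset.sum_filter, Finset.sum_const, nsmul_eq_mul]
    have e6 : ((univ.filter (fun ω => D ω = D ω₁)).card : ℝ) = cls D ω₁ := by
      rw [cls_eq]
    rw [e6]
    have := hd ω₁
    apply le_of_eq
    field_simp
  calc ∑ ω₁, ∑ ω, ∑ ω₂, (if A ω₁ = A ω ∧ B ω₂ = B ω
      then (1 : ℝ) / (cls AB ω * cls D ω) else 0)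
      ≤ ∑ _ω₁ : Ω, (1 : ℝ) := Finset.sum_le_sum fun ω₁ _ => e2 ω₁
    _ = Fintype.card Ω := by simp

/-- Subadditivity. -/
lemma SA {A : Ω → β} {B : Ω → γ} {C : Ω → δ}
    (hC : ∀ ω ω', A ω = A ω' → B ω = B ω' → C ω = C ω') :
    H C ≤ H A + H B := by
  have h := SM (D := fun _ : Ω => ()) (fun _ _ _ => rfl) (fun _ _ _ => rfl) hC
  have h0 : 0 ≤ H (fun _ : Ω => ()) := by
    unfold H
    refine div_nonneg (Finset.sum_nonneg fun ω _ => Real.log_nonneg ?_) (by positivity)
    have hp : (0 : ℝ) < cls (fun _ : Ω => ()) ω := by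
      exact_mod_cast cls_pos (fun _ : Ω => ()) ω
    rw [one_le_div hp]
    unfold cls
    exact_mod_cast Finset.card_le_univ _
  linarith

end Entropy

end Pool.Agent.Lib.MP_8be780_co
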