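import Pool.Agent.Lib.MP_8be780_co.Count

/-!
# The inequality `|A - A| ^ 724 ≤ |A + A| ^ 965`
-/

open Finset
open scoped Pointwise

namespace Pool.Agent.Lib.MP_8be780_co

/-- One canonical pair for every difference (the one whose smaller element is smallest). -/
def RA (A : Finset ℤ) : Finset (ℤ × ℤ) :=
  (A ×ˢ A).filter (fun p => ∀ t ∈ A, t + |p.1 - p.2| ∈ A → min p.1 p.2 ≤ t)

lemma RA_sub (A : Finset ℤ) : RA A ⊆ A ×ˢ A := Finset.filter_subset _ _

lemma mem_RA {A : Finset ℤ} {a b : ℤ} : (a, b) ∈ RA A ↔ (a ∈ A ∧ b ∈ A) ∧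
    ∀ t ∈ A, t + |a - b| ∈ A → min a b ≤ t := by
  simp only [RA, Finset.mem_filter, Finset.mem_product]

lemma RA_symm (A : Finset ℤ) : ∀ a b, (a, b) ∈ RA A → (b, a) ∈ RA A := by
  intro a b h
  rw [mem_RA] at h ⊢
  refine ⟨⟨h.1.2, h.1.1⟩, ?_⟩
  rw [abs_sub_comm, min_comm]
  exact h.2

lemma RA_inj (A : Finset ℤ) : ∀ a b c d, (a, b) ∈ RA A → (c, d) ∈ RA A → a - b = c - d →
    a = c ∧ b = d := by
  intro a b c d h1 h2 h
  rw [mem_RA] at h1 h2
  obtain ⟨⟨ha, hb⟩, h1⟩ := h1
  obtain ⟨⟨hc, hd⟩, h2⟩ := h2
  have e1 : min c d + |a - b| = max c d := by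
    rw [h]
    rcases le_total c d with hcd | hcd
    · rw [min_eq_left hcd, max_eq_right hcd, abs_of_nonpos (by omega)]; omega
    · rw [min_eq_right hcd, max_eq_left hcd, abs_of_nonneg (by omega)]; omega
  have e2 : min a b + |c - d| = max a b := by
    rw [← h]
    rcases le_total a b with hcd | hcd
    · rw [min_eq_left hcd, max_eq_right hcd, abs_of_nonpos (by omega)]; omega
    · rw [min_eq_right hcd, max_eq_left hcd, abs_of_nonneg (by omega)]; omega
  have m1 : min c d ∈ A := by rcases min_choice c d with h' | h' <;> rw [h'] <;> assumption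
  have m2 : max c d ∈ A := by rcases max_choice c d with h' | h' <;> rw [h'] <;> assumption
  have m3 : min a b ∈ A := by rcases min_choice a b with h' | h' <;> rw [h'] <;> assumption
  have m4 : max a b ∈ A := by rcases max_choice a b with h' | h' <;> rw [h'] <;> assumption
  have l1 := h1 _ m1 (e1 ▸ m2)
  have l2 := h2 _ m3 (e2 ▸ m4)
  omega

lemma RA_card (A : Finset ℤ) : (RA A).card = (A - A).card := by
  have himg : (RA A).image (fun p => p.1 - p.2) = A - A := by
    ext d
    simp only [Finset.mem_image, Finset.mem_sub]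
    constructor
    · rintro ⟨⟨a, b⟩, h, rfl⟩
      rw [mem_RA] at h
      exact ⟨a, h.1.1, b, h.1.2, rfl⟩
    · rintro ⟨a, ha, b, hb, rfl⟩
      -- smallest `t` with `t, t + |a - b| ∈ A`
      have e1 : min a b + |a - b| = max a b := by
        rcases le_total a b with hcd | hcd
        · rw [min_eq_left hcd, max_eq_right hcd, abs_of_nonpos (by omega)]; omega
        · rw [min_eq_right hcd, max_eq_left hcd, abs_of_nonneg (by omega)]; omega
      have m1 : min a b ∈ A := by rcases min_choice a b with h' | h' <;> rw [h'] <;> assumption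
      have m2 : max a b ∈ A := by rcases max_choice a b with h' | h' <;> rw [h'] <;> assumption
      have hne : (A.filter (fun t => t + |a - b| ∈ A)).Nonempty :=
        ⟨min a b, Finset.mem_filter.mpr ⟨m1, e1 ▸ m2⟩⟩
      set t₀ := (A.filter (fun t => t + |a - b| ∈ A)).min' hne with ht₀
      have ht₀mem := Finset.min'_mem _ hne
      rw [← ht₀, Finset.mem_filter] at ht₀mem
      have hmin : ∀ t ∈ A, t + |a - b| ∈ A → t₀ ≤ t := fun t h1 h2 =>
        Finset.min'_le _ _ (Finset.mem_filter.mpr ⟨h1, h2⟩)
      rcases le_total a b with hab | hab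
      · have habs : |a - b| = b - a := by rw [abs_of_nonpos (by omega)]; omega
        refine ⟨(t₀, t₀ + |a - b|), ?_, by simp only []; omega⟩
        rw [mem_RA]
        refine ⟨ht₀mem, ?_⟩
        have e3 : |t₀ - (t₀ + |a - b|)| = |a - b| := by
          rw [habs, abs_of_nonpos (by omega)]; omega
        rw [e3]
        intro t h1 h2
        exact (min_le_left _ _).trans (hmin t h1 h2)
      · have habs : |a - b| = a - b := abs_of_nonneg (by omega)
        refine ⟨(t₀ + |a - b|, t₀), ?_, by simp only []; omega⟩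
        rw [mem_RA]
        refine ⟨⟨ht₀mem.2, ht₀mem.1⟩, ?_⟩
        have e3 : |t₀ + |a - b| - t₀| = |a - b| := by
          rw [habs, abs_of_nonneg (by omega)]; omega
        rw [e3]
        intro t h1 h2
        exact (min_le_right _ _).trans (hmin t h1 h2)
  rw [← himg, Finset.card_image_of_injOn]
  rintro ⟨a, b⟩ h1 ⟨c, d⟩ h2 h
  obtain ⟨e1, e2⟩ := RA_inj A a b c d h1 h2 h
  rw [e1, e2]

/-- The main inequality: `|A - A| ^ 724 ≤ |A + A| ^ 965` in logarithmic form. -/
theorem main_ineq (A : Finset ℤ) (hA : A.Nonempty) :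
    724 * Real.log (A - A).card ≤ 965 * Real.log (A + A).card := by
  classical
  set R := RA A with hRdef
  have hs := RA_symm A
  have hi := RA_inj A
  rw [← hRdef] at hs hi
  have hRsub : R ⊆ A ×ˢ A := RA_sub A
  have hRA : ∀ {a b : ℤ}, (a, b) ∈ R → a ∈ A ∧ b ∈ A := fun h => Finset.mem_product.mp (hRsub h)
  have hT : ∀ P ∈ R, P.1 + P.2 ∈ A + A := by
    intro P hP
    have := Finset.mem_product.mp (hRsub hP)
    exact Finset.add_mem_add this.1 this.2
  have hAA : (A - A).Nonempty := hA.sub hA
  have hAp : (A + A).Nonempty := hA.add hA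
  have hRne : R.Nonempty := by
    rw [← Finset.card_pos, hRdef, RA_card]
    exact hAA.card_pos
  have hcount := card_Om_lower hRsub hT hRne
  have hn : (0 : ℝ) < A.card := by exact_mod_cast hA.card_pos
  have hS : (0 : ℝ) < (A + A).card := by exact_mod_cast hAp.card_pos
  have hr : (0 : ℝ) < R.card := by exact_mod_cast hRne.card_pos
  have hOm : (0 : ℝ) < Fintype.card (Om R) := by
    by_contra hcon
    have h0 : (Fintype.card (Om R) : ℝ) = 0 := le_antisymm (not_lt.mp hcon) (Nat.cast_nonneg _)
    rw [h0, mul_zero] at hcount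
    have : (0 : ℝ) < (R.card : ℝ) ^ 12 := by positivity
    linarith
  have hOmne : Nonempty (Om R) := by
    rw [← Fintype.card_pos_iff]
    exact_mod_cast hOm
  -- logarithmic form of the counting
  have hlog : 12 * Real.log R.card ≤
      16 * Real.log A.card + 2 * Real.log (A + A).card + Real.log (Fintype.card (Om R)) := by
    have h := Real.log_le_log (by positivity) hcount
    rw [Real.log_mul (by positivity) (by positivity), Real.log_mul (by positivity) (by positivity),
      Real.log_pow, Real.log_pow, Real.log_pow] at h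
    push_cast at h
    linarith
  -- Shannon
  have htot := total (R := R) hs hi
  have hfull : H (F56 R) = Real.log (Fintype.card (Om R)) := by
    refine H_inj ?_
    intro ω ω' h
    simp only [F56, Prod.mk.injEq] at h
    have c1 := ω.s1; have c2 := ω.s2; have c3 := ω'.s1; have c4 := ω'.s2
    apply Om.ext <;> omega
  have b0 : H (F0 R) ≤ Real.log A.card :=
    H_le_log_card _ A fun ω => (hRA ω.u1w1).1
  have b1 : H (F1 R) ≤ Real.log (A + A).card :=
    H_le_log_card _ (A + A) fun ω => Finset.add_mem_add (hRA ω.y1x1).2 (hRA ω.y2x2).2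
  have b8 : H (F8 R) ≤ Real.log (A + A).card :=
    H_le_log_card _ (A + A) fun ω => Finset.add_mem_add (hRA ω.y1x1).1 (hRA ω.y2x2).2
  have b12 : H (F12 R) ≤ Real.log R.card :=
    H_le_log_card _ R fun ω => hs _ _ ω.y1x1
  -- Ruzsa
  have hruz : Real.log R.card + Real.log A.card ≤ 2 * Real.log (A + A).card := by
    have h := Finset.ruzsa_triangle_inequality_sub_add_add A A A
    rw [← RA_card, ← hRdef] at h
    have h' : (R.card : ℝ) * A.card ≤ (A + A).card * (A + A).card := by exact_mod_cast h
    have h2 := Real.log_le_log (by positivity) h'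
    rw [Real.log_mul (by positivity) (by positivity), Real.log_mul (by positivity) (by positivity)]
      at h2
    linarith
  rw [hfull] at htot
  rw [← RA_card, ← hRdef]
  linarith

/-- The supremum is at most `965 / 724`. -/
theorem ratio_le (A : Finset ℤ) :
    Real.log (A - A).card / Real.log (A + A).card ≤ 965 / 724 := by
  rcases Nat.lt_or_ge (A + A).card 2 with hlt | hge
  · have h0 : Real.log (A + A).card = 0 := by
      have : (A + A).card = 0 ∨ (A + A).card = 1 := by omega
      rcases this with h | h <;> rw [h] <;> simp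
    rw [h0, div_zero]
    norm_num
  · have hA : A.Nonempty := by
      by_contra hcon
      rw [Finset.not_nonempty_iff_eq_empty] at hcon
      rw [hcon] at hge
      simp at hge
    have hpos : 0 < Real.log (A + A).card := Real.log_pos (by exact_mod_cast hge)
    rw [div_le_div_iff₀ hpos (by norm_num)]
    have := main_ineq A hA
    linarith

end Pool.Agent.Lib.MP_8be780_co
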