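import Pool.Agent.Lib.MP_8be780_co.Ent

/-!
# The configuration space and its Shannon inequalities
-/

set_option linter.unusedSectionVars false
set_option linter.unusedVariables false

namespace Pool.Agent.Lib.MP_8be780_co

/-- The configuration space: two quadruples `(u, w, y, x)` with `u + w = y + x`, all pairs in `R`. -/
@[ext] structure Om (R : Finset (ℤ × ℤ)) where
  u1 : ℤ
  w1 : ℤ
  y1 : ℤ
  x1 : ℤ
  u2 : ℤ
  w2 : ℤ
  y2 : ℤ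
  x2 : ℤ
  s1 : u1 + w1 = y1 + x1
  s2 : u2 + w2 = y2 + x2
  u1w1 : (u1, w1) ∈ R
  y1x1 : (y1, x1) ∈ R
  u2w2 : (u2, w2) ∈ R
  y2x2 : (y2, x2) ∈ R
  u1w2 : (u1, w2) ∈ R
  u1x2 : (u1, x2) ∈ R
  y1w2 : (y1, w2) ∈ R
  y1x2 : (y1, x2) ∈ R
  u2w1 : (u2, w1) ∈ R
  u2x1 : (u2, x1) ∈ R
  y2w1 : (y2, w1) ∈ R
  y2x1 : (y2, x1) ∈ R


/-- Swap the two pairs of the first quadruple. -/
def sw1 (R : Finset (ℤ × ℤ)) : Om R ≃ Om R where
  toFun ω := ⟨ω.y1, ω.x1, ω.u1, ω.w1, ω.u2, ω.w2, ω.y2, ω.x2,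
      by have h1 := ω.s1; have h2 := ω.s2; omega,
      by have h1 := ω.s1; have h2 := ω.s2; omega,
      ω.y1x1, ω.u1w1, ω.u2w2, ω.y2x2, ω.y1w2, ω.y1x2, ω.u1w2, ω.u1x2, ω.u2x1, ω.u2w1, ω.y2x1, ω.y2w1⟩
  invFun ω := ⟨ω.y1, ω.x1, ω.u1, ω.w1, ω.u2, ω.w2, ω.y2, ω.x2,
      by have h1 := ω.s1; have h2 := ω.s2; omega,
      by have h1 := ω.s1; have h2 := ω.s2; omega,
      ω.y1x1, ω.u1w1, ω.u2w2, ω.y2x2, ω.y1w2, ω.y1x2, ω.u1w2, ω.u1x2, ω.u2x1, ω.u2w1, ω.y2x1, ω.y2w1⟩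
  left_inv _ := rfl
  right_inv _ := rfl

/-- Swap the two pairs of the second quadruple. -/
def sw2 (R : Finset (ℤ × ℤ)) : Om R ≃ Om R where
  toFun ω := ⟨ω.u1, ω.w1, ω.y1, ω.x1, ω.y2, ω.x2, ω.u2, ω.w2,
      by have h1 := ω.s1; have h2 := ω.s2; omega,
      by have h1 := ω.s1; have h2 := ω.s2; omega,
      ω.u1w1, ω.y1x1, ω.y2x2, ω.u2w2, ω.u1x2, ω.u1w2, ω.y1x2, ω.y1w2, ω.y2w1, ω.y2x1, ω.u2w1, ω.u2x1⟩
  invFun ω := ⟨ω.u1, ω.w1, ω.y1, ω.x1, ω.y2, ω.x2, ω.u2, ω.w2,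
      by have h1 := ω.s1; have h2 := ω.s2; omega,
      by have h1 := ω.s1; have h2 := ω.s2; omega,
      ω.u1w1, ω.y1x1, ω.y2x2, ω.u2w2, ω.u1x2, ω.u1w2, ω.y1x2, ω.y1w2, ω.y2w1, ω.y2x1, ω.u2w1, ω.u2x1⟩
  left_inv _ := rfl
  right_inv _ := rfl

/-- Swap the two quadruples. -/
def ix (R : Finset (ℤ × ℤ)) : Om R ≃ Om R where
  toFun ω := ⟨ω.u2, ω.w2, ω.y2, ω.x2, ω.u1, ω.w1, ω.y1, ω.x1,
      by have h1 := ω.s1; have h2 := ω.s2; omega,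
      by have h1 := ω.s1; have h2 := ω.s2; omega,
      ω.u2w2, ω.y2x2, ω.u1w1, ω.y1x1, ω.u2w1, ω.u2x1, ω.y2w1, ω.y2x1, ω.u1w2, ω.u1x2, ω.y1w2, ω.y1x2⟩
  invFun ω := ⟨ω.u2, ω.w2, ω.y2, ω.x2, ω.u1, ω.w1, ω.y1, ω.x1,
      by have h1 := ω.s1; have h2 := ω.s2; omega,
      by have h1 := ω.s1; have h2 := ω.s2; omega,
      ω.u2w2, ω.y2x2, ω.u1w1, ω.y1x1, ω.u2w1, ω.u2x1, ω.y2w1, ω.y2x1, ω.u1w2, ω.u1x2, ω.y1w2, ω.y1x2⟩
  left_inv _ := rfl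
  right_inv _ := rfl

/-- Reverse all pairs. -/
def ty {R : Finset (ℤ × ℤ)} (hs : ∀ a b, (a, b) ∈ R → (b, a) ∈ R) : Om R ≃ Om R where
  toFun ω := ⟨ω.w1, ω.u1, ω.x1, ω.y1, ω.w2, ω.u2, ω.x2, ω.y2,
      by have h1 := ω.s1; have h2 := ω.s2; omega,
      by have h1 := ω.s1; have h2 := ω.s2; omega,
      hs _ _ ω.u1w1, hs _ _ ω.y1x1, hs _ _ ω.u2w2, hs _ _ ω.y2x2, hs _ _ ω.u2w1, hs _ _ ω.y2w1, hs _ _ ω.u2x1, hs _ _ ω.y2x1, hs _ _ ω.u1w2, hs _ _ ω.y1w2, hs _ _ ω.u1x2, hs _ _ ω.y1x2⟩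
  invFun ω := ⟨ω.w1, ω.u1, ω.x1, ω.y1, ω.w2, ω.u2, ω.x2, ω.y2,
      by have h1 := ω.s1; have h2 := ω.s2; omega,
      by have h1 := ω.s1; have h2 := ω.s2; omega,
      hs _ _ ω.u1w1, hs _ _ ω.y1x1, hs _ _ ω.u2w2, hs _ _ ω.y2x2, hs _ _ ω.u2w1, hs _ _ ω.y2w1, hs _ _ ω.u2x1, hs _ _ ω.y2x1, hs _ _ ω.u1w2, hs _ _ ω.y1w2, hs _ _ ω.u1x2, hs _ _ ω.y1x2⟩
  left_inv _ := rfl
  right_inv _ := rfl

lemma rule {R : Finset (ℤ × ℤ)} (hi : ∀ a b c d, (a, b) ∈ R → (c, d) ∈ R → a - b = c - d → a = c ∧ b = d)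
    {a b c d : ℤ} (h1 : (a, b) ∈ R) (h2 : (c, d) ∈ R) (h : a - b = c - d) : a = c ∧ b = d :=
  hi a b c d h1 h2 h

/-- Flat 0. -/
def F0 (R : Finset (ℤ × ℤ)) (ω : Om R) : ℤ := ω.u1
/-- Flat 1. -/
def F1 (R : Finset (ℤ × ℤ)) (ω : Om R) : ℤ := ω.x1 + ω.x2
/-- Flat 2. -/
def F2 (R : Finset (ℤ × ℤ)) (ω : Om R) : ℤ × ℤ := (ω.u1, ω.x1 + ω.x2)
/-- Flat 3. -/
def F3 (R : Finset (ℤ × ℤ)) (ω : Om R) : ℤ := ω.x2 + ω.u1 - ω.y1
/-- Flat 4. -/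
def F4 (R : Finset (ℤ × ℤ)) (ω : Om R) : ℤ × ℤ := (ω.u1, ω.x2 + ω.u1 - ω.y1)
/-- Flat 5. -/
def F5 (R : Finset (ℤ × ℤ)) (ω : Om R) : ℤ := ω.u2 + ω.u1 - ω.x1
/-- Flat 6. -/
def F6 (R : Finset (ℤ × ℤ)) (ω : Om R) : ℤ × ℤ := (ω.u1, ω.u2 + ω.u1 - ω.x1)
/-- Flat 7. -/
def F7 (R : Finset (ℤ × ℤ)) (ω : Om R) : ℤ × ℤ := (ω.u1, ω.y1 + ω.u2)
/-- Flat 8. -/
def F8 (R : Finset (ℤ × ℤ)) (ω : Om R) : ℤ := ω.y1 + ω.x2
/-- Flat 9. -/
def F9 (R : Finset (ℤ × ℤ)) (ω : Om R) : ℤ × ℤ := (ω.u1, ω.y1 + ω.x2)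
/-- Flat 10. -/
def F10 (R : Finset (ℤ × ℤ)) (ω : Om R) : ℤ := ω.u1 + ω.w1
/-- Flat 11. -/
def F11 (R : Finset (ℤ × ℤ)) (ω : Om R) : ℤ × ℤ := (ω.u1 + ω.u2, ω.u1 + ω.w1)
/-- Flat 12. -/
def F12 (R : Finset (ℤ × ℤ)) (ω : Om R) : ℤ × ℤ := (ω.x1, ω.y1)
/-- Flat 13. -/
def F13 (R : Finset (ℤ × ℤ)) (ω : Om R) : ℤ × ℤ := (ω.u2 + ω.u1 - ω.x1, ω.u2 + ω.u1 - ω.y1)
/-- Flat 14. -/
def F14 (R : Finset (ℤ × ℤ)) (ω : Om R) : ℤ × ℤ := (ω.w2, ω.y1)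
/-- Flat 15. -/
def F15 (R : Finset (ℤ × ℤ)) (ω : Om R) : ℤ × ℤ × ℤ := (ω.w2, ω.y1, ω.u1 + ω.u2)
/-- Flat 16. -/
def F16 (R : Finset (ℤ × ℤ)) (ω : Om R) : ℤ × ℤ := (ω.u1 + ω.u2 - ω.x2, ω.u2 + ω.u1 - ω.y1)
/-- Flat 17. -/
def F17 (R : Finset (ℤ × ℤ)) (ω : Om R) : ℤ × ℤ × ℤ := (ω.w2, ω.y1, ω.x1 + ω.x2 - ω.u2)
/-- Flat 18. -/
def F18 (R : Finset (ℤ × ℤ)) (ω : Om R) : ℤ := ω.u1 - ω.y1
/-- Flat 19. -/
def F19 (R : Finset (ℤ × ℤ)) (ω : Om R) : ℤ := ω.w1 - ω.y1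
/-- Flat 20. -/
def F20 (R : Finset (ℤ × ℤ)) (ω : Om R) : ℤ × ℤ := (ω.u1 - ω.y1, ω.w1 - ω.y1)
/-- Flat 21. -/
def F21 (R : Finset (ℤ × ℤ)) (ω : Om R) : ℤ × ℤ := (ω.u1, ω.u2)
/-- Flat 22. -/
def F22 (R : Finset (ℤ × ℤ)) (ω : Om R) : ℤ × ℤ := (ω.u1, ω.w1 + ω.x2)
/-- Flat 23. -/
def F23 (R : Finset (ℤ × ℤ)) (ω : Om R) : ℤ × ℤ × ℤ := (ω.u1, ω.u2, ω.w1 + ω.x2)
/-- Flat 24. -/
def F24 (R : Finset (ℤ × ℤ)) (ω : Om R) : ℤ × ℤ := (ω.u1, ω.w1 + ω.u2 - ω.y2)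
/-- Flat 25. -/
def F25 (R : Finset (ℤ × ℤ)) (ω : Om R) : ℤ × ℤ × ℤ := (ω.u1, ω.u2, ω.w1 + ω.u2 - ω.y2)
/-- Flat 26. -/
def F26 (R : Finset (ℤ × ℤ)) (ω : Om R) : ℤ × ℤ := (ω.u1, ω.w1 + ω.x2 - ω.u2)
/-- Flat 27. -/
def F27 (R : Finset (ℤ × ℤ)) (ω : Om R) : ℤ × ℤ := (ω.u1, ω.u2 - ω.y2)
/-- Flat 28. -/
def F28 (R : Finset (ℤ × ℤ)) (ω : Om R) : ℤ × ℤ := (ω.u1, ω.w2 - ω.y2)
/-- Flat 29. -/
def F29 (R : Finset (ℤ × ℤ)) (ω : Om R) : ℤ × ℤ := (ω.u1, ω.u2 + ω.w2)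
/-- Flat 30. -/
def F30 (R : Finset (ℤ × ℤ)) (ω : Om R) : ℤ × ℤ × ℤ := (ω.u1, ω.u2 + ω.w2, ω.w1 + ω.x2)
/-- Flat 31. -/
def F31 (R : Finset (ℤ × ℤ)) (ω : Om R) : ℤ × ℤ := (ω.u1 + ω.u2, ω.x1 + ω.x2)
/-- Flat 32. -/
def F32 (R : Finset (ℤ × ℤ)) (ω : Om R) : ℤ × ℤ × ℤ := (ω.u1, ω.u2, ω.x1 + ω.x2)
/-- Flat 33. -/
def F33 (R : Finset (ℤ × ℤ)) (ω : Om R) : ℤ × ℤ := (ω.u1 + ω.u2, ω.y1 + ω.y2)
/-- Flat 34. -/
def F34 (R : Finset (ℤ × ℤ)) (ω : Om R) : ℤ × ℤ × ℤ := (ω.u1, ω.u2, ω.y1 + ω.y2)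
/-- Flat 35. -/
def F35 (R : Finset (ℤ × ℤ)) (ω : Om R) : ℤ × ℤ := (ω.u1 + ω.x2, ω.u2 + ω.u1 - ω.x1)
/-- Flat 36. -/
def F36 (R : Finset (ℤ × ℤ)) (ω : Om R) : ℤ × ℤ × ℤ := (ω.u1, ω.x2, ω.u2 + ω.u1 - ω.x1)
/-- Flat 37. -/
def F37 (R : Finset (ℤ × ℤ)) (ω : Om R) : ℤ × ℤ × ℤ := (ω.w2, ω.y2, ω.u1 + ω.u2)
/-- Flat 38. -/
def F38 (R : Finset (ℤ × ℤ)) (ω : Om R) : ℤ × ℤ := (ω.u1 + ω.u2 - ω.y2, ω.u2 + ω.u1 - ω.y1)
/-- Flat 39. -/
def F39 (R : Finset (ℤ × ℤ)) (ω : Om R) : ℤ × ℤ × ℤ := (ω.w2, ω.u1 + ω.x2, ω.u2 + ω.u1 - ω.y1)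
/-- Flat 40. -/
def F40 (R : Finset (ℤ × ℤ)) (ω : Om R) : ℤ × ℤ × ℤ := (ω.w2, ω.u1 + ω.u2, ω.x1 + ω.x2 - ω.u2)
/-- Flat 41. -/
def F41 (R : Finset (ℤ × ℤ)) (ω : Om R) : ℤ × ℤ := (ω.u1 + ω.w1, ω.u2 - ω.y2)
/-- Flat 42. -/
def F42 (R : Finset (ℤ × ℤ)) (ω : Om R) : ℤ × ℤ := (ω.u1 + ω.w1, ω.w2 - ω.y2)
/-- Flat 43. -/
def F43 (R : Finset (ℤ × ℤ)) (ω : Om R) : ℤ × ℤ × ℤ := (ω.u1 + ω.w1, ω.u2 - ω.y2, ω.w2 - ω.y2)
/-- Flat 44. -/
def F44 (R : Finset (ℤ × ℤ)) (ω : Om R) : ℤ × ℤ × ℤ := (ω.u2, ω.y2, ω.x1 + ω.w2)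
/-- Flat 45. -/
def F45 (R : Finset (ℤ × ℤ)) (ω : Om R) : ℤ × ℤ := (ω.w1 + ω.x2, ω.x1 + ω.x2)
/-- Flat 46. -/
def F46 (R : Finset (ℤ × ℤ)) (ω : Om R) : ℤ × ℤ × ℤ := (ω.u2, ω.w1 + ω.x2, ω.x1 + ω.x2)
/-- Flat 47. -/
def F47 (R : Finset (ℤ × ℤ)) (ω : Om R) : ℤ × ℤ × ℤ := (ω.u1 + ω.u2, ω.w1 + ω.x2, ω.x1 + ω.x2)
/-- Flat 48. -/
def F48 (R : Finset (ℤ × ℤ)) (ω : Om R) : ℤ × ℤ := (ω.u1, ω.x1)
/-- Flat 49. -/
def F49 (R : Finset (ℤ × ℤ)) (ω : Om R) : ℤ × ℤ := (ω.u1 + ω.u2, ω.x1 + ω.u2)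
/-- Flat 50. -/
def F50 (R : Finset (ℤ × ℤ)) (ω : Om R) : ℤ × ℤ × ℤ := (ω.u1 + ω.u2, ω.w1 + ω.y2, ω.x1 + ω.u2)
/-- Flat 51. -/
def F51 (R : Finset (ℤ × ℤ)) (ω : Om R) : ℤ × ℤ × ℤ := (ω.u1, ω.u2 + ω.u1 - ω.x1, ω.w2 + ω.u1 - ω.y1)
/-- Flat 52. -/
def F52 (R : Finset (ℤ × ℤ)) (ω : Om R) : ℤ × ℤ := (ω.u1 + ω.u2 - ω.y2, ω.w1 + ω.u2 - ω.y2)
/-- Flat 53. -/
def F53 (R : Finset (ℤ × ℤ)) (ω : Om R) : ℤ × ℤ := (ω.u1 + ω.u2 - ω.x2, ω.w1 + ω.u2 - ω.x2)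
/-- Flat 54. -/
def F54 (R : Finset (ℤ × ℤ)) (ω : Om R) : ℤ × ℤ × ℤ := (ω.u1, ω.y2, ω.w2 + ω.u1 - ω.y1)
/-- Flat 55. -/
def F55 (R : Finset (ℤ × ℤ)) (ω : Om R) : ℤ × ℤ × ℤ := (ω.u1, ω.y1 + ω.u2 - ω.x2, ω.y1 + ω.u2 - ω.y2)
/-- Flat 56. -/
def F56 (R : Finset (ℤ × ℤ)) (ω : Om R) : ℤ × ℤ × ℤ × ℤ × ℤ × ℤ := (ω.u1, ω.u2, ω.w1, ω.w2, ω.x1, ω.x2)
/-- Flat 57. -/
def F57 (R : Finset (ℤ × ℤ)) (ω : Om R) : ℤ × ℤ × ℤ := (ω.u1, ω.x1 + ω.u2 - ω.y2, ω.x1 + ω.x2 - ω.u2)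
/-- Flat 58. -/
def F58 (R : Finset (ℤ × ℤ)) (ω : Om R) : ℤ × ℤ × ℤ × ℤ := (ω.u1, ω.u2, ω.y1, ω.w1 + ω.x2)
/-- Flat 59. -/
def F59 (R : Finset (ℤ × ℤ)) (ω : Om R) : ℤ × ℤ × ℤ × ℤ := (ω.u1, ω.y1, ω.w1 + ω.w2, ω.w1 + ω.x2)
/-- Flat 60. -/
def F60 (R : Finset (ℤ × ℤ)) (ω : Om R) : ℤ × ℤ × ℤ := (ω.u1, ω.w1 + ω.x2, ω.y1 + ω.u2)
/-- Flat 61. -/
def F61 (R : Finset (ℤ × ℤ)) (ω : Om R) : ℤ × ℤ × ℤ := (ω.u1, ω.w1 + ω.w2, ω.w1 + ω.x2)
/-- Flat 62. -/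
def F62 (R : Finset (ℤ × ℤ)) (ω : Om R) : ℤ × ℤ × ℤ := (ω.u1, ω.w1 + ω.u2, ω.y2 + ω.u1 - ω.x1)
/-- Flat 63. -/
def F63 (R : Finset (ℤ × ℤ)) (ω : Om R) : ℤ × ℤ × ℤ := (ω.u1 + ω.u2 - ω.x2, ω.u2 + ω.y1 - ω.u1, ω.w1 + ω.u2 - ω.y2)
/-- Flat 64. -/
def F64 (R : Finset (ℤ × ℤ)) (ω : Om R) : ℤ × ℤ × ℤ × ℤ := (ω.u1, ω.u2, ω.y2, ω.w1 + ω.w2)
/-- Flat 65. -/
def F65 (R : Finset (ℤ × ℤ)) (ω : Om R) : ℤ × ℤ × ℤ := (ω.u1 + ω.u2, ω.u1 + ω.x2, ω.x1 + ω.u2)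
/-- Flat 66. -/
def F66 (R : Finset (ℤ × ℤ)) (ω : Om R) : ℤ × ℤ × ℤ := (ω.u1 + ω.u2, ω.u1 + ω.y2, ω.y1 + ω.u2)

section

variable {R : Finset (ℤ × ℤ)} [Fintype (Om R)] (hs : ∀ a b, (a, b) ∈ R → (b, a) ∈ R)
  (hi : ∀ a b c d, (a, b) ∈ R → (c, d) ∈ R → a - b = c - d → a = c ∧ b = d)

include hs hi in
lemma ineq0 : H (F2 R) ≤ H (F0 R) + H (F1 R) := by
  have qA : H (fun ω : Om R => ω.u1) = H (F0 R) := H_comp (Equiv.refl (Om R)) (F0 R)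
  have qB : H (fun ω : Om R => ω.x1 + ω.x2) = H (F1 R) := H_comp (Equiv.refl (Om R)) (F1 R)
  have qC : H (fun ω : Om R => (ω.u1, ω.x1 + ω.x2)) = H (F2 R) := H_comp (Equiv.refl (Om R)) (F2 R)
  have h := SA (A := (fun ω : Om R => ω.u1)) (B := (fun ω : Om R => ω.x1 + ω.x2))
    (C := (fun ω : Om R => (ω.u1, ω.x1 + ω.x2))) ?_
  · linarith [qA, qB, qC]
  · intro ω ω' h h'
    have c1 := ω.s1; have c2 := ω.s2; have c3 := ω'.s1; have c4 := ω'.s2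
    simp only [Prod.mk.injEq]
    refine ⟨by omega, by omega⟩

include hs hi in
lemma ineq1 : H (F4 R) ≤ H (F0 R) + H (F3 R) := by
  have qA : H (fun ω : Om R => ω.u1) = H (F0 R) := H_comp (Equiv.refl (Om R)) (F0 R)
  have qB : H (fun ω : Om R => ω.x2 + ω.u1 - ω.y1) = H (F3 R) := H_comp (Equiv.refl (Om R)) (F3 R)
  have qC : H (fun ω : Om R => (ω.u1, ω.x2 + ω.u1 - ω.y1)) = H (F4 R) := H_comp (Equiv.refl (Om R)) (F4 R)
  have h := SA (A := (fun ω : Om R => ω.u1)) (B := (fun ω : Om R => ω.x2 + ω.u1 - ω.y1))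
    (C := (fun ω : Om R => (ω.u1, ω.x2 + ω.u1 - ω.y1))) ?_
  · linarith [qA, qB, qC]
  · intro ω ω' h h'
    have c1 := ω.s1; have c2 := ω.s2; have c3 := ω'.s1; have c4 := ω'.s2
    simp only [Prod.mk.injEq]
    refine ⟨by omega, by omega⟩

include hs hi in
lemma ineq2 : H (F6 R) ≤ H (F0 R) + H (F5 R) := by
  have qA : H (fun ω : Om R => ω.u1) = H (F0 R) := H_comp (Equiv.refl (Om R)) (F0 R)
  have qB : H (fun ω : Om R => ω.u2 + ω.u1 - ω.x1) = H (F5 R) := H_comp (Equiv.refl (Om R)) (F5 R)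
  have qC : H (fun ω : Om R => (ω.u1, ω.u2 + ω.u1 - ω.x1)) = H (F6 R) := H_comp (Equiv.refl (Om R)) (F6 R)
  have h := SA (A := (fun ω : Om R => ω.u1)) (B := (fun ω : Om R => ω.u2 + ω.u1 - ω.x1))
    (C := (fun ω : Om R => (ω.u1, ω.u2 + ω.u1 - ω.x1))) ?_
  · linarith [qA, qB, qC]
  · intro ω ω' h h'
    have c1 := ω.s1; have c2 := ω.s2; have c3 := ω'.s1; have c4 := ω'.s2
    simp only [Prod.mk.injEq]
    refine ⟨by omega, by omega⟩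

include hs hi in
lemma ineq3 : H (F7 R) ≤ H (F0 R) + H (F1 R) := by
  have qA : H (fun ω : Om R => ω.u1) = H (F0 R) := H_comp (Equiv.refl (Om R)) (F0 R)
  have qB : H (fun ω : Om R => ω.y1 + ω.u2) = H (F1 R) := H_comp ((sw2 R).trans (ty hs)) (F1 R)
  have qC : H (fun ω : Om R => (ω.u1, ω.y1 + ω.u2)) = H (F7 R) := H_comp (Equiv.refl (Om R)) (F7 R)
  have h := SA (A := (fun ω : Om R => ω.u1)) (B := (fun ω : Om R => ω.y1 + ω.u2))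
    (C := (fun ω : Om R => (ω.u1, ω.y1 + ω.u2))) ?_
  · linarith [qA, qB, qC]
  · intro ω ω' h h'
    have c1 := ω.s1; have c2 := ω.s2; have c3 := ω'.s1; have c4 := ω'.s2
    simp only [Prod.mk.injEq]
    refine ⟨by omega, by omega⟩

include hs hi in
lemma ineq4 : H (F9 R) ≤ H (F0 R) + H (F8 R) := by
  have qA : H (fun ω : Om R => ω.u1) = H (F0 R) := H_comp (Equiv.refl (Om R)) (F0 R)
  have qB : H (fun ω : Om R => ω.y1 + ω.x2) = H (F8 R) := H_comp (Equiv.refl (Om R)) (F8 R)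
  have qC : H (fun ω : Om R => (ω.u1, ω.y1 + ω.x2)) = H (F9 R) := H_comp (Equiv.refl (Om R)) (F9 R)
  have h := SA (A := (fun ω : Om R => ω.u1)) (B := (fun ω : Om R => ω.y1 + ω.x2))
    (C := (fun ω : Om R => (ω.u1, ω.y1 + ω.x2))) ?_
  · linarith [qA, qB, qC]
  · intro ω ω' h h'
    have c1 := ω.s1; have c2 := ω.s2; have c3 := ω'.s1; have c4 := ω'.s2
    simp only [Prod.mk.injEq]
    refine ⟨by omega, by omega⟩

include hs hi in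
lemma ineq5 : H (F11 R) ≤ H (F1 R) + H (F10 R) := by
  have qA : H (fun ω : Om R => ω.u1 + ω.u2) = H (F1 R) := H_comp ((sw1 R).trans ((sw2 R).trans (ty hs))) (F1 R)
  have qB : H (fun ω : Om R => ω.u1 + ω.w1) = H (F10 R) := H_comp (Equiv.refl (Om R)) (F10 R)
  have qC : H (fun ω : Om R => (ω.u1 + ω.u2, ω.u1 + ω.w1)) = H (F11 R) := H_comp (Equiv.refl (Om R)) (F11 R)
  have h := SA (A := (fun ω : Om R => ω.u1 + ω.u2)) (B := (fun ω : Om R => ω.u1 + ω.w1))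
    (C := (fun ω : Om R => (ω.u1 + ω.u2, ω.u1 + ω.w1))) ?_
  · linarith [qA, qB, qC]
  · intro ω ω' h h'
    have c1 := ω.s1; have c2 := ω.s2; have c3 := ω'.s1; have c4 := ω'.s2
    simp only [Prod.mk.injEq]
    refine ⟨by omega, by omega⟩

include hs hi in
lemma ineq6 : H (F13 R) ≤ H (F1 R) + H (F12 R) := by
  have qA : H (fun ω : Om R => ω.u1 + ω.u2) = H (F1 R) := H_comp ((sw1 R).trans ((sw2 R).trans (ty hs))) (F1 R)
  have qB : H (fun ω : Om R => (ω.x1, ω.y1)) = H (F12 R) := H_comp (Equiv.refl (Om R)) (F12 R)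
  have qC : H (fun ω : Om R => (ω.u2 + ω.u1 - ω.x1, ω.u2 + ω.u1 - ω.y1)) = H (F13 R) := H_comp (Equiv.refl (Om R)) (F13 R)
  have h := SA (A := (fun ω : Om R => ω.u1 + ω.u2)) (B := (fun ω : Om R => (ω.x1, ω.y1)))
    (C := (fun ω : Om R => (ω.u2 + ω.u1 - ω.x1, ω.u2 + ω.u1 - ω.y1))) ?_
  · linarith [qA, qB, qC]
  · intro ω ω' h h'
    simp only [Prod.mk.injEq] at h'
    have c1 := ω.s1; have c2 := ω.s2; have c3 := ω'.s1; have c4 := ω'.s2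
    simp only [Prod.mk.injEq]
    refine ⟨by omega, by omega⟩

include hs hi in
lemma ineq7 : H (F15 R) ≤ H (F1 R) + H (F14 R) := by
  have qA : H (fun ω : Om R => ω.u1 + ω.u2) = H (F1 R) := H_comp ((sw1 R).trans ((sw2 R).trans (ty hs))) (F1 R)
  have qB : H (fun ω : Om R => (ω.w2, ω.y1)) = H (F14 R) := H_comp (Equiv.refl (Om R)) (F14 R)
  have qC : H (fun ω : Om R => (ω.w2, ω.y1, ω.u1 + ω.u2)) = H (F15 R) := H_comp (Equiv.refl (Om R)) (F15 R)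
  have h := SA (A := (fun ω : Om R => ω.u1 + ω.u2)) (B := (fun ω : Om R => (ω.w2, ω.y1)))
    (C := (fun ω : Om R => (ω.w2, ω.y1, ω.u1 + ω.u2))) ?_
  · linarith [qA, qB, qC]
  · intro ω ω' h h'
    simp only [Prod.mk.injEq] at h'
    have c1 := ω.s1; have c2 := ω.s2; have c3 := ω'.s1; have c4 := ω'.s2
    simp only [Prod.mk.injEq]
    refine ⟨by omega, by omega, by omega⟩

include hs hi in
lemma ineq8 : H (F16 R) ≤ H (F1 R) + H (F14 R) := by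
  have qA : H (fun ω : Om R => ω.u1 + ω.u2) = H (F1 R) := H_comp ((sw1 R).trans ((sw2 R).trans (ty hs))) (F1 R)
  have qB : H (fun ω : Om R => (ω.x2, ω.y1)) = H (F14 R) := H_comp (sw2 R) (F14 R)
  have qC : H (fun ω : Om R => (ω.u1 + ω.u2 - ω.x2, ω.u2 + ω.u1 - ω.y1)) = H (F16 R) := H_comp (Equiv.refl (Om R)) (F16 R)
  have h := SA (A := (fun ω : Om R => ω.u1 + ω.u2)) (B := (fun ω : Om R => (ω.x2, ω.y1)))
    (C := (fun ω : Om R => (ω.u1 + ω.u2 - ω.x2, ω.u2 + ω.u1 - ω.y1))) ?_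
  · linarith [qA, qB, qC]
  · intro ω ω' h h'
    simp only [Prod.mk.injEq] at h'
    have c1 := ω.s1; have c2 := ω.s2; have c3 := ω'.s1; have c4 := ω'.s2
    simp only [Prod.mk.injEq]
    refine ⟨by omega, by omega⟩

include hs hi in
lemma ineq9 : H (F17 R) ≤ H (F5 R) + H (F14 R) := by
  have qA : H (fun ω : Om R => ω.x1 + ω.w2 - ω.y2) = H (F5 R) := H_comp ((sw1 R).trans ((ix R).trans (ty hs))) (F5 R)
  have qB : H (fun ω : Om R => (ω.w2, ω.y1)) = H (F14 R) := H_comp (Equiv.refl (Om R)) (F14 R)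
  have qC : H (fun ω : Om R => (ω.w2, ω.y1, ω.x1 + ω.x2 - ω.u2)) = H (F17 R) := H_comp (Equiv.refl (Om R)) (F17 R)
  have h := SA (A := (fun ω : Om R => ω.x1 + ω.w2 - ω.y2)) (B := (fun ω : Om R => (ω.w2, ω.y1)))
    (C := (fun ω : Om R => (ω.w2, ω.y1, ω.x1 + ω.x2 - ω.u2))) ?_
  · linarith [qA, qB, qC]
  · intro ω ω' h h'
    simp only [Prod.mk.injEq] at h'
    have c1 := ω.s1; have c2 := ω.s2; have c3 := ω'.s1; have c4 := ω'.s2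
    simp only [Prod.mk.injEq]
    refine ⟨by omega, by omega, by omega⟩

include hs hi in
lemma ineq10 : H (F20 R) ≤ H (F18 R) + H (F19 R) := by
  have qA : H (fun ω : Om R => ω.u1 - ω.y1) = H (F18 R) := H_comp (Equiv.refl (Om R)) (F18 R)
  have qB : H (fun ω : Om R => ω.w1 - ω.y1) = H (F19 R) := H_comp (Equiv.refl (Om R)) (F19 R)
  have qC : H (fun ω : Om R => (ω.u1 - ω.y1, ω.w1 - ω.y1)) = H (F20 R) := H_comp (Equiv.refl (Om R)) (F20 R)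
  have h := SA (A := (fun ω : Om R => ω.u1 - ω.y1)) (B := (fun ω : Om R => ω.w1 - ω.y1))
    (C := (fun ω : Om R => (ω.u1 - ω.y1, ω.w1 - ω.y1))) ?_
  · linarith [qA, qB, qC]
  · intro ω ω' h h'
    have c1 := ω.s1; have c2 := ω.s2; have c3 := ω'.s1; have c4 := ω'.s2
    simp only [Prod.mk.injEq]
    refine ⟨by omega, by omega⟩

include hs hi in
lemma ineq11 : H (F23 R) + H (F0 R) ≤ H (F21 R) + H (F22 R) := by
  have qA : H (fun ω : Om R => (ω.u1, ω.u2)) = H (F21 R) := H_comp (Equiv.refl (Om R)) (F21 R)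
  have qB : H (fun ω : Om R => (ω.u1, ω.w1 + ω.x2)) = H (F22 R) := H_comp (Equiv.refl (Om R)) (F22 R)
  have qC : H (fun ω : Om R => (ω.u1, ω.u2, ω.w1 + ω.x2)) = H (F23 R) := H_comp (Equiv.refl (Om R)) (F23 R)
  have qD : H (fun ω : Om R => ω.u1) = H (F0 R) := H_comp (Equiv.refl (Om R)) (F0 R)
  have h := SM (A := (fun ω : Om R => (ω.u1, ω.u2))) (B := (fun ω : Om R => (ω.u1, ω.w1 + ω.x2)))
    (C := (fun ω : Om R => (ω.u1, ω.u2, ω.w1 + ω.x2))) (D := (fun ω : Om R => ω.u1)) ?_ ?_ ?_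
  · linarith [qA, qB, qC, qD]
  · intro ω ω' h
    simp only [Prod.mk.injEq] at h
    have c1 := ω.s1; have c2 := ω.s2; have c3 := ω'.s1; have c4 := ω'.s2
    show ω.u1 = ω'.u1
    omega
  · intro ω ω' h
    simp only [Prod.mk.injEq] at h
    have c1 := ω.s1; have c2 := ω.s2; have c3 := ω'.s1; have c4 := ω'.s2
    show ω.u1 = ω'.u1
    omega
  · intro ω ω' h h'
    simp only [Prod.mk.injEq] at h
    simp only [Prod.mk.injEq] at h'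
    have c1 := ω.s1; have c2 := ω.s2; have c3 := ω'.s1; have c4 := ω'.s2
    simp only [Prod.mk.injEq]
    refine ⟨by omega, by omega, by omega⟩

include hs hi in
lemma ineq12 : H (F25 R) + H (F0 R) ≤ H (F21 R) + H (F24 R) := by
  have qA : H (fun ω : Om R => (ω.u1, ω.u2)) = H (F21 R) := H_comp (Equiv.refl (Om R)) (F21 R)
  have qB : H (fun ω : Om R => (ω.u1, ω.w1 + ω.u2 - ω.y2)) = H (F24 R) := H_comp (Equiv.refl (Om R)) (F24 R)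
  have qC : H (fun ω : Om R => (ω.u1, ω.u2, ω.w1 + ω.u2 - ω.y2)) = H (F25 R) := H_comp (Equiv.refl (Om R)) (F25 R)
  have qD : H (fun ω : Om R => ω.u1) = H (F0 R) := H_comp (Equiv.refl (Om R)) (F0 R)
  have h := SM (A := (fun ω : Om R => (ω.u1, ω.u2))) (B := (fun ω : Om R => (ω.u1, ω.w1 + ω.u2 - ω.y2)))
    (C := (fun ω : Om R => (ω.u1, ω.u2, ω.w1 + ω.u2 - ω.y2))) (D := (fun ω : Om R => ω.u1)) ?_ ?_ ?_
  · linarith [qA, qB, qC, qD]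
  · intro ω ω' h
    simp only [Prod.mk.injEq] at h
    have c1 := ω.s1; have c2 := ω.s2; have c3 := ω'.s1; have c4 := ω'.s2
    show ω.u1 = ω'.u1
    omega
  · intro ω ω' h
    simp only [Prod.mk.injEq] at h
    have c1 := ω.s1; have c2 := ω.s2; have c3 := ω'.s1; have c4 := ω'.s2
    show ω.u1 = ω'.u1
    omega
  · intro ω ω' h h'
    simp only [Prod.mk.injEq] at h
    simp only [Prod.mk.injEq] at h'
    have c1 := ω.s1; have c2 := ω.s2; have c3 := ω'.s1; have c4 := ω'.s2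
    simp only [Prod.mk.injEq]
    refine ⟨by omega, by omega, by omega⟩

include hs hi in
lemma ineq13 : H (F17 R) + H (F0 R) ≤ H (F14 R) + H (F26 R) := by
  have qA : H (fun ω : Om R => (ω.w2, ω.u1)) = H (F14 R) := H_comp (sw1 R) (F14 R)
  have qB : H (fun ω : Om R => (ω.u1, ω.w1 + ω.x2 - ω.u2)) = H (F26 R) := H_comp (Equiv.refl (Om R)) (F26 R)
  have qC : H (fun ω : Om R => (ω.w2, ω.u1, ω.w1 + ω.x2 - ω.u2)) = H (F17 R) := H_comp (sw1 R) (F17 R)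
  have qD : H (fun ω : Om R => ω.u1) = H (F0 R) := H_comp (Equiv.refl (Om R)) (F0 R)
  have h := SM (A := (fun ω : Om R => (ω.w2, ω.u1))) (B := (fun ω : Om R => (ω.u1, ω.w1 + ω.x2 - ω.u2)))
    (C := (fun ω : Om R => (ω.w2, ω.u1, ω.w1 + ω.x2 - ω.u2))) (D := (fun ω : Om R => ω.u1)) ?_ ?_ ?_
  · linarith [qA, qB, qC, qD]
  · intro ω ω' h
    simp only [Prod.mk.injEq] at h
    have c1 := ω.s1; have c2 := ω.s2; have c3 := ω'.s1; have c4 := ω'.s2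
    show ω.u1 = ω'.u1
    omega
  · intro ω ω' h
    simp only [Prod.mk.injEq] at h
    have c1 := ω.s1; have c2 := ω.s2; have c3 := ω'.s1; have c4 := ω'.s2
    show ω.u1 = ω'.u1
    omega
  · intro ω ω' h h'
    simp only [Prod.mk.injEq] at h
    simp only [Prod.mk.injEq] at h'
    have c1 := ω.s1; have c2 := ω.s2; have c3 := ω'.s1; have c4 := ω'.s2
    simp only [Prod.mk.injEq]
    refine ⟨by omega, by omega, by omega⟩

include hs hi in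
lemma ineq14 : H (F13 R) + H (F0 R) ≤ H (F27 R) + H (F28 R) := by
  have qA : H (fun ω : Om R => (ω.u1, ω.u2 - ω.y2)) = H (F27 R) := H_comp (Equiv.refl (Om R)) (F27 R)
  have qB : H (fun ω : Om R => (ω.u1, ω.w2 - ω.y2)) = H (F28 R) := H_comp (Equiv.refl (Om R)) (F28 R)
  have qC : H (fun ω : Om R => (ω.u1 + ω.u2 - ω.x2, ω.u1 + ω.u2 - ω.y2)) = H (F13 R) := H_comp (ix R) (F13 R)
  have qD : H (fun ω : Om R => ω.u1) = H (F0 R) := H_comp (Equiv.refl (Om R)) (F0 R)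
  have h := SM (A := (fun ω : Om R => (ω.u1, ω.u2 - ω.y2))) (B := (fun ω : Om R => (ω.u1, ω.w2 - ω.y2)))
    (C := (fun ω : Om R => (ω.u1 + ω.u2 - ω.x2, ω.u1 + ω.u2 - ω.y2))) (D := (fun ω : Om R => ω.u1)) ?_ ?_ ?_
  · linarith [qA, qB, qC, qD]
  · intro ω ω' h
    simp only [Prod.mk.injEq] at h
    have c1 := ω.s1; have c2 := ω.s2; have c3 := ω'.s1; have c4 := ω'.s2
    show ω.u1 = ω'.u1
    omega
  · intro ω ω' h
    simp only [Prod.mk.injEq] at h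
    have c1 := ω.s1; have c2 := ω.s2; have c3 := ω'.s1; have c4 := ω'.s2
    show ω.u1 = ω'.u1
    omega
  · intro ω ω' h h'
    simp only [Prod.mk.injEq] at h
    simp only [Prod.mk.injEq] at h'
    have c1 := ω.s1; have c2 := ω.s2; have c3 := ω'.s1; have c4 := ω'.s2
    simp only [Prod.mk.injEq]
    refine ⟨by omega, by omega⟩

include hs hi in
lemma ineq15 : H (F30 R) + H (F0 R) ≤ H (F29 R) + H (F22 R) := by
  have qA : H (fun ω : Om R => (ω.u1, ω.u2 + ω.w2)) = H (F29 R) := H_comp (Equiv.refl (Om R)) (F29 R)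
  have qB : H (fun ω : Om R => (ω.u1, ω.w1 + ω.x2)) = H (F22 R) := H_comp (Equiv.refl (Om R)) (F22 R)
  have qC : H (fun ω : Om R => (ω.u1, ω.u2 + ω.w2, ω.w1 + ω.x2)) = H (F30 R) := H_comp (Equiv.refl (Om R)) (F30 R)
  have qD : H (fun ω : Om R => ω.u1) = H (F0 R) := H_comp (Equiv.refl (Om R)) (F0 R)
  have h := SM (A := (fun ω : Om R => (ω.u1, ω.u2 + ω.w2))) (B := (fun ω : Om R => (ω.u1, ω.w1 + ω.x2)))
    (C := (fun ω : Om R => (ω.u1, ω.u2 + ω.w2, ω.w1 + ω.x2))) (D := (fun ω : Om R => ω.u1)) ?_ ?_ ?_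
  · linarith [qA, qB, qC, qD]
  · intro ω ω' h
    simp only [Prod.mk.injEq] at h
    have c1 := ω.s1; have c2 := ω.s2; have c3 := ω'.s1; have c4 := ω'.s2
    show ω.u1 = ω'.u1
    omega
  · intro ω ω' h
    simp only [Prod.mk.injEq] at h
    have c1 := ω.s1; have c2 := ω.s2; have c3 := ω'.s1; have c4 := ω'.s2
    show ω.u1 = ω'.u1
    omega
  · intro ω ω' h h'
    simp only [Prod.mk.injEq] at h
    simp only [Prod.mk.injEq] at h'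
    have c1 := ω.s1; have c2 := ω.s2; have c3 := ω'.s1; have c4 := ω'.s2
    simp only [Prod.mk.injEq]
    refine ⟨by omega, by omega, by omega⟩

include hs hi in
lemma ineq16 : H (F32 R) + H (F1 R) ≤ H (F21 R) + H (F31 R) := by
  have qA : H (fun ω : Om R => (ω.u1, ω.u2)) = H (F21 R) := H_comp (Equiv.refl (Om R)) (F21 R)
  have qB : H (fun ω : Om R => (ω.u1 + ω.u2, ω.x1 + ω.x2)) = H (F31 R) := H_comp (Equiv.refl (Om R)) (F31 R)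
  have qC : H (fun ω : Om R => (ω.u1, ω.u2, ω.x1 + ω.x2)) = H (F32 R) := H_comp (Equiv.refl (Om R)) (F32 R)
  have qD : H (fun ω : Om R => ω.u1 + ω.u2) = H (F1 R) := H_comp ((sw1 R).trans ((sw2 R).trans (ty hs))) (F1 R)
  have h := SM (A := (fun ω : Om R => (ω.u1, ω.u2))) (B := (fun ω : Om R => (ω.u1 + ω.u2, ω.x1 + ω.x2)))
    (C := (fun ω : Om R => (ω.u1, ω.u2, ω.x1 + ω.x2))) (D := (fun ω : Om R => ω.u1 + ω.u2)) ?_ ?_ ?_
  · linarith [qA, qB, qC, qD]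
  · intro ω ω' h
    simp only [Prod.mk.injEq] at h
    have c1 := ω.s1; have c2 := ω.s2; have c3 := ω'.s1; have c4 := ω'.s2
    show ω.u1 + ω.u2 = ω'.u1 + ω'.u2
    omega
  · intro ω ω' h
    simp only [Prod.mk.injEq] at h
    have c1 := ω.s1; have c2 := ω.s2; have c3 := ω'.s1; have c4 := ω'.s2
    show ω.u1 + ω.u2 = ω'.u1 + ω'.u2
    omega
  · intro ω ω' h h'
    simp only [Prod.mk.injEq] at h
    simp only [Prod.mk.injEq] at h'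
    have c1 := ω.s1; have c2 := ω.s2; have c3 := ω'.s1; have c4 := ω'.s2
    simp only [Prod.mk.injEq]
    refine ⟨by omega, by omega, by omega⟩

include hs hi in
lemma ineq17 : H (F34 R) + H (F1 R) ≤ H (F21 R) + H (F33 R) := by
  have qA : H (fun ω : Om R => (ω.u1, ω.u2)) = H (F21 R) := H_comp (Equiv.refl (Om R)) (F21 R)
  have qB : H (fun ω : Om R => (ω.u1 + ω.u2, ω.y1 + ω.y2)) = H (F33 R) := H_comp (Equiv.refl (Om R)) (F33 R)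
  have qC : H (fun ω : Om R => (ω.u1, ω.u2, ω.y1 + ω.y2)) = H (F34 R) := H_comp (Equiv.refl (Om R)) (F34 R)
  have qD : H (fun ω : Om R => ω.u1 + ω.u2) = H (F1 R) := H_comp ((sw1 R).trans ((sw2 R).trans (ty hs))) (F1 R)
  have h := SM (A := (fun ω : Om R => (ω.u1, ω.u2))) (B := (fun ω : Om R => (ω.u1 + ω.u2, ω.y1 + ω.y2)))
    (C := (fun ω : Om R => (ω.u1, ω.u2, ω.y1 + ω.y2))) (D := (fun ω : Om R => ω.u1 + ω.u2)) ?_ ?_ ?_
  · linarith [qA, qB, qC, qD]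
  · intro ω ω' h
    simp only [Prod.mk.injEq] at h
    have c1 := ω.s1; have c2 := ω.s2; have c3 := ω'.s1; have c4 := ω'.s2
    show ω.u1 + ω.u2 = ω'.u1 + ω'.u2
    omega
  · intro ω ω' h
    simp only [Prod.mk.injEq] at h
    have c1 := ω.s1; have c2 := ω.s2; have c3 := ω'.s1; have c4 := ω'.s2
    show ω.u1 + ω.u2 = ω'.u1 + ω'.u2
    omega
  · intro ω ω' h h'
    simp only [Prod.mk.injEq] at h
    simp only [Prod.mk.injEq] at h'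
    have c1 := ω.s1; have c2 := ω.s2; have c3 := ω'.s1; have c4 := ω'.s2
    simp only [Prod.mk.injEq]
    refine ⟨by omega, by omega, by omega⟩

include hs hi in
lemma ineq18 : H (F36 R) + H (F8 R) ≤ H (F14 R) + H (F35 R) := by
  have qA : H (fun ω : Om R => (ω.x2, ω.u1)) = H (F14 R) := H_comp ((sw1 R).trans (sw2 R)) (F14 R)
  have qB : H (fun ω : Om R => (ω.u1 + ω.x2, ω.u2 + ω.u1 - ω.x1)) = H (F35 R) := H_comp (Equiv.refl (Om R)) (F35 R)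
  have qC : H (fun ω : Om R => (ω.u1, ω.x2, ω.u2 + ω.u1 - ω.x1)) = H (F36 R) := H_comp (Equiv.refl (Om R)) (F36 R)
  have qD : H (fun ω : Om R => ω.u1 + ω.x2) = H (F8 R) := H_comp (sw1 R) (F8 R)
  have h := SM (A := (fun ω : Om R => (ω.x2, ω.u1))) (B := (fun ω : Om R => (ω.u1 + ω.x2, ω.u2 + ω.u1 - ω.x1)))
    (C := (fun ω : Om R => (ω.u1, ω.x2, ω.u2 + ω.u1 - ω.x1))) (D := (fun ω : Om R => ω.u1 + ω.x2)) ?_ ?_ ?_
  · linarith [qA, qB, qC, qD]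
  · intro ω ω' h
    simp only [Prod.mk.injEq] at h
    have c1 := ω.s1; have c2 := ω.s2; have c3 := ω'.s1; have c4 := ω'.s2
    show ω.u1 + ω.x2 = ω'.u1 + ω'.x2
    omega
  · intro ω ω' h
    simp only [Prod.mk.injEq] at h
    have c1 := ω.s1; have c2 := ω.s2; have c3 := ω'.s1; have c4 := ω'.s2
    show ω.u1 + ω.x2 = ω'.u1 + ω'.x2
    omega
  · intro ω ω' h h'
    simp only [Prod.mk.injEq] at h
    simp only [Prod.mk.injEq] at h'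
    have c1 := ω.s1; have c2 := ω.s2; have c3 := ω'.s1; have c4 := ω'.s2
    simp only [Prod.mk.injEq]
    refine ⟨by omega, by omega, by omega⟩

include hs hi in
lemma ineq19 : H (F37 R) + H (F3 R) ≤ H (F9 R) + H (F7 R) := by
  have qA : H (fun ω : Om R => (ω.w2, ω.x2 + ω.u1)) = H (F9 R) := H_comp ((sw1 R).trans ((ix R).trans (ty hs))) (F9 R)
  have qB : H (fun ω : Om R => (ω.y2, ω.u2 + ω.u1)) = H (F7 R) := H_comp ((sw2 R).trans (ix R)) (F7 R)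
  have qC : H (fun ω : Om R => (ω.w2, ω.y2, ω.u1 + ω.u2)) = H (F37 R) := H_comp (Equiv.refl (Om R)) (F37 R)
  have qD : H (fun ω : Om R => ω.u1 + ω.x2 - ω.w2) = H (F3 R) := H_comp ((sw1 R).trans ((sw2 R).trans ((ix R).trans (ty hs)))) (F3 R)
  have h := SM (A := (fun ω : Om R => (ω.w2, ω.x2 + ω.u1))) (B := (fun ω : Om R => (ω.y2, ω.u2 + ω.u1)))
    (C := (fun ω : Om R => (ω.w2, ω.y2, ω.u1 + ω.u2))) (D := (fun ω : Om R => ω.u1 + ω.x2 - ω.w2)) ?_ ?_ ?_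
  · linarith [qA, qB, qC, qD]
  · intro ω ω' h
    simp only [Prod.mk.injEq] at h
    have c1 := ω.s1; have c2 := ω.s2; have c3 := ω'.s1; have c4 := ω'.s2
    show ω.u1 + ω.x2 - ω.w2 = ω'.u1 + ω'.x2 - ω'.w2
    omega
  · intro ω ω' h
    simp only [Prod.mk.injEq] at h
    have c1 := ω.s1; have c2 := ω.s2; have c3 := ω'.s1; have c4 := ω'.s2
    show ω.u1 + ω.x2 - ω.w2 = ω'.u1 + ω'.x2 - ω'.w2
    omega
  · intro ω ω' h h'
    simp only [Prod.mk.injEq] at h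
    simp only [Prod.mk.injEq] at h'
    have c1 := ω.s1; have c2 := ω.s2; have c3 := ω'.s1; have c4 := ω'.s2
    simp only [Prod.mk.injEq]
    refine ⟨by omega, by omega, by omega⟩

include hs hi in
lemma ineq20 : H (F39 R) + H (F3 R) ≤ H (F9 R) + H (F38 R) := by
  have qA : H (fun ω : Om R => (ω.w2, ω.x2 + ω.u1)) = H (F9 R) := H_comp ((sw1 R).trans ((ix R).trans (ty hs))) (F9 R)
  have qB : H (fun ω : Om R => (ω.u1 + ω.u2 - ω.y2, ω.u2 + ω.u1 - ω.y1)) = H (F38 R) := H_comp (Equiv.refl (Om R)) (F38 R)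
  have qC : H (fun ω : Om R => (ω.w2, ω.u1 + ω.x2, ω.u2 + ω.u1 - ω.y1)) = H (F39 R) := H_comp (Equiv.refl (Om R)) (F39 R)
  have qD : H (fun ω : Om R => ω.u1 + ω.x2 - ω.w2) = H (F3 R) := H_comp ((sw1 R).trans ((sw2 R).trans ((ix R).trans (ty hs)))) (F3 R)
  have h := SM (A := (fun ω : Om R => (ω.w2, ω.x2 + ω.u1))) (B := (fun ω : Om R => (ω.u1 + ω.u2 - ω.y2, ω.u2 + ω.u1 - ω.y1)))
    (C := (fun ω : Om R => (ω.w2, ω.u1 + ω.x2, ω.u2 + ω.u1 - ω.y1))) (D := (fun ω : Om R => ω.u1 + ω.x2 - ω.w2)) ?_ ?_ ?_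
  · linarith [qA, qB, qC, qD]
  · intro ω ω' h
    simp only [Prod.mk.injEq] at h
    have c1 := ω.s1; have c2 := ω.s2; have c3 := ω'.s1; have c4 := ω'.s2
    show ω.u1 + ω.x2 - ω.w2 = ω'.u1 + ω'.x2 - ω'.w2
    omega
  · intro ω ω' h
    simp only [Prod.mk.injEq] at h
    have c1 := ω.s1; have c2 := ω.s2; have c3 := ω'.s1; have c4 := ω'.s2
    show ω.u1 + ω.x2 - ω.w2 = ω'.u1 + ω'.x2 - ω'.w2
    omega
  · intro ω ω' h h'
    simp only [Prod.mk.injEq] at h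
    simp only [Prod.mk.injEq] at h'
    have c1 := ω.s1; have c2 := ω.s2; have c3 := ω'.s1; have c4 := ω'.s2
    simp only [Prod.mk.injEq]
    refine ⟨by omega, by omega, by omega⟩

include hs hi in
lemma ineq21 : H (F40 R) + H (F3 R) ≤ H (F9 R) + H (F16 R) := by
  have qA : H (fun ω : Om R => (ω.w2, ω.x2 + ω.u1)) = H (F9 R) := H_comp ((sw1 R).trans ((ix R).trans (ty hs))) (F9 R)
  have qB : H (fun ω : Om R => (ω.u2 + ω.u1 - ω.x1, ω.u1 + ω.u2 - ω.y2)) = H (F16 R) := H_comp (ix R) (F16 R)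
  have qC : H (fun ω : Om R => (ω.w2, ω.u1 + ω.u2, ω.x1 + ω.x2 - ω.u2)) = H (F40 R) := H_comp (Equiv.refl (Om R)) (F40 R)
  have qD : H (fun ω : Om R => ω.u1 + ω.x2 - ω.w2) = H (F3 R) := H_comp ((sw1 R).trans ((sw2 R).trans ((ix R).trans (ty hs)))) (F3 R)
  have h := SM (A := (fun ω : Om R => (ω.w2, ω.x2 + ω.u1))) (B := (fun ω : Om R => (ω.u2 + ω.u1 - ω.x1, ω.u1 + ω.u2 - ω.y2)))
    (C := (fun ω : Om R => (ω.w2, ω.u1 + ω.u2, ω.x1 + ω.x2 - ω.u2))) (D := (fun ω : Om R => ω.u1 + ω.x2 - ω.w2)) ?_ ?_ ?_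
  · linarith [qA, qB, qC, qD]
  · intro ω ω' h
    simp only [Prod.mk.injEq] at h
    have c1 := ω.s1; have c2 := ω.s2; have c3 := ω'.s1; have c4 := ω'.s2
    show ω.u1 + ω.x2 - ω.w2 = ω'.u1 + ω'.x2 - ω'.w2
    omega
  · intro ω ω' h
    simp only [Prod.mk.injEq] at h
    have c1 := ω.s1; have c2 := ω.s2; have c3 := ω'.s1; have c4 := ω'.s2
    show ω.u1 + ω.x2 - ω.w2 = ω'.u1 + ω'.x2 - ω'.w2
    omega
  · intro ω ω' h h'
    simp only [Prod.mk.injEq] at h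
    simp only [Prod.mk.injEq] at h'
    have c1 := ω.s1; have c2 := ω.s2; have c3 := ω'.s1; have c4 := ω'.s2
    obtain ⟨e0, e0'⟩ := rule hi ω.y2x1 ω'.y2x1 (by omega)
    simp only [Prod.mk.injEq]
    refine ⟨by omega, by omega, by omega⟩

include hs hi in
lemma ineq22 : H (F43 R) + H (F10 R) ≤ H (F41 R) + H (F42 R) := by
  have qA : H (fun ω : Om R => (ω.u1 + ω.w1, ω.u2 - ω.y2)) = H (F41 R) := H_comp (Equiv.refl (Om R)) (F41 R)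
  have qB : H (fun ω : Om R => (ω.u1 + ω.w1, ω.w2 - ω.y2)) = H (F42 R) := H_comp (Equiv.refl (Om R)) (F42 R)
  have qC : H (fun ω : Om R => (ω.u1 + ω.w1, ω.u2 - ω.y2, ω.w2 - ω.y2)) = H (F43 R) := H_comp (Equiv.refl (Om R)) (F43 R)
  have qD : H (fun ω : Om R => ω.u1 + ω.w1) = H (F10 R) := H_comp (Equiv.refl (Om R)) (F10 R)
  have h := SM (A := (fun ω : Om R => (ω.u1 + ω.w1, ω.u2 - ω.y2))) (B := (fun ω : Om R => (ω.u1 + ω.w1, ω.w2 - ω.y2)))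
    (C := (fun ω : Om R => (ω.u1 + ω.w1, ω.u2 - ω.y2, ω.w2 - ω.y2))) (D := (fun ω : Om R => ω.u1 + ω.w1)) ?_ ?_ ?_
  · linarith [qA, qB, qC, qD]
  · intro ω ω' h
    simp only [Prod.mk.injEq] at h
    have c1 := ω.s1; have c2 := ω.s2; have c3 := ω'.s1; have c4 := ω'.s2
    show ω.u1 + ω.w1 = ω'.u1 + ω'.w1
    omega
  · intro ω ω' h
    simp only [Prod.mk.injEq] at h
    have c1 := ω.s1; have c2 := ω.s2; have c3 := ω'.s1; have c4 := ω'.s2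
    show ω.u1 + ω.w1 = ω'.u1 + ω'.w1
    omega
  · intro ω ω' h h'
    simp only [Prod.mk.injEq] at h
    simp only [Prod.mk.injEq] at h'
    have c1 := ω.s1; have c2 := ω.s2; have c3 := ω'.s1; have c4 := ω'.s2
    simp only [Prod.mk.injEq]
    refine ⟨by omega, by omega, by omega⟩

include hs hi in
lemma ineq23 : H (F44 R) + H (F5 R) ≤ H (F2 R) + H (F2 R) := by
  have qA : H (fun ω : Om R => (ω.u2, ω.x2 + ω.x1)) = H (F2 R) := H_comp (ix R) (F2 R)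
  have qB : H (fun ω : Om R => (ω.y2, ω.w2 + ω.x1)) = H (F2 R) := H_comp ((sw2 R).trans (ix R)) (F2 R)
  have qC : H (fun ω : Om R => (ω.u2, ω.y2, ω.x1 + ω.w2)) = H (F44 R) := H_comp (Equiv.refl (Om R)) (F44 R)
  have qD : H (fun ω : Om R => ω.x1 + ω.w2 - ω.y2) = H (F5 R) := H_comp ((sw1 R).trans ((ix R).trans (ty hs))) (F5 R)
  have h := SM (A := (fun ω : Om R => (ω.u2, ω.x2 + ω.x1))) (B := (fun ω : Om R => (ω.y2, ω.w2 + ω.x1)))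
    (C := (fun ω : Om R => (ω.u2, ω.y2, ω.x1 + ω.w2))) (D := (fun ω : Om R => ω.x1 + ω.w2 - ω.y2)) ?_ ?_ ?_
  · linarith [qA, qB, qC, qD]
  · intro ω ω' h
    simp only [Prod.mk.injEq] at h
    have c1 := ω.s1; have c2 := ω.s2; have c3 := ω'.s1; have c4 := ω'.s2
    show ω.x1 + ω.w2 - ω.y2 = ω'.x1 + ω'.w2 - ω'.y2
    omega
  · intro ω ω' h
    simp only [Prod.mk.injEq] at h
    have c1 := ω.s1; have c2 := ω.s2; have c3 := ω'.s1; have c4 := ω'.s2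
    show ω.x1 + ω.w2 - ω.y2 = ω'.x1 + ω'.w2 - ω'.y2
    omega
  · intro ω ω' h h'
    simp only [Prod.mk.injEq] at h
    simp only [Prod.mk.injEq] at h'
    have c1 := ω.s1; have c2 := ω.s2; have c3 := ω'.s1; have c4 := ω'.s2
    simp only [Prod.mk.injEq]
    refine ⟨by omega, by omega, by omega⟩

include hs hi in
lemma ineq24 : H (F46 R) + H (F18 R) ≤ H (F27 R) + H (F45 R) := by
  have qA : H (fun ω : Om R => (ω.u2, ω.u1 - ω.y1)) = H (F27 R) := H_comp (ix R) (F27 R)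
  have qB : H (fun ω : Om R => (ω.w1 + ω.x2, ω.x1 + ω.x2)) = H (F45 R) := H_comp (Equiv.refl (Om R)) (F45 R)
  have qC : H (fun ω : Om R => (ω.u2, ω.w1 + ω.x2, ω.x1 + ω.x2)) = H (F46 R) := H_comp (Equiv.refl (Om R)) (F46 R)
  have qD : H (fun ω : Om R => ω.u1 - ω.y1) = H (F18 R) := H_comp (Equiv.refl (Om R)) (F18 R)
  have h := SM (A := (fun ω : Om R => (ω.u2, ω.u1 - ω.y1))) (B := (fun ω : Om R => (ω.w1 + ω.x2, ω.x1 + ω.x2)))
    (C := (fun ω : Om R => (ω.u2, ω.w1 + ω.x2, ω.x1 + ω.x2))) (D := (fun ω : Om R => ω.u1 - ω.y1)) ?_ ?_ ?_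
  · linarith [qA, qB, qC, qD]
  · intro ω ω' h
    simp only [Prod.mk.injEq] at h
    have c1 := ω.s1; have c2 := ω.s2; have c3 := ω'.s1; have c4 := ω'.s2
    show ω.u1 - ω.y1 = ω'.u1 - ω'.y1
    omega
  · intro ω ω' h
    simp only [Prod.mk.injEq] at h
    have c1 := ω.s1; have c2 := ω.s2; have c3 := ω'.s1; have c4 := ω'.s2
    show ω.u1 - ω.y1 = ω'.u1 - ω'.y1
    omega
  · intro ω ω' h h'
    simp only [Prod.mk.injEq] at h
    simp only [Prod.mk.injEq] at h'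
    have c1 := ω.s1; have c2 := ω.s2; have c3 := ω'.s1; have c4 := ω'.s2
    simp only [Prod.mk.injEq]
    refine ⟨by omega, by omega, by omega⟩

include hs hi in
lemma ineq25 : H (F47 R) + H (F18 R) ≤ H (F45 R) + H (F45 R) := by
  have qA : H (fun ω : Om R => (ω.u1 + ω.u2, ω.y1 + ω.u2)) = H (F45 R) := H_comp ((sw2 R).trans (ty hs)) (F45 R)
  have qB : H (fun ω : Om R => (ω.w1 + ω.x2, ω.x1 + ω.x2)) = H (F45 R) := H_comp (Equiv.refl (Om R)) (F45 R)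
  have qC : H (fun ω : Om R => (ω.u1 + ω.u2, ω.w1 + ω.x2, ω.x1 + ω.x2)) = H (F47 R) := H_comp (Equiv.refl (Om R)) (F47 R)
  have qD : H (fun ω : Om R => ω.u1 - ω.y1) = H (F18 R) := H_comp (Equiv.refl (Om R)) (F18 R)
  have h := SM (A := (fun ω : Om R => (ω.u1 + ω.u2, ω.y1 + ω.u2))) (B := (fun ω : Om R => (ω.w1 + ω.x2, ω.x1 + ω.x2)))
    (C := (fun ω : Om R => (ω.u1 + ω.u2, ω.w1 + ω.x2, ω.x1 + ω.x2))) (D := (fun ω : Om R => ω.u1 - ω.y1)) ?_ ?_ ?_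
  · linarith [qA, qB, qC, qD]
  · intro ω ω' h
    simp only [Prod.mk.injEq] at h
    have c1 := ω.s1; have c2 := ω.s2; have c3 := ω'.s1; have c4 := ω'.s2
    show ω.u1 - ω.y1 = ω'.u1 - ω'.y1
    omega
  · intro ω ω' h
    simp only [Prod.mk.injEq] at h
    have c1 := ω.s1; have c2 := ω.s2; have c3 := ω'.s1; have c4 := ω'.s2
    show ω.u1 - ω.y1 = ω'.u1 - ω'.y1
    omega
  · intro ω ω' h h'
    simp only [Prod.mk.injEq] at h
    simp only [Prod.mk.injEq] at h'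
    have c1 := ω.s1; have c2 := ω.s2; have c3 := ω'.s1; have c4 := ω'.s2
    simp only [Prod.mk.injEq]
    refine ⟨by omega, by omega, by omega⟩

include hs hi in
lemma ineq26 : H (F20 R) + H (F19 R) ≤ H (F48 R) + H (F48 R) := by
  have qA : H (fun ω : Om R => (ω.u1, ω.x1)) = H (F48 R) := H_comp (Equiv.refl (Om R)) (F48 R)
  have qB : H (fun ω : Om R => (ω.y1, ω.w1)) = H (F48 R) := H_comp (sw1 R) (F48 R)
  have qC : H (fun ω : Om R => (ω.u1 - ω.y1, ω.w1 - ω.y1)) = H (F20 R) := H_comp (Equiv.refl (Om R)) (F20 R)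
  have qD : H (fun ω : Om R => ω.w1 - ω.y1) = H (F19 R) := H_comp (Equiv.refl (Om R)) (F19 R)
  have h := SM (A := (fun ω : Om R => (ω.u1, ω.x1))) (B := (fun ω : Om R => (ω.y1, ω.w1)))
    (C := (fun ω : Om R => (ω.u1 - ω.y1, ω.w1 - ω.y1))) (D := (fun ω : Om R => ω.w1 - ω.y1)) ?_ ?_ ?_
  · linarith [qA, qB, qC, qD]
  · intro ω ω' h
    simp only [Prod.mk.injEq] at h
    have c1 := ω.s1; have c2 := ω.s2; have c3 := ω'.s1; have c4 := ω'.s2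
    show ω.w1 - ω.y1 = ω'.w1 - ω'.y1
    omega
  · intro ω ω' h
    simp only [Prod.mk.injEq] at h
    have c1 := ω.s1; have c2 := ω.s2; have c3 := ω'.s1; have c4 := ω'.s2
    show ω.w1 - ω.y1 = ω'.w1 - ω'.y1
    omega
  · intro ω ω' h h'
    simp only [Prod.mk.injEq] at h
    simp only [Prod.mk.injEq] at h'
    have c1 := ω.s1; have c2 := ω.s2; have c3 := ω'.s1; have c4 := ω'.s2
    simp only [Prod.mk.injEq]
    refine ⟨by omega, by omega⟩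

include hs hi in
lemma ineq27 : H (F50 R) + H (F19 R) ≤ H (F49 R) + H (F49 R) := by
  have qA : H (fun ω : Om R => (ω.u1 + ω.u2, ω.x1 + ω.u2)) = H (F49 R) := H_comp (Equiv.refl (Om R)) (F49 R)
  have qB : H (fun ω : Om R => (ω.y1 + ω.y2, ω.w1 + ω.y2)) = H (F49 R) := H_comp ((sw1 R).trans (sw2 R)) (F49 R)
  have qC : H (fun ω : Om R => (ω.u1 + ω.u2, ω.w1 + ω.y2, ω.x1 + ω.u2)) = H (F50 R) := H_comp (Equiv.refl (Om R)) (F50 R)
  have qD : H (fun ω : Om R => ω.w1 - ω.y1) = H (F19 R) := H_comp (Equiv.refl (Om R)) (F19 R)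
  have h := SM (A := (fun ω : Om R => (ω.u1 + ω.u2, ω.x1 + ω.u2))) (B := (fun ω : Om R => (ω.y1 + ω.y2, ω.w1 + ω.y2)))
    (C := (fun ω : Om R => (ω.u1 + ω.u2, ω.w1 + ω.y2, ω.x1 + ω.u2))) (D := (fun ω : Om R => ω.w1 - ω.y1)) ?_ ?_ ?_
  · linarith [qA, qB, qC, qD]
  · intro ω ω' h
    simp only [Prod.mk.injEq] at h
    have c1 := ω.s1; have c2 := ω.s2; have c3 := ω'.s1; have c4 := ω'.s2
    show ω.w1 - ω.y1 = ω'.w1 - ω'.y1
    omega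
  · intro ω ω' h
    simp only [Prod.mk.injEq] at h
    have c1 := ω.s1; have c2 := ω.s2; have c3 := ω'.s1; have c4 := ω'.s2
    show ω.w1 - ω.y1 = ω'.w1 - ω'.y1
    omega
  · intro ω ω' h h'
    simp only [Prod.mk.injEq] at h
    simp only [Prod.mk.injEq] at h'
    have c1 := ω.s1; have c2 := ω.s2; have c3 := ω'.s1; have c4 := ω'.s2
    simp only [Prod.mk.injEq]
    refine ⟨by omega, by omega, by omega⟩

include hs hi in
lemma ineq28 : H (F51 R) + H (F12 R) ≤ H (F20 R) + H (F30 R) := by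
  have qA : H (fun ω : Om R => (ω.u1 - ω.y1, ω.w1 - ω.y1)) = H (F20 R) := H_comp (Equiv.refl (Om R)) (F20 R)
  have qB : H (fun ω : Om R => (ω.u1, ω.y2 + ω.x2, ω.w1 + ω.w2)) = H (F30 R) := H_comp (sw2 R) (F30 R)
  have qC : H (fun ω : Om R => (ω.u1, ω.u2 + ω.u1 - ω.x1, ω.w2 + ω.u1 - ω.y1)) = H (F51 R) := H_comp (Equiv.refl (Om R)) (F51 R)
  have qD : H (fun ω : Om R => (ω.w1, ω.u1)) = H (F12 R) := H_comp (sw1 R) (F12 R)
  have h := SM (A := (fun ω : Om R => (ω.u1 - ω.y1, ω.w1 - ω.y1))) (B := (fun ω : Om R => (ω.u1, ω.y2 + ω.x2, ω.w1 + ω.w2)))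
    (C := (fun ω : Om R => (ω.u1, ω.u2 + ω.u1 - ω.x1, ω.w2 + ω.u1 - ω.y1))) (D := (fun ω : Om R => (ω.w1, ω.u1))) ?_ ?_ ?_
  · linarith [qA, qB, qC, qD]
  · intro ω ω' h
    simp only [Prod.mk.injEq] at h
    have c1 := ω.s1; have c2 := ω.s2; have c3 := ω'.s1; have c4 := ω'.s2
    obtain ⟨e0, e0'⟩ := rule hi ω.u1w1 ω'.u1w1 (by omega)
    simp only [Prod.mk.injEq]
    refine ⟨by omega, by omega⟩
  · intro ω ω' h
    simp only [Prod.mk.injEq] at h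
    have c1 := ω.s1; have c2 := ω.s2; have c3 := ω'.s1; have c4 := ω'.s2
    obtain ⟨e0, e0'⟩ := rule hi ω.u2w1 ω'.u2w1 (by omega)
    simp only [Prod.mk.injEq]
    refine ⟨by omega, by omega⟩
  · intro ω ω' h h'
    simp only [Prod.mk.injEq] at h
    simp only [Prod.mk.injEq] at h'
    have c1 := ω.s1; have c2 := ω.s2; have c3 := ω'.s1; have c4 := ω'.s2
    simp only [Prod.mk.injEq]
    refine ⟨by omega, by omega, by omega⟩

include hs hi in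
lemma ineq29 : H (F51 R) + H (F12 R) ≤ H (F52 R) + H (F53 R) := by
  have qA : H (fun ω : Om R => (ω.u1 + ω.u2 - ω.y2, ω.w1 + ω.u2 - ω.y2)) = H (F52 R) := H_comp (Equiv.refl (Om R)) (F52 R)
  have qB : H (fun ω : Om R => (ω.u1 + ω.u2 - ω.x2, ω.w1 + ω.u2 - ω.x2)) = H (F53 R) := H_comp (Equiv.refl (Om R)) (F53 R)
  have qC : H (fun ω : Om R => (ω.u2, ω.u1 + ω.u2 - ω.x2, ω.w1 + ω.u2 - ω.y2)) = H (F51 R) := H_comp (ix R) (F51 R)
  have qD : H (fun ω : Om R => (ω.w1, ω.u1)) = H (F12 R) := H_comp (sw1 R) (F12 R)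
  have h := SM (A := (fun ω : Om R => (ω.u1 + ω.u2 - ω.y2, ω.w1 + ω.u2 - ω.y2))) (B := (fun ω : Om R => (ω.u1 + ω.u2 - ω.x2, ω.w1 + ω.u2 - ω.x2)))
    (C := (fun ω : Om R => (ω.u2, ω.u1 + ω.u2 - ω.x2, ω.w1 + ω.u2 - ω.y2))) (D := (fun ω : Om R => (ω.w1, ω.u1))) ?_ ?_ ?_
  · linarith [qA, qB, qC, qD]
  · intro ω ω' h
    simp only [Prod.mk.injEq] at h
    have c1 := ω.s1; have c2 := ω.s2; have c3 := ω'.s1; have c4 := ω'.s2
    obtain ⟨e0, e0'⟩ := rule hi ω.u1w1 ω'.u1w1 (by omega)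
    simp only [Prod.mk.injEq]
    refine ⟨by omega, by omega⟩
  · intro ω ω' h
    simp only [Prod.mk.injEq] at h
    have c1 := ω.s1; have c2 := ω.s2; have c3 := ω'.s1; have c4 := ω'.s2
    obtain ⟨e0, e0'⟩ := rule hi ω.u1w1 ω'.u1w1 (by omega)
    simp only [Prod.mk.injEq]
    refine ⟨by omega, by omega⟩
  · intro ω ω' h h'
    simp only [Prod.mk.injEq] at h
    simp only [Prod.mk.injEq] at h'
    have c1 := ω.s1; have c2 := ω.s2; have c3 := ω'.s1; have c4 := ω'.s2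
    obtain ⟨e0, e0'⟩ := rule hi ω.u1w1 ω'.u1w1 (by omega)
    obtain ⟨e1, e1'⟩ := rule hi ω.u2w2 ω'.u2w2 (by omega)
    simp only [Prod.mk.injEq]
    refine ⟨by omega, by omega, by omega⟩

include hs hi in
lemma ineq30 : H (F54 R) + H (F14 R) ≤ H (F4 R) + H (F6 R) := by
  have qA : H (fun ω : Om R => (ω.u1, ω.w2 + ω.u1 - ω.y1)) = H (F4 R) := H_comp (sw2 R) (F4 R)
  have qB : H (fun ω : Om R => (ω.y2, ω.u1 + ω.y2 - ω.w2)) = H (F6 R) := H_comp ((sw2 R).trans (ix R)) (F6 R)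
  have qC : H (fun ω : Om R => (ω.u1, ω.y2, ω.w2 + ω.u1 - ω.y1)) = H (F54 R) := H_comp (Equiv.refl (Om R)) (F54 R)
  have qD : H (fun ω : Om R => (ω.w2, ω.u1)) = H (F14 R) := H_comp (sw1 R) (F14 R)
  have h := SM (A := (fun ω : Om R => (ω.u1, ω.w2 + ω.u1 - ω.y1))) (B := (fun ω : Om R => (ω.y2, ω.u1 + ω.y2 - ω.w2)))
    (C := (fun ω : Om R => (ω.u1, ω.y2, ω.w2 + ω.u1 - ω.y1))) (D := (fun ω : Om R => (ω.w2, ω.u1))) ?_ ?_ ?_
  · linarith [qA, qB, qC, qD]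
  · intro ω ω' h
    simp only [Prod.mk.injEq] at h
    have c1 := ω.s1; have c2 := ω.s2; have c3 := ω'.s1; have c4 := ω'.s2
    obtain ⟨e0, e0'⟩ := rule hi ω.y1w2 ω'.y1w2 (by omega)
    simp only [Prod.mk.injEq]
    refine ⟨by omega, by omega⟩
  · intro ω ω' h
    simp only [Prod.mk.injEq] at h
    have c1 := ω.s1; have c2 := ω.s2; have c3 := ω'.s1; have c4 := ω'.s2
    obtain ⟨e0, e0'⟩ := rule hi ω.u1w2 ω'.u1w2 (by omega)
    simp only [Prod.mk.injEq]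
    refine ⟨by omega, by omega⟩
  · intro ω ω' h h'
    simp only [Prod.mk.injEq] at h
    simp only [Prod.mk.injEq] at h'
    have c1 := ω.s1; have c2 := ω.s2; have c3 := ω'.s1; have c4 := ω'.s2
    simp only [Prod.mk.injEq]
    refine ⟨by omega, by omega, by omega⟩

include hs hi in
lemma ineq31 : H (F55 R) + H (F14 R) ≤ H (F4 R) + H (F13 R) := by
  have qA : H (fun ω : Om R => (ω.u1, ω.w2 + ω.u1 - ω.y1)) = H (F4 R) := H_comp (sw2 R) (F4 R)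
  have qB : H (fun ω : Om R => (ω.u1 + ω.u2 - ω.x2, ω.u1 + ω.u2 - ω.y2)) = H (F13 R) := H_comp (ix R) (F13 R)
  have qC : H (fun ω : Om R => (ω.u1, ω.y1 + ω.u2 - ω.x2, ω.y1 + ω.u2 - ω.y2)) = H (F55 R) := H_comp (Equiv.refl (Om R)) (F55 R)
  have qD : H (fun ω : Om R => (ω.w2, ω.u1)) = H (F14 R) := H_comp (sw1 R) (F14 R)
  have h := SM (A := (fun ω : Om R => (ω.u1, ω.w2 + ω.u1 - ω.y1))) (B := (fun ω : Om R => (ω.u1 + ω.u2 - ω.x2, ω.u1 + ω.u2 - ω.y2)))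
    (C := (fun ω : Om R => (ω.u1, ω.y1 + ω.u2 - ω.x2, ω.y1 + ω.u2 - ω.y2))) (D := (fun ω : Om R => (ω.w2, ω.u1))) ?_ ?_ ?_
  · linarith [qA, qB, qC, qD]
  · intro ω ω' h
    simp only [Prod.mk.injEq] at h
    have c1 := ω.s1; have c2 := ω.s2; have c3 := ω'.s1; have c4 := ω'.s2
    obtain ⟨e0, e0'⟩ := rule hi ω.y1w2 ω'.y1w2 (by omega)
    simp only [Prod.mk.injEq]
    refine ⟨by omega, by omega⟩
  · intro ω ω' h
    simp only [Prod.mk.injEq] at h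
    have c1 := ω.s1; have c2 := ω.s2; have c3 := ω'.s1; have c4 := ω'.s2
    obtain ⟨e0, e0'⟩ := rule hi ω.y2x2 ω'.y2x2 (by omega)
    obtain ⟨e1, e1'⟩ := rule hi ω.u1w2 ω'.u1w2 (by omega)
    simp only [Prod.mk.injEq]
    refine ⟨by omega, by omega⟩
  · intro ω ω' h h'
    simp only [Prod.mk.injEq] at h
    simp only [Prod.mk.injEq] at h'
    have c1 := ω.s1; have c2 := ω.s2; have c3 := ω'.s1; have c4 := ω'.s2
    obtain ⟨e0, e0'⟩ := rule hi ω.u2w2 ω'.u2w2 (by omega)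
    simp only [Prod.mk.injEq]
    refine ⟨by omega, by omega, by omega⟩

include hs hi in
lemma ineq32 : H (F51 R) + H (F48 R) ≤ H (F37 R) + H (F37 R) := by
  have qA : H (fun ω : Om R => (ω.x1, ω.u1, ω.u2 + ω.y1)) = H (F37 R) := H_comp ((sw1 R).trans (ix R)) (F37 R)
  have qB : H (fun ω : Om R => (ω.u1, ω.x1, ω.w2 + ω.w1)) = H (F37 R) := H_comp ((ix R).trans (ty hs)) (F37 R)
  have qC : H (fun ω : Om R => (ω.u1, ω.u2 + ω.u1 - ω.x1, ω.w2 + ω.u1 - ω.y1)) = H (F51 R) := H_comp (Equiv.refl (Om R)) (F51 R)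
  have qD : H (fun ω : Om R => (ω.u1, ω.x1)) = H (F48 R) := H_comp (Equiv.refl (Om R)) (F48 R)
  have h := SM (A := (fun ω : Om R => (ω.x1, ω.u1, ω.u2 + ω.y1))) (B := (fun ω : Om R => (ω.u1, ω.x1, ω.w2 + ω.w1)))
    (C := (fun ω : Om R => (ω.u1, ω.u2 + ω.u1 - ω.x1, ω.w2 + ω.u1 - ω.y1))) (D := (fun ω : Om R => (ω.u1, ω.x1))) ?_ ?_ ?_
  · linarith [qA, qB, qC, qD]
  · intro ω ω' h
    simp only [Prod.mk.injEq] at h
    have c1 := ω.s1; have c2 := ω.s2; have c3 := ω'.s1; have c4 := ω'.s2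
    simp only [Prod.mk.injEq]
    refine ⟨by omega, by omega⟩
  · intro ω ω' h
    simp only [Prod.mk.injEq] at h
    have c1 := ω.s1; have c2 := ω.s2; have c3 := ω'.s1; have c4 := ω'.s2
    simp only [Prod.mk.injEq]
    refine ⟨by omega, by omega⟩
  · intro ω ω' h h'
    simp only [Prod.mk.injEq] at h
    simp only [Prod.mk.injEq] at h'
    have c1 := ω.s1; have c2 := ω.s2; have c3 := ω'.s1; have c4 := ω'.s2
    obtain ⟨e0, e0'⟩ := rule hi ω.u2w2 ω'.u2w2 (by omega)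
    simp only [Prod.mk.injEq]
    refine ⟨by omega, by omega, by omega⟩

include hs hi in
lemma ineq33 : H (F56 R) + H (F21 R) ≤ H (F13 R) + H (F13 R) := by
  have qA : H (fun ω : Om R => (ω.u2 + ω.u1 - ω.x1, ω.u2 + ω.u1 - ω.y1)) = H (F13 R) := H_comp (Equiv.refl (Om R)) (F13 R)
  have qB : H (fun ω : Om R => (ω.u1 + ω.u2 - ω.x2, ω.u1 + ω.u2 - ω.y2)) = H (F13 R) := H_comp (ix R) (F13 R)
  have qC : H (fun ω : Om R => (ω.u1, ω.u2, ω.w1, ω.w2, ω.x1, ω.x2)) = H (F56 R) := H_comp (Equiv.refl (Om R)) (F56 R)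
  have qD : H (fun ω : Om R => (ω.u1, ω.u2)) = H (F21 R) := H_comp (Equiv.refl (Om R)) (F21 R)
  have h := SM (A := (fun ω : Om R => (ω.u2 + ω.u1 - ω.x1, ω.u2 + ω.u1 - ω.y1))) (B := (fun ω : Om R => (ω.u1 + ω.u2 - ω.x2, ω.u1 + ω.u2 - ω.y2)))
    (C := (fun ω : Om R => (ω.u1, ω.u2, ω.w1, ω.w2, ω.x1, ω.x2))) (D := (fun ω : Om R => (ω.u1, ω.u2))) ?_ ?_ ?_
  · linarith [qA, qB, qC, qD]
  · intro ω ω' h
    simp only [Prod.mk.injEq] at h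
    have c1 := ω.s1; have c2 := ω.s2; have c3 := ω'.s1; have c4 := ω'.s2
    obtain ⟨e0, e0'⟩ := rule hi ω.y1x1 ω'.y1x1 (by omega)
    obtain ⟨e1, e1'⟩ := rule hi ω.u2w1 ω'.u2w1 (by omega)
    simp only [Prod.mk.injEq]
    refine ⟨by omega, by omega⟩
  · intro ω ω' h
    simp only [Prod.mk.injEq] at h
    have c1 := ω.s1; have c2 := ω.s2; have c3 := ω'.s1; have c4 := ω'.s2
    obtain ⟨e0, e0'⟩ := rule hi ω.y2x2 ω'.y2x2 (by omega)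
    obtain ⟨e1, e1'⟩ := rule hi ω.u1w2 ω'.u1w2 (by omega)
    simp only [Prod.mk.injEq]
    refine ⟨by omega, by omega⟩
  · intro ω ω' h h'
    simp only [Prod.mk.injEq] at h
    simp only [Prod.mk.injEq] at h'
    have c1 := ω.s1; have c2 := ω.s2; have c3 := ω'.s1; have c4 := ω'.s2
    obtain ⟨e0, e0'⟩ := rule hi ω.y1x1 ω'.y1x1 (by omega)
    obtain ⟨e1, e1'⟩ := rule hi ω.u1w2 ω'.u1w2 (by omega)
    simp only [Prod.mk.injEq]
    refine ⟨by omega, by omega, by omega, by omega, by omega, by omega⟩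

include hs hi in
lemma ineq34 : H (F57 R) + H (F27 R) ≤ H (F4 R) + H (F54 R) := by
  have qA : H (fun ω : Om R => (ω.w2, ω.u1 + ω.w2 - ω.x2)) = H (F4 R) := H_comp ((sw1 R).trans ((ix R).trans (ty hs))) (F4 R)
  have qB : H (fun ω : Om R => (ω.u2, ω.u1, ω.x1 + ω.u2 - ω.y2)) = H (F54 R) := H_comp ((sw1 R).trans (ix R)) (F54 R)
  have qC : H (fun ω : Om R => (ω.u1, ω.x1 + ω.u2 - ω.y2, ω.x1 + ω.x2 - ω.u2)) = H (F57 R) := H_comp (Equiv.refl (Om R)) (F57 R)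
  have qD : H (fun ω : Om R => (ω.u1, ω.u2 - ω.y2)) = H (F27 R) := H_comp (Equiv.refl (Om R)) (F27 R)
  have h := SM (A := (fun ω : Om R => (ω.w2, ω.u1 + ω.w2 - ω.x2))) (B := (fun ω : Om R => (ω.u2, ω.u1, ω.x1 + ω.u2 - ω.y2)))
    (C := (fun ω : Om R => (ω.u1, ω.x1 + ω.u2 - ω.y2, ω.x1 + ω.x2 - ω.u2))) (D := (fun ω : Om R => (ω.u1, ω.u2 - ω.y2))) ?_ ?_ ?_
  · linarith [qA, qB, qC, qD]
  · intro ω ω' h
    simp only [Prod.mk.injEq] at h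
    have c1 := ω.s1; have c2 := ω.s2; have c3 := ω'.s1; have c4 := ω'.s2
    obtain ⟨e0, e0'⟩ := rule hi ω.u1x2 ω'.u1x2 (by omega)
    simp only [Prod.mk.injEq]
    refine ⟨by omega, by omega⟩
  · intro ω ω' h
    simp only [Prod.mk.injEq] at h
    have c1 := ω.s1; have c2 := ω.s2; have c3 := ω'.s1; have c4 := ω'.s2
    obtain ⟨e0, e0'⟩ := rule hi ω.y2x1 ω'.y2x1 (by omega)
    simp only [Prod.mk.injEq]
    refine ⟨by omega, by omega⟩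
  · intro ω ω' h h'
    simp only [Prod.mk.injEq] at h
    simp only [Prod.mk.injEq] at h'
    have c1 := ω.s1; have c2 := ω.s2; have c3 := ω'.s1; have c4 := ω'.s2
    simp only [Prod.mk.injEq]
    refine ⟨by omega, by omega, by omega⟩

include hs hi in
lemma ineq35 : H (F58 R) + H (F2 R) ≤ H (F44 R) + H (F32 R) := by
  have qA : H (fun ω : Om R => (ω.u1, ω.y1, ω.x2 + ω.w1)) = H (F44 R) := H_comp (ix R) (F44 R)
  have qB : H (fun ω : Om R => (ω.u1, ω.u2, ω.x1 + ω.x2)) = H (F32 R) := H_comp (Equiv.refl (Om R)) (F32 R)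
  have qC : H (fun ω : Om R => (ω.u1, ω.u2, ω.y1, ω.w1 + ω.x2)) = H (F58 R) := H_comp (Equiv.refl (Om R)) (F58 R)
  have qD : H (fun ω : Om R => (ω.u1, ω.x1 + ω.x2)) = H (F2 R) := H_comp (Equiv.refl (Om R)) (F2 R)
  have h := SM (A := (fun ω : Om R => (ω.u1, ω.y1, ω.x2 + ω.w1))) (B := (fun ω : Om R => (ω.u1, ω.u2, ω.x1 + ω.x2)))
    (C := (fun ω : Om R => (ω.u1, ω.u2, ω.y1, ω.w1 + ω.x2))) (D := (fun ω : Om R => (ω.u1, ω.x1 + ω.x2))) ?_ ?_ ?_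
  · linarith [qA, qB, qC, qD]
  · intro ω ω' h
    simp only [Prod.mk.injEq] at h
    have c1 := ω.s1; have c2 := ω.s2; have c3 := ω'.s1; have c4 := ω'.s2
    simp only [Prod.mk.injEq]
    refine ⟨by omega, by omega⟩
  · intro ω ω' h
    simp only [Prod.mk.injEq] at h
    have c1 := ω.s1; have c2 := ω.s2; have c3 := ω'.s1; have c4 := ω'.s2
    simp only [Prod.mk.injEq]
    refine ⟨by omega, by omega⟩
  · intro ω ω' h h'
    simp only [Prod.mk.injEq] at h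
    simp only [Prod.mk.injEq] at h'
    have c1 := ω.s1; have c2 := ω.s2; have c3 := ω'.s1; have c4 := ω'.s2
    simp only [Prod.mk.injEq]
    refine ⟨by omega, by omega, by omega, by omega⟩

include hs hi in
lemma ineq36 : H (F59 R) + H (F2 R) ≤ H (F44 R) + H (F46 R) := by
  have qA : H (fun ω : Om R => (ω.u1, ω.y1, ω.x2 + ω.w1)) = H (F44 R) := H_comp (ix R) (F44 R)
  have qB : H (fun ω : Om R => (ω.u1, ω.w2 + ω.x1, ω.x2 + ω.x1)) = H (F46 R) := H_comp (ix R) (F46 R)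
  have qC : H (fun ω : Om R => (ω.u1, ω.y1, ω.w1 + ω.w2, ω.w1 + ω.x2)) = H (F59 R) := H_comp (Equiv.refl (Om R)) (F59 R)
  have qD : H (fun ω : Om R => (ω.u1, ω.x1 + ω.x2)) = H (F2 R) := H_comp (Equiv.refl (Om R)) (F2 R)
  have h := SM (A := (fun ω : Om R => (ω.u1, ω.y1, ω.x2 + ω.w1))) (B := (fun ω : Om R => (ω.u1, ω.w2 + ω.x1, ω.x2 + ω.x1)))
    (C := (fun ω : Om R => (ω.u1, ω.y1, ω.w1 + ω.w2, ω.w1 + ω.x2))) (D := (fun ω : Om R => (ω.u1, ω.x1 + ω.x2))) ?_ ?_ ?_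
  · linarith [qA, qB, qC, qD]
  · intro ω ω' h
    simp only [Prod.mk.injEq] at h
    have c1 := ω.s1; have c2 := ω.s2; have c3 := ω'.s1; have c4 := ω'.s2
    simp only [Prod.mk.injEq]
    refine ⟨by omega, by omega⟩
  · intro ω ω' h
    simp only [Prod.mk.injEq] at h
    have c1 := ω.s1; have c2 := ω.s2; have c3 := ω'.s1; have c4 := ω'.s2
    simp only [Prod.mk.injEq]
    refine ⟨by omega, by omega⟩
  · intro ω ω' h h'
    simp only [Prod.mk.injEq] at h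
    simp only [Prod.mk.injEq] at h'
    have c1 := ω.s1; have c2 := ω.s2; have c3 := ω'.s1; have c4 := ω'.s2
    simp only [Prod.mk.injEq]
    refine ⟨by omega, by omega, by omega, by omega⟩

include hs hi in
lemma ineq37 : H (F55 R) + H (F28 R) ≤ H (F6 R) + H (F54 R) := by
  have qA : H (fun ω : Om R => (ω.u2, ω.u1 + ω.u2 - ω.x2)) = H (F6 R) := H_comp (ix R) (F6 R)
  have qB : H (fun ω : Om R => (ω.u1, ω.y2, ω.w2 + ω.u1 - ω.y1)) = H (F54 R) := H_comp (Equiv.refl (Om R)) (F54 R)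
  have qC : H (fun ω : Om R => (ω.u1, ω.y1 + ω.u2 - ω.x2, ω.y1 + ω.u2 - ω.y2)) = H (F55 R) := H_comp (Equiv.refl (Om R)) (F55 R)
  have qD : H (fun ω : Om R => (ω.u1, ω.w2 - ω.y2)) = H (F28 R) := H_comp (Equiv.refl (Om R)) (F28 R)
  have h := SM (A := (fun ω : Om R => (ω.u2, ω.u1 + ω.u2 - ω.x2))) (B := (fun ω : Om R => (ω.u1, ω.y2, ω.w2 + ω.u1 - ω.y1)))
    (C := (fun ω : Om R => (ω.u1, ω.y1 + ω.u2 - ω.x2, ω.y1 + ω.u2 - ω.y2))) (D := (fun ω : Om R => (ω.u1, ω.w2 - ω.y2))) ?_ ?_ ?_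
  · linarith [qA, qB, qC, qD]
  · intro ω ω' h
    simp only [Prod.mk.injEq] at h
    have c1 := ω.s1; have c2 := ω.s2; have c3 := ω'.s1; have c4 := ω'.s2
    obtain ⟨e0, e0'⟩ := rule hi ω.u1x2 ω'.u1x2 (by omega)
    simp only [Prod.mk.injEq]
    refine ⟨by omega, by omega⟩
  · intro ω ω' h
    simp only [Prod.mk.injEq] at h
    have c1 := ω.s1; have c2 := ω.s2; have c3 := ω'.s1; have c4 := ω'.s2
    obtain ⟨e0, e0'⟩ := rule hi ω.y1w2 ω'.y1w2 (by omega)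
    simp only [Prod.mk.injEq]
    refine ⟨by omega, by omega⟩
  · intro ω ω' h h'
    simp only [Prod.mk.injEq] at h
    simp only [Prod.mk.injEq] at h'
    have c1 := ω.s1; have c2 := ω.s2; have c3 := ω'.s1; have c4 := ω'.s2
    simp only [Prod.mk.injEq]
    refine ⟨by omega, by omega, by omega⟩

include hs hi in
lemma ineq38 : H (F51 R) + H (F29 R) ≤ H (F11 R) + H (F43 R) := by
  have qA : H (fun ω : Om R => (ω.u2 + ω.u1, ω.u2 + ω.w2)) = H (F11 R) := H_comp (ix R) (F11 R)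
  have qB : H (fun ω : Om R => (ω.u2 + ω.w2, ω.u1 - ω.y1, ω.w1 - ω.y1)) = H (F43 R) := H_comp (ix R) (F43 R)
  have qC : H (fun ω : Om R => (ω.u1, ω.u2 + ω.u1 - ω.x1, ω.w2 + ω.u1 - ω.y1)) = H (F51 R) := H_comp (Equiv.refl (Om R)) (F51 R)
  have qD : H (fun ω : Om R => (ω.u1, ω.u2 + ω.w2)) = H (F29 R) := H_comp (Equiv.refl (Om R)) (F29 R)
  have h := SM (A := (fun ω : Om R => (ω.u2 + ω.u1, ω.u2 + ω.w2))) (B := (fun ω : Om R => (ω.u2 + ω.w2, ω.u1 - ω.y1, ω.w1 - ω.y1)))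
    (C := (fun ω : Om R => (ω.u1, ω.u2 + ω.u1 - ω.x1, ω.w2 + ω.u1 - ω.y1))) (D := (fun ω : Om R => (ω.u1, ω.u2 + ω.w2))) ?_ ?_ ?_
  · linarith [qA, qB, qC, qD]
  · intro ω ω' h
    simp only [Prod.mk.injEq] at h
    have c1 := ω.s1; have c2 := ω.s2; have c3 := ω'.s1; have c4 := ω'.s2
    obtain ⟨e0, e0'⟩ := rule hi ω.u1w2 ω'.u1w2 (by omega)
    simp only [Prod.mk.injEq]
    refine ⟨by omega, by omega⟩
  · intro ω ω' h
    simp only [Prod.mk.injEq] at h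
    have c1 := ω.s1; have c2 := ω.s2; have c3 := ω'.s1; have c4 := ω'.s2
    obtain ⟨e0, e0'⟩ := rule hi ω.u1w1 ω'.u1w1 (by omega)
    simp only [Prod.mk.injEq]
    refine ⟨by omega, by omega⟩
  · intro ω ω' h h'
    simp only [Prod.mk.injEq] at h
    simp only [Prod.mk.injEq] at h'
    have c1 := ω.s1; have c2 := ω.s2; have c3 := ω'.s1; have c4 := ω'.s2
    obtain ⟨e0, e0'⟩ := rule hi ω.u1w1 ω'.u1w1 (by omega)
    simp only [Prod.mk.injEq]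
    refine ⟨by omega, by omega, by omega⟩

include hs hi in
lemma ineq39 : H (F57 R) + H (F22 R) ≤ H (F11 R) + H (F60 R) := by
  have qA : H (fun ω : Om R => (ω.w1 + ω.x2, ω.w1 + ω.u1)) = H (F11 R) := H_comp ((sw2 R).trans (ty hs)) (F11 R)
  have qB : H (fun ω : Om R => (ω.u1, ω.w1 + ω.x2, ω.y1 + ω.u2)) = H (F60 R) := H_comp (Equiv.refl (Om R)) (F60 R)
  have qC : H (fun ω : Om R => (ω.u2, ω.x2 + ω.u1 - ω.y1, ω.x2 + ω.x1 - ω.u1)) = H (F57 R) := H_comp (ix R) (F57 R)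
  have qD : H (fun ω : Om R => (ω.u1, ω.w1 + ω.x2)) = H (F22 R) := H_comp (Equiv.refl (Om R)) (F22 R)
  have h := SM (A := (fun ω : Om R => (ω.w1 + ω.x2, ω.w1 + ω.u1))) (B := (fun ω : Om R => (ω.u1, ω.w1 + ω.x2, ω.y1 + ω.u2)))
    (C := (fun ω : Om R => (ω.u2, ω.x2 + ω.u1 - ω.y1, ω.x2 + ω.x1 - ω.u1))) (D := (fun ω : Om R => (ω.u1, ω.w1 + ω.x2))) ?_ ?_ ?_
  · linarith [qA, qB, qC, qD]
  · intro ω ω' h
    simp only [Prod.mk.injEq] at h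
    have c1 := ω.s1; have c2 := ω.s2; have c3 := ω'.s1; have c4 := ω'.s2
    obtain ⟨e0, e0'⟩ := rule hi ω.u1x2 ω'.u1x2 (by omega)
    simp only [Prod.mk.injEq]
    refine ⟨by omega, by omega⟩
  · intro ω ω' h
    simp only [Prod.mk.injEq] at h
    have c1 := ω.s1; have c2 := ω.s2; have c3 := ω'.s1; have c4 := ω'.s2
    simp only [Prod.mk.injEq]
    refine ⟨by omega, by omega⟩
  · intro ω ω' h h'
    simp only [Prod.mk.injEq] at h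
    simp only [Prod.mk.injEq] at h'
    have c1 := ω.s1; have c2 := ω.s2; have c3 := ω'.s1; have c4 := ω'.s2
    obtain ⟨e0, e0'⟩ := rule hi ω.u2x1 ω'.u2x1 (by omega)
    simp only [Prod.mk.injEq]
    refine ⟨by omega, by omega, by omega⟩

include hs hi in
lemma ineq40 : H (F59 R) + H (F22 R) ≤ H (F44 R) + H (F61 R) := by
  have qA : H (fun ω : Om R => (ω.u1, ω.y1, ω.x2 + ω.w1)) = H (F44 R) := H_comp (ix R) (F44 R)
  have qB : H (fun ω : Om R => (ω.u1, ω.w1 + ω.w2, ω.w1 + ω.x2)) = H (F61 R) := H_comp (Equiv.refl (Om R)) (F61 R)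
  have qC : H (fun ω : Om R => (ω.u1, ω.y1, ω.w1 + ω.w2, ω.w1 + ω.x2)) = H (F59 R) := H_comp (Equiv.refl (Om R)) (F59 R)
  have qD : H (fun ω : Om R => (ω.u1, ω.w1 + ω.x2)) = H (F22 R) := H_comp (Equiv.refl (Om R)) (F22 R)
  have h := SM (A := (fun ω : Om R => (ω.u1, ω.y1, ω.x2 + ω.w1))) (B := (fun ω : Om R => (ω.u1, ω.w1 + ω.w2, ω.w1 + ω.x2)))
    (C := (fun ω : Om R => (ω.u1, ω.y1, ω.w1 + ω.w2, ω.w1 + ω.x2))) (D := (fun ω : Om R => (ω.u1, ω.w1 + ω.x2))) ?_ ?_ ?_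
  · linarith [qA, qB, qC, qD]
  · intro ω ω' h
    simp only [Prod.mk.injEq] at h
    have c1 := ω.s1; have c2 := ω.s2; have c3 := ω'.s1; have c4 := ω'.s2
    simp only [Prod.mk.injEq]
    refine ⟨by omega, by omega⟩
  · intro ω ω' h
    simp only [Prod.mk.injEq] at h
    have c1 := ω.s1; have c2 := ω.s2; have c3 := ω'.s1; have c4 := ω'.s2
    simp only [Prod.mk.injEq]
    refine ⟨by omega, by omega⟩
  · intro ω ω' h h'
    simp only [Prod.mk.injEq] at h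
    simp only [Prod.mk.injEq] at h'
    have c1 := ω.s1; have c2 := ω.s2; have c3 := ω'.s1; have c4 := ω'.s2
    simp only [Prod.mk.injEq]
    refine ⟨by omega, by omega, by omega, by omega⟩

include hs hi in
lemma ineq41 : H (F63 R) + H (F24 R) ≤ H (F15 R) + H (F62 R) := by
  have qA : H (fun ω : Om R => (ω.u1, ω.w2, ω.x2 + ω.w1)) = H (F15 R) := H_comp ((sw2 R).trans ((ix R).trans (ty hs))) (F15 R)
  have qB : H (fun ω : Om R => (ω.u1, ω.w1 + ω.u2, ω.y2 + ω.u1 - ω.x1)) = H (F62 R) := H_comp (Equiv.refl (Om R)) (F62 R)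
  have qC : H (fun ω : Om R => (ω.u1 + ω.u2 - ω.x2, ω.u2 + ω.y1 - ω.u1, ω.w1 + ω.u2 - ω.y2)) = H (F63 R) := H_comp (Equiv.refl (Om R)) (F63 R)
  have qD : H (fun ω : Om R => (ω.u1, ω.w1 + ω.u2 - ω.y2)) = H (F24 R) := H_comp (Equiv.refl (Om R)) (F24 R)
  have h := SM (A := (fun ω : Om R => (ω.u1, ω.w2, ω.x2 + ω.w1))) (B := (fun ω : Om R => (ω.u1, ω.w1 + ω.u2, ω.y2 + ω.u1 - ω.x1)))
    (C := (fun ω : Om R => (ω.u1 + ω.u2 - ω.x2, ω.u2 + ω.y1 - ω.u1, ω.w1 + ω.u2 - ω.y2))) (D := (fun ω : Om R => (ω.u1, ω.w1 + ω.u2 - ω.y2))) ?_ ?_ ?_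
  · linarith [qA, qB, qC, qD]
  · intro ω ω' h
    simp only [Prod.mk.injEq] at h
    have c1 := ω.s1; have c2 := ω.s2; have c3 := ω'.s1; have c4 := ω'.s2
    simp only [Prod.mk.injEq]
    refine ⟨by omega, by omega⟩
  · intro ω ω' h
    simp only [Prod.mk.injEq] at h
    have c1 := ω.s1; have c2 := ω.s2; have c3 := ω'.s1; have c4 := ω'.s2
    obtain ⟨e0, e0'⟩ := rule hi ω.y2x1 ω'.y2x1 (by omega)
    simp only [Prod.mk.injEq]
    refine ⟨by omega, by omega⟩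
  · intro ω ω' h h'
    simp only [Prod.mk.injEq] at h
    simp only [Prod.mk.injEq] at h'
    have c1 := ω.s1; have c2 := ω.s2; have c3 := ω'.s1; have c4 := ω'.s2
    simp only [Prod.mk.injEq]
    refine ⟨by omega, by omega, by omega⟩

include hs hi in
lemma ineq42 : H (F64 R) + H (F26 R) ≤ H (F23 R) + H (F23 R) := by
  have qA : H (fun ω : Om R => (ω.u1, ω.u2, ω.w1 + ω.x2)) = H (F23 R) := H_comp (Equiv.refl (Om R)) (F23 R)
  have qB : H (fun ω : Om R => (ω.u1, ω.y2, ω.w1 + ω.w2)) = H (F23 R) := H_comp (sw2 R) (F23 R)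
  have qC : H (fun ω : Om R => (ω.u1, ω.u2, ω.y2, ω.w1 + ω.w2)) = H (F64 R) := H_comp (Equiv.refl (Om R)) (F64 R)
  have qD : H (fun ω : Om R => (ω.u1, ω.w1 + ω.x2 - ω.u2)) = H (F26 R) := H_comp (Equiv.refl (Om R)) (F26 R)
  have h := SM (A := (fun ω : Om R => (ω.u1, ω.u2, ω.w1 + ω.x2))) (B := (fun ω : Om R => (ω.u1, ω.y2, ω.w1 + ω.w2)))
    (C := (fun ω : Om R => (ω.u1, ω.u2, ω.y2, ω.w1 + ω.w2))) (D := (fun ω : Om R => (ω.u1, ω.w1 + ω.x2 - ω.u2))) ?_ ?_ ?_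
  · linarith [qA, qB, qC, qD]
  · intro ω ω' h
    simp only [Prod.mk.injEq] at h
    have c1 := ω.s1; have c2 := ω.s2; have c3 := ω'.s1; have c4 := ω'.s2
    simp only [Prod.mk.injEq]
    refine ⟨by omega, by omega⟩
  · intro ω ω' h
    simp only [Prod.mk.injEq] at h
    have c1 := ω.s1; have c2 := ω.s2; have c3 := ω'.s1; have c4 := ω'.s2
    simp only [Prod.mk.injEq]
    refine ⟨by omega, by omega⟩
  · intro ω ω' h h'
    simp only [Prod.mk.injEq] at h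
    simp only [Prod.mk.injEq] at h'
    have c1 := ω.s1; have c2 := ω.s2; have c3 := ω'.s1; have c4 := ω'.s2
    simp only [Prod.mk.injEq]
    refine ⟨by omega, by omega, by omega, by omega⟩

include hs hi in
lemma ineq43 : H (F57 R) + H (F11 R) ≤ H (F13 R) + H (F17 R) := by
  have qA : H (fun ω : Om R => (ω.u2 + ω.u1 - ω.x1, ω.u2 + ω.u1 - ω.y1)) = H (F13 R) := H_comp (Equiv.refl (Om R)) (F13 R)
  have qB : H (fun ω : Om R => (ω.x2, ω.u1, ω.w1 + ω.w2 - ω.y2)) = H (F17 R) := H_comp ((sw1 R).trans (sw2 R)) (F17 R)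
  have qC : H (fun ω : Om R => (ω.u2, ω.x2 + ω.u1 - ω.y1, ω.x2 + ω.x1 - ω.u1)) = H (F57 R) := H_comp (ix R) (F57 R)
  have qD : H (fun ω : Om R => (ω.u1 + ω.u2, ω.u1 + ω.w1)) = H (F11 R) := H_comp (Equiv.refl (Om R)) (F11 R)
  have h := SM (A := (fun ω : Om R => (ω.u2 + ω.u1 - ω.x1, ω.u2 + ω.u1 - ω.y1))) (B := (fun ω : Om R => (ω.x2, ω.u1, ω.w1 + ω.w2 - ω.y2)))
    (C := (fun ω : Om R => (ω.u2, ω.x2 + ω.u1 - ω.y1, ω.x2 + ω.x1 - ω.u1))) (D := (fun ω : Om R => (ω.u1 + ω.u2, ω.u1 + ω.w1))) ?_ ?_ ?_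
  · linarith [qA, qB, qC, qD]
  · intro ω ω' h
    simp only [Prod.mk.injEq] at h
    have c1 := ω.s1; have c2 := ω.s2; have c3 := ω'.s1; have c4 := ω'.s2
    obtain ⟨e0, e0'⟩ := rule hi ω.y1x1 ω'.y1x1 (by omega)
    simp only [Prod.mk.injEq]
    refine ⟨by omega, by omega⟩
  · intro ω ω' h
    simp only [Prod.mk.injEq] at h
    have c1 := ω.s1; have c2 := ω.s2; have c3 := ω'.s1; have c4 := ω'.s2
    obtain ⟨e0, e0'⟩ := rule hi ω.u2w1 ω'.u2w1 (by omega)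
    simp only [Prod.mk.injEq]
    refine ⟨by omega, by omega⟩
  · intro ω ω' h h'
    simp only [Prod.mk.injEq] at h
    simp only [Prod.mk.injEq] at h'
    have c1 := ω.s1; have c2 := ω.s2; have c3 := ω'.s1; have c4 := ω'.s2
    simp only [Prod.mk.injEq]
    refine ⟨by omega, by omega, by omega⟩

include hs hi in
lemma ineq44 : H (F56 R) + H (F11 R) ≤ H (F13 R) + H (F51 R) := by
  have qA : H (fun ω : Om R => (ω.u2 + ω.u1 - ω.x1, ω.u2 + ω.u1 - ω.y1)) = H (F13 R) := H_comp (Equiv.refl (Om R)) (F13 R)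
  have qB : H (fun ω : Om R => (ω.u2, ω.u1 + ω.u2 - ω.x2, ω.w1 + ω.u2 - ω.y2)) = H (F51 R) := H_comp (ix R) (F51 R)
  have qC : H (fun ω : Om R => (ω.u1, ω.u2, ω.w1, ω.w2, ω.x1, ω.x2)) = H (F56 R) := H_comp (Equiv.refl (Om R)) (F56 R)
  have qD : H (fun ω : Om R => (ω.u1 + ω.u2, ω.u1 + ω.w1)) = H (F11 R) := H_comp (Equiv.refl (Om R)) (F11 R)
  have h := SM (A := (fun ω : Om R => (ω.u2 + ω.u1 - ω.x1, ω.u2 + ω.u1 - ω.y1))) (B := (fun ω : Om R => (ω.u2, ω.u1 + ω.u2 - ω.x2, ω.w1 + ω.u2 - ω.y2)))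
    (C := (fun ω : Om R => (ω.u1, ω.u2, ω.w1, ω.w2, ω.x1, ω.x2))) (D := (fun ω : Om R => (ω.u1 + ω.u2, ω.u1 + ω.w1))) ?_ ?_ ?_
  · linarith [qA, qB, qC, qD]
  · intro ω ω' h
    simp only [Prod.mk.injEq] at h
    have c1 := ω.s1; have c2 := ω.s2; have c3 := ω'.s1; have c4 := ω'.s2
    obtain ⟨e0, e0'⟩ := rule hi ω.y1x1 ω'.y1x1 (by omega)
    simp only [Prod.mk.injEq]
    refine ⟨by omega, by omega⟩
  · intro ω ω' h
    simp only [Prod.mk.injEq] at h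
    have c1 := ω.s1; have c2 := ω.s2; have c3 := ω'.s1; have c4 := ω'.s2
    obtain ⟨e0, e0'⟩ := rule hi ω.u1x2 ω'.u1x2 (by omega)
    obtain ⟨e1, e1'⟩ := rule hi ω.y2w1 ω'.y2w1 (by omega)
    simp only [Prod.mk.injEq]
    refine ⟨by omega, by omega⟩
  · intro ω ω' h h'
    simp only [Prod.mk.injEq] at h
    simp only [Prod.mk.injEq] at h'
    have c1 := ω.s1; have c2 := ω.s2; have c3 := ω'.s1; have c4 := ω'.s2
    obtain ⟨e0, e0'⟩ := rule hi ω.u1w1 ω'.u1w1 (by omega)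
    simp only [Prod.mk.injEq]
    refine ⟨by omega, by omega, by omega, by omega, by omega, by omega⟩

include hs hi in
lemma ineq45 : H (F56 R) + H (F49 R) ≤ H (F37 R) + H (F57 R) := by
  have qA : H (fun ω : Om R => (ω.w2, ω.y2, ω.u1 + ω.u2)) = H (F37 R) := H_comp (Equiv.refl (Om R)) (F37 R)
  have qB : H (fun ω : Om R => (ω.u2, ω.x2 + ω.u1 - ω.y1, ω.x2 + ω.x1 - ω.u1)) = H (F57 R) := H_comp (ix R) (F57 R)
  have qC : H (fun ω : Om R => (ω.u1, ω.u2, ω.w1, ω.w2, ω.x1, ω.x2)) = H (F56 R) := H_comp (Equiv.refl (Om R)) (F56 R)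
  have qD : H (fun ω : Om R => (ω.u2 + ω.u1, ω.x2 + ω.u1)) = H (F49 R) := H_comp (ix R) (F49 R)
  have h := SM (A := (fun ω : Om R => (ω.w2, ω.y2, ω.u1 + ω.u2))) (B := (fun ω : Om R => (ω.u2, ω.x2 + ω.u1 - ω.y1, ω.x2 + ω.x1 - ω.u1)))
    (C := (fun ω : Om R => (ω.u1, ω.u2, ω.w1, ω.w2, ω.x1, ω.x2))) (D := (fun ω : Om R => (ω.u2 + ω.u1, ω.x2 + ω.u1))) ?_ ?_ ?_
  · linarith [qA, qB, qC, qD]
  · intro ω ω' h
    simp only [Prod.mk.injEq] at h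
    have c1 := ω.s1; have c2 := ω.s2; have c3 := ω'.s1; have c4 := ω'.s2
    simp only [Prod.mk.injEq]
    refine ⟨by omega, by omega⟩
  · intro ω ω' h
    simp only [Prod.mk.injEq] at h
    have c1 := ω.s1; have c2 := ω.s2; have c3 := ω'.s1; have c4 := ω'.s2
    obtain ⟨e0, e0'⟩ := rule hi ω.u1w1 ω'.u1w1 (by omega)
    obtain ⟨e1, e1'⟩ := rule hi ω.y1x2 ω'.y1x2 (by omega)
    simp only [Prod.mk.injEq]
    refine ⟨by omega, by omega⟩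
  · intro ω ω' h h'
    simp only [Prod.mk.injEq] at h
    simp only [Prod.mk.injEq] at h'
    have c1 := ω.s1; have c2 := ω.s2; have c3 := ω'.s1; have c4 := ω'.s2
    simp only [Prod.mk.injEq]
    refine ⟨by omega, by omega, by omega, by omega, by omega, by omega⟩

include hs hi in
lemma ineq46 : H (F57 R) + H (F31 R) ≤ H (F65 R) + H (F47 R) := by
  have qA : H (fun ω : Om R => (ω.u1 + ω.u2, ω.u1 + ω.x2, ω.x1 + ω.u2)) = H (F65 R) := H_comp (Equiv.refl (Om R)) (F65 R)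
  have qB : H (fun ω : Om R => (ω.u2 + ω.u1, ω.w2 + ω.x1, ω.x2 + ω.x1)) = H (F47 R) := H_comp (ix R) (F47 R)
  have qC : H (fun ω : Om R => (ω.u1, ω.x1 + ω.u2 - ω.y2, ω.x1 + ω.x2 - ω.u2)) = H (F57 R) := H_comp (Equiv.refl (Om R)) (F57 R)
  have qD : H (fun ω : Om R => (ω.u1 + ω.u2, ω.x1 + ω.x2)) = H (F31 R) := H_comp (Equiv.refl (Om R)) (F31 R)
  have h := SM (A := (fun ω : Om R => (ω.u1 + ω.u2, ω.u1 + ω.x2, ω.x1 + ω.u2))) (B := (fun ω : Om R => (ω.u2 + ω.u1, ω.w2 + ω.x1, ω.x2 + ω.x1)))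
    (C := (fun ω : Om R => (ω.u1, ω.x1 + ω.u2 - ω.y2, ω.x1 + ω.x2 - ω.u2))) (D := (fun ω : Om R => (ω.u1 + ω.u2, ω.x1 + ω.x2))) ?_ ?_ ?_
  · linarith [qA, qB, qC, qD]
  · intro ω ω' h
    simp only [Prod.mk.injEq] at h
    have c1 := ω.s1; have c2 := ω.s2; have c3 := ω'.s1; have c4 := ω'.s2
    simp only [Prod.mk.injEq]
    refine ⟨by omega, by omega⟩
  · intro ω ω' h
    simp only [Prod.mk.injEq] at h
    have c1 := ω.s1; have c2 := ω.s2; have c3 := ω'.s1; have c4 := ω'.s2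
    simp only [Prod.mk.injEq]
    refine ⟨by omega, by omega⟩
  · intro ω ω' h h'
    simp only [Prod.mk.injEq] at h
    simp only [Prod.mk.injEq] at h'
    have c1 := ω.s1; have c2 := ω.s2; have c3 := ω'.s1; have c4 := ω'.s2
    obtain ⟨e0, e0'⟩ := rule hi ω.u2w2 ω'.u2w2 (by omega)
    simp only [Prod.mk.injEq]
    refine ⟨by omega, by omega, by omega⟩

include hs hi in
lemma ineq47 : H (F56 R) + H (F45 R) ≤ H (F44 R) + H (F55 R) := by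
  have qA : H (fun ω : Om R => (ω.w2, ω.x2, ω.u1 + ω.u2)) = H (F44 R) := H_comp ((sw1 R).trans (ty hs)) (F44 R)
  have qB : H (fun ω : Om R => (ω.u2, ω.y2 + ω.u1 - ω.x1, ω.y2 + ω.u1 - ω.y1)) = H (F55 R) := H_comp (ix R) (F55 R)
  have qC : H (fun ω : Om R => (ω.u1, ω.u2, ω.w1, ω.w2, ω.x1, ω.x2)) = H (F56 R) := H_comp (Equiv.refl (Om R)) (F56 R)
  have qD : H (fun ω : Om R => (ω.u2 + ω.u1, ω.y2 + ω.u1)) = H (F45 R) := H_comp ((sw1 R).trans ((ix R).trans (ty hs))) (F45 R)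
  have h := SM (A := (fun ω : Om R => (ω.w2, ω.x2, ω.u1 + ω.u2))) (B := (fun ω : Om R => (ω.u2, ω.y2 + ω.u1 - ω.x1, ω.y2 + ω.u1 - ω.y1)))
    (C := (fun ω : Om R => (ω.u1, ω.u2, ω.w1, ω.w2, ω.x1, ω.x2))) (D := (fun ω : Om R => (ω.u2 + ω.u1, ω.y2 + ω.u1))) ?_ ?_ ?_
  · linarith [qA, qB, qC, qD]
  · intro ω ω' h
    simp only [Prod.mk.injEq] at h
    have c1 := ω.s1; have c2 := ω.s2; have c3 := ω'.s1; have c4 := ω'.s2
    simp only [Prod.mk.injEq]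
    refine ⟨by omega, by omega⟩
  · intro ω ω' h
    simp only [Prod.mk.injEq] at h
    have c1 := ω.s1; have c2 := ω.s2; have c3 := ω'.s1; have c4 := ω'.s2
    obtain ⟨e0, e0'⟩ := rule hi ω.y1x1 ω'.y1x1 (by omega)
    obtain ⟨e1, e1'⟩ := rule hi ω.y2w1 ω'.y2w1 (by omega)
    simp only [Prod.mk.injEq]
    refine ⟨by omega, by omega⟩
  · intro ω ω' h h'
    simp only [Prod.mk.injEq] at h
    simp only [Prod.mk.injEq] at h'
    have c1 := ω.s1; have c2 := ω.s2; have c3 := ω'.s1; have c4 := ω'.s2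
    simp only [Prod.mk.injEq]
    refine ⟨by omega, by omega, by omega, by omega, by omega, by omega⟩

include hs hi in
lemma ineq48 : H (F55 R) + H (F33 R) ≤ H (F50 R) + H (F66 R) := by
  have qA : H (fun ω : Om R => (ω.u2 + ω.u1, ω.w2 + ω.y1, ω.x2 + ω.u1)) = H (F50 R) := H_comp (ix R) (F50 R)
  have qB : H (fun ω : Om R => (ω.u1 + ω.u2, ω.u1 + ω.y2, ω.y1 + ω.u2)) = H (F66 R) := H_comp (Equiv.refl (Om R)) (F66 R)
  have qC : H (fun ω : Om R => (ω.u1, ω.y1 + ω.u2 - ω.x2, ω.y1 + ω.u2 - ω.y2)) = H (F55 R) := H_comp (Equiv.refl (Om R)) (F55 R)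
  have qD : H (fun ω : Om R => (ω.u1 + ω.u2, ω.y1 + ω.y2)) = H (F33 R) := H_comp (Equiv.refl (Om R)) (F33 R)
  have h := SM (A := (fun ω : Om R => (ω.u2 + ω.u1, ω.w2 + ω.y1, ω.x2 + ω.u1))) (B := (fun ω : Om R => (ω.u1 + ω.u2, ω.u1 + ω.y2, ω.y1 + ω.u2)))
    (C := (fun ω : Om R => (ω.u1, ω.y1 + ω.u2 - ω.x2, ω.y1 + ω.u2 - ω.y2))) (D := (fun ω : Om R => (ω.u1 + ω.u2, ω.y1 + ω.y2))) ?_ ?_ ?_
  · linarith [qA, qB, qC, qD]
  · intro ω ω' h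
    simp only [Prod.mk.injEq] at h
    have c1 := ω.s1; have c2 := ω.s2; have c3 := ω'.s1; have c4 := ω'.s2
    simp only [Prod.mk.injEq]
    refine ⟨by omega, by omega⟩
  · intro ω ω' h
    simp only [Prod.mk.injEq] at h
    have c1 := ω.s1; have c2 := ω.s2; have c3 := ω'.s1; have c4 := ω'.s2
    simp only [Prod.mk.injEq]
    refine ⟨by omega, by omega⟩
  · intro ω ω' h h'
    simp only [Prod.mk.injEq] at h
    simp only [Prod.mk.injEq] at h'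
    have c1 := ω.s1; have c2 := ω.s2; have c3 := ω'.s1; have c4 := ω'.s2
    obtain ⟨e0, e0'⟩ := rule hi ω.u2w2 ω'.u2w2 (by omega)
    simp only [Prod.mk.injEq]
    refine ⟨by omega, by omega, by omega⟩

include hs hi in
lemma ineq49 : H (F56 R) + H (F35 R) ≤ H (F40 R) + H (F40 R) := by
  have qA : H (fun ω : Om R => (ω.y1, ω.x2 + ω.x1, ω.u2 + ω.u1 - ω.x1)) = H (F40 R) := H_comp ((sw1 R).trans ((sw2 R).trans ((ix R).trans (ty hs)))) (F40 R)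
  have qB : H (fun ω : Om R => (ω.w2, ω.u1 + ω.u2, ω.x1 + ω.x2 - ω.u2)) = H (F40 R) := H_comp (Equiv.refl (Om R)) (F40 R)
  have qC : H (fun ω : Om R => (ω.u1, ω.u2, ω.w1, ω.w2, ω.x1, ω.x2)) = H (F56 R) := H_comp (Equiv.refl (Om R)) (F56 R)
  have qD : H (fun ω : Om R => (ω.u1 + ω.x2, ω.u2 + ω.u1 - ω.x1)) = H (F35 R) := H_comp (Equiv.refl (Om R)) (F35 R)
  have h := SM (A := (fun ω : Om R => (ω.y1, ω.x2 + ω.x1, ω.u2 + ω.u1 - ω.x1))) (B := (fun ω : Om R => (ω.w2, ω.u1 + ω.u2, ω.x1 + ω.x2 - ω.u2)))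
    (C := (fun ω : Om R => (ω.u1, ω.u2, ω.w1, ω.w2, ω.x1, ω.x2))) (D := (fun ω : Om R => (ω.u1 + ω.x2, ω.u2 + ω.u1 - ω.x1))) ?_ ?_ ?_
  · linarith [qA, qB, qC, qD]
  · intro ω ω' h
    simp only [Prod.mk.injEq] at h
    have c1 := ω.s1; have c2 := ω.s2; have c3 := ω'.s1; have c4 := ω'.s2
    obtain ⟨e0, e0'⟩ := rule hi ω.u2w1 ω'.u2w1 (by omega)
    simp only [Prod.mk.injEq]
    refine ⟨by omega, by omega⟩
  · intro ω ω' h
    simp only [Prod.mk.injEq] at h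
    have c1 := ω.s1; have c2 := ω.s2; have c3 := ω'.s1; have c4 := ω'.s2
    obtain ⟨e0, e0'⟩ := rule hi ω.y2x1 ω'.y2x1 (by omega)
    simp only [Prod.mk.injEq]
    refine ⟨by omega, by omega⟩
  · intro ω ω' h h'
    simp only [Prod.mk.injEq] at h
    simp only [Prod.mk.injEq] at h'
    have c1 := ω.s1; have c2 := ω.s2; have c3 := ω'.s1; have c4 := ω'.s2
    simp only [Prod.mk.injEq]
    refine ⟨by omega, by omega, by omega, by omega, by omega, by omega⟩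

include hs hi in
lemma ineq50 : H (F62 R) + H (F38 R) ≤ H (F39 R) + H (F34 R) := by
  have qA : H (fun ω : Om R => (ω.w1, ω.u2 + ω.x1, ω.u1 + ω.u2 - ω.y2)) = H (F39 R) := H_comp (ix R) (F39 R)
  have qB : H (fun ω : Om R => (ω.y1, ω.y2, ω.u1 + ω.u2)) = H (F34 R) := H_comp ((sw1 R).trans (sw2 R)) (F34 R)
  have qC : H (fun ω : Om R => (ω.y1, ω.x1 + ω.u2, ω.y2 + ω.y1 - ω.w1)) = H (F62 R) := H_comp (sw1 R) (F62 R)
  have qD : H (fun ω : Om R => (ω.u1 + ω.u2 - ω.y2, ω.u2 + ω.u1 - ω.y1)) = H (F38 R) := H_comp (Equiv.refl (Om R)) (F38 R)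
  have h := SM (A := (fun ω : Om R => (ω.w1, ω.u2 + ω.x1, ω.u1 + ω.u2 - ω.y2))) (B := (fun ω : Om R => (ω.y1, ω.y2, ω.u1 + ω.u2)))
    (C := (fun ω : Om R => (ω.y1, ω.x1 + ω.u2, ω.y2 + ω.y1 - ω.w1))) (D := (fun ω : Om R => (ω.u1 + ω.u2 - ω.y2, ω.u2 + ω.u1 - ω.y1))) ?_ ?_ ?_
  · linarith [qA, qB, qC, qD]
  · intro ω ω' h
    simp only [Prod.mk.injEq] at h
    have c1 := ω.s1; have c2 := ω.s2; have c3 := ω'.s1; have c4 := ω'.s2
    simp only [Prod.mk.injEq]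
    refine ⟨by omega, by omega⟩
  · intro ω ω' h
    simp only [Prod.mk.injEq] at h
    have c1 := ω.s1; have c2 := ω.s2; have c3 := ω'.s1; have c4 := ω'.s2
    simp only [Prod.mk.injEq]
    refine ⟨by omega, by omega⟩
  · intro ω ω' h h'
    simp only [Prod.mk.injEq] at h
    simp only [Prod.mk.injEq] at h'
    have c1 := ω.s1; have c2 := ω.s2; have c3 := ω'.s1; have c4 := ω'.s2
    simp only [Prod.mk.injEq]
    refine ⟨by omega, by omega, by omega⟩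

include hs hi in
lemma ineq51 : H (F56 R) + H (F52 R) ≤ H (F25 R) + H (F55 R) := by
  have qA : H (fun ω : Om R => (ω.u1, ω.u2, ω.w1 + ω.u2 - ω.y2)) = H (F25 R) := H_comp (Equiv.refl (Om R)) (F25 R)
  have qB : H (fun ω : Om R => (ω.w2, ω.x2 + ω.w1 - ω.y1, ω.x2 + ω.w1 - ω.x1)) = H (F55 R) := H_comp ((ix R).trans (ty hs)) (F55 R)
  have qC : H (fun ω : Om R => (ω.u1, ω.u2, ω.w1, ω.w2, ω.x1, ω.x2)) = H (F56 R) := H_comp (Equiv.refl (Om R)) (F56 R)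
  have qD : H (fun ω : Om R => (ω.u1 + ω.u2 - ω.y2, ω.w1 + ω.u2 - ω.y2)) = H (F52 R) := H_comp (Equiv.refl (Om R)) (F52 R)
  have h := SM (A := (fun ω : Om R => (ω.u1, ω.u2, ω.w1 + ω.u2 - ω.y2))) (B := (fun ω : Om R => (ω.w2, ω.x2 + ω.w1 - ω.y1, ω.x2 + ω.w1 - ω.x1)))
    (C := (fun ω : Om R => (ω.u1, ω.u2, ω.w1, ω.w2, ω.x1, ω.x2))) (D := (fun ω : Om R => (ω.u1 + ω.u2 - ω.y2, ω.w1 + ω.u2 - ω.y2))) ?_ ?_ ?_
  · linarith [qA, qB, qC, qD]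
  · intro ω ω' h
    simp only [Prod.mk.injEq] at h
    have c1 := ω.s1; have c2 := ω.s2; have c3 := ω'.s1; have c4 := ω'.s2
    obtain ⟨e0, e0'⟩ := rule hi ω.y2w1 ω'.y2w1 (by omega)
    simp only [Prod.mk.injEq]
    refine ⟨by omega, by omega⟩
  · intro ω ω' h
    simp only [Prod.mk.injEq] at h
    have c1 := ω.s1; have c2 := ω.s2; have c3 := ω'.s1; have c4 := ω'.s2
    obtain ⟨e0, e0'⟩ := rule hi ω.y1x1 ω'.y1x1 (by omega)
    obtain ⟨e1, e1'⟩ := rule hi ω.u1x2 ω'.u1x2 (by omega)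
    simp only [Prod.mk.injEq]
    refine ⟨by omega, by omega⟩
  · intro ω ω' h h'
    simp only [Prod.mk.injEq] at h
    simp only [Prod.mk.injEq] at h'
    have c1 := ω.s1; have c2 := ω.s2; have c3 := ω'.s1; have c4 := ω'.s2
    simp only [Prod.mk.injEq]
    refine ⟨by omega, by omega, by omega, by omega, by omega, by omega⟩

include hs hi in
lemma ineq52 : H (F56 R) + H (F41 R) ≤ H (F25 R) + H (F25 R) := by
  have qA : H (fun ω : Om R => (ω.u1, ω.u2, ω.w1 + ω.u2 - ω.y2)) = H (F25 R) := H_comp (Equiv.refl (Om R)) (F25 R)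
  have qB : H (fun ω : Om R => (ω.x1, ω.w2, ω.y1 + ω.w2 - ω.x2)) = H (F25 R) := H_comp ((sw1 R).trans (ty hs)) (F25 R)
  have qC : H (fun ω : Om R => (ω.u1, ω.u2, ω.w1, ω.w2, ω.x1, ω.x2)) = H (F56 R) := H_comp (Equiv.refl (Om R)) (F56 R)
  have qD : H (fun ω : Om R => (ω.u1 + ω.w1, ω.u2 - ω.y2)) = H (F41 R) := H_comp (Equiv.refl (Om R)) (F41 R)
  have h := SM (A := (fun ω : Om R => (ω.u1, ω.u2, ω.w1 + ω.u2 - ω.y2))) (B := (fun ω : Om R => (ω.x1, ω.w2, ω.y1 + ω.w2 - ω.x2)))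
    (C := (fun ω : Om R => (ω.u1, ω.u2, ω.w1, ω.w2, ω.x1, ω.x2))) (D := (fun ω : Om R => (ω.u1 + ω.w1, ω.u2 - ω.y2))) ?_ ?_ ?_
  · linarith [qA, qB, qC, qD]
  · intro ω ω' h
    simp only [Prod.mk.injEq] at h
    have c1 := ω.s1; have c2 := ω.s2; have c3 := ω'.s1; have c4 := ω'.s2
    obtain ⟨e0, e0'⟩ := rule hi ω.y2w1 ω'.y2w1 (by omega)
    simp only [Prod.mk.injEq]
    refine ⟨by omega, by omega⟩
  · intro ω ω' h
    simp only [Prod.mk.injEq] at h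
    have c1 := ω.s1; have c2 := ω.s2; have c3 := ω'.s1; have c4 := ω'.s2
    obtain ⟨e0, e0'⟩ := rule hi ω.y1x2 ω'.y1x2 (by omega)
    simp only [Prod.mk.injEq]
    refine ⟨by omega, by omega⟩
  · intro ω ω' h h'
    simp only [Prod.mk.injEq] at h
    simp only [Prod.mk.injEq] at h'
    have c1 := ω.s1; have c2 := ω.s2; have c3 := ω'.s1; have c4 := ω'.s2
    simp only [Prod.mk.injEq]
    refine ⟨by omega, by omega, by omega, by omega, by omega, by omega⟩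

include hs hi in
lemma ineq53 : H (F56 R) + H (F42 R) ≤ H (F17 R) + H (F17 R) := by
  have qA : H (fun ω : Om R => (ω.x2, ω.u1, ω.w1 + ω.w2 - ω.y2)) = H (F17 R) := H_comp ((sw1 R).trans (sw2 R)) (F17 R)
  have qB : H (fun ω : Om R => (ω.w2, ω.y1, ω.x1 + ω.x2 - ω.u2)) = H (F17 R) := H_comp (Equiv.refl (Om R)) (F17 R)
  have qC : H (fun ω : Om R => (ω.u1, ω.u2, ω.w1, ω.w2, ω.x1, ω.x2)) = H (F56 R) := H_comp (Equiv.refl (Om R)) (F56 R)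
  have qD : H (fun ω : Om R => (ω.u1 + ω.w1, ω.w2 - ω.y2)) = H (F42 R) := H_comp (Equiv.refl (Om R)) (F42 R)
  have h := SM (A := (fun ω : Om R => (ω.x2, ω.u1, ω.w1 + ω.w2 - ω.y2))) (B := (fun ω : Om R => (ω.w2, ω.y1, ω.x1 + ω.x2 - ω.u2)))
    (C := (fun ω : Om R => (ω.u1, ω.u2, ω.w1, ω.w2, ω.x1, ω.x2))) (D := (fun ω : Om R => (ω.u1 + ω.w1, ω.w2 - ω.y2))) ?_ ?_ ?_
  · linarith [qA, qB, qC, qD]
  · intro ω ω' h
    simp only [Prod.mk.injEq] at h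
    have c1 := ω.s1; have c2 := ω.s2; have c3 := ω'.s1; have c4 := ω'.s2
    obtain ⟨e0, e0'⟩ := rule hi ω.u2w1 ω'.u2w1 (by omega)
    simp only [Prod.mk.injEq]
    refine ⟨by omega, by omega⟩
  · intro ω ω' h
    simp only [Prod.mk.injEq] at h
    have c1 := ω.s1; have c2 := ω.s2; have c3 := ω'.s1; have c4 := ω'.s2
    obtain ⟨e0, e0'⟩ := rule hi ω.y2x1 ω'.y2x1 (by omega)
    simp only [Prod.mk.injEq]
    refine ⟨by omega, by omega⟩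
  · intro ω ω' h h'
    simp only [Prod.mk.injEq] at h
    simp only [Prod.mk.injEq] at h'
    have c1 := ω.s1; have c2 := ω.s2; have c3 := ω'.s1; have c4 := ω'.s2
    obtain ⟨e0, e0'⟩ := rule hi ω.u2w1 ω'.u2w1 (by omega)
    simp only [Prod.mk.injEq]
    refine ⟨by omega, by omega, by omega, by omega, by omega, by omega⟩

include hs hi in
lemma ineq54 : H (F56 R) + H (F53 R) ≤ H (F17 R) + H (F57 R) := by
  have qA : H (fun ω : Om R => (ω.x2, ω.u1, ω.w1 + ω.w2 - ω.y2)) = H (F17 R) := H_comp ((sw1 R).trans (sw2 R)) (F17 R)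
  have qB : H (fun ω : Om R => (ω.y2, ω.w2 + ω.u1 - ω.y1, ω.w2 + ω.x1 - ω.u1)) = H (F57 R) := H_comp ((sw2 R).trans (ix R)) (F57 R)
  have qC : H (fun ω : Om R => (ω.u1, ω.u2, ω.w1, ω.w2, ω.x1, ω.x2)) = H (F56 R) := H_comp (Equiv.refl (Om R)) (F56 R)
  have qD : H (fun ω : Om R => (ω.u1 + ω.u2 - ω.x2, ω.w1 + ω.u2 - ω.x2)) = H (F53 R) := H_comp (Equiv.refl (Om R)) (F53 R)
  have h := SM (A := (fun ω : Om R => (ω.x2, ω.u1, ω.w1 + ω.w2 - ω.y2))) (B := (fun ω : Om R => (ω.y2, ω.w2 + ω.u1 - ω.y1, ω.w2 + ω.x1 - ω.u1)))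
    (C := (fun ω : Om R => (ω.u1, ω.u2, ω.w1, ω.w2, ω.x1, ω.x2))) (D := (fun ω : Om R => (ω.u1 + ω.u2 - ω.x2, ω.w1 + ω.u2 - ω.x2))) ?_ ?_ ?_
  · linarith [qA, qB, qC, qD]
  · intro ω ω' h
    simp only [Prod.mk.injEq] at h
    have c1 := ω.s1; have c2 := ω.s2; have c3 := ω'.s1; have c4 := ω'.s2
    obtain ⟨e0, e0'⟩ := rule hi ω.u2w1 ω'.u2w1 (by omega)
    simp only [Prod.mk.injEq]
    refine ⟨by omega, by omega⟩
  · intro ω ω' h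
    simp only [Prod.mk.injEq] at h
    have c1 := ω.s1; have c2 := ω.s2; have c3 := ω'.s1; have c4 := ω'.s2
    obtain ⟨e0, e0'⟩ := rule hi ω.u1w1 ω'.u1w1 (by omega)
    obtain ⟨e1, e1'⟩ := rule hi ω.y1w2 ω'.y1w2 (by omega)
    simp only [Prod.mk.injEq]
    refine ⟨by omega, by omega⟩
  · intro ω ω' h h'
    simp only [Prod.mk.injEq] at h
    simp only [Prod.mk.injEq] at h'
    have c1 := ω.s1; have c2 := ω.s2; have c3 := ω'.s1; have c4 := ω'.s2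
    simp only [Prod.mk.injEq]
    refine ⟨by omega, by omega, by omega, by omega, by omega, by omega⟩

include hs hi in
lemma ineq55 : H (F56 R) + H (F30 R) ≤ H (F51 R) + H (F51 R) := by
  have qA : H (fun ω : Om R => (ω.u1, ω.u2 + ω.u1 - ω.x1, ω.w2 + ω.u1 - ω.y1)) = H (F51 R) := H_comp (Equiv.refl (Om R)) (F51 R)
  have qB : H (fun ω : Om R => (ω.u2, ω.u1 + ω.u2 - ω.x2, ω.w1 + ω.u2 - ω.y2)) = H (F51 R) := H_comp (ix R) (F51 R)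
  have qC : H (fun ω : Om R => (ω.u1, ω.u2, ω.w1, ω.w2, ω.x1, ω.x2)) = H (F56 R) := H_comp (Equiv.refl (Om R)) (F56 R)
  have qD : H (fun ω : Om R => (ω.u1, ω.y2 + ω.x2, ω.w1 + ω.w2)) = H (F30 R) := H_comp (sw2 R) (F30 R)
  have h := SM (A := (fun ω : Om R => (ω.u1, ω.u2 + ω.u1 - ω.x1, ω.w2 + ω.u1 - ω.y1))) (B := (fun ω : Om R => (ω.u2, ω.u1 + ω.u2 - ω.x2, ω.w1 + ω.u2 - ω.y2)))
    (C := (fun ω : Om R => (ω.u1, ω.u2, ω.w1, ω.w2, ω.x1, ω.x2))) (D := (fun ω : Om R => (ω.u1, ω.y2 + ω.x2, ω.w1 + ω.w2))) ?_ ?_ ?_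
  · linarith [qA, qB, qC, qD]
  · intro ω ω' h
    simp only [Prod.mk.injEq] at h
    have c1 := ω.s1; have c2 := ω.s2; have c3 := ω'.s1; have c4 := ω'.s2
    obtain ⟨e0, e0'⟩ := rule hi ω.y1w2 ω'.y1w2 (by omega)
    obtain ⟨e1, e1'⟩ := rule hi ω.u2w1 ω'.u2w1 (by omega)
    simp only [Prod.mk.injEq]
    refine ⟨by omega, by omega, by omega⟩
  · intro ω ω' h
    simp only [Prod.mk.injEq] at h
    have c1 := ω.s1; have c2 := ω.s2; have c3 := ω'.s1; have c4 := ω'.s2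
    obtain ⟨e0, e0'⟩ := rule hi ω.u1x2 ω'.u1x2 (by omega)
    obtain ⟨e1, e1'⟩ := rule hi ω.y2w1 ω'.y2w1 (by omega)
    simp only [Prod.mk.injEq]
    refine ⟨by omega, by omega, by omega⟩
  · intro ω ω' h h'
    simp only [Prod.mk.injEq] at h
    simp only [Prod.mk.injEq] at h'
    have c1 := ω.s1; have c2 := ω.s2; have c3 := ω'.s1; have c4 := ω'.s2
    obtain ⟨e0, e0'⟩ := rule hi ω.y1w2 ω'.y1w2 (by omega)
    simp only [Prod.mk.injEq]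
    refine ⟨by omega, by omega, by omega, by omega, by omega, by omega⟩

include hs hi in
lemma ineq56 : H (F56 R) + H (F61 R) ≤ H (F64 R) + H (F55 R) := by
  have qA : H (fun ω : Om R => (ω.u1, ω.u2, ω.y2, ω.w1 + ω.w2)) = H (F64 R) := H_comp (Equiv.refl (Om R)) (F64 R)
  have qB : H (fun ω : Om R => (ω.w2, ω.x2 + ω.w1 - ω.y1, ω.x2 + ω.w1 - ω.x1)) = H (F55 R) := H_comp ((ix R).trans (ty hs)) (F55 R)
  have qC : H (fun ω : Om R => (ω.u1, ω.u2, ω.w1, ω.w2, ω.x1, ω.x2)) = H (F56 R) := H_comp (Equiv.refl (Om R)) (F56 R)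
  have qD : H (fun ω : Om R => (ω.u1, ω.w1 + ω.w2, ω.w1 + ω.x2)) = H (F61 R) := H_comp (Equiv.refl (Om R)) (F61 R)
  have h := SM (A := (fun ω : Om R => (ω.u1, ω.u2, ω.y2, ω.w1 + ω.w2))) (B := (fun ω : Om R => (ω.w2, ω.x2 + ω.w1 - ω.y1, ω.x2 + ω.w1 - ω.x1)))
    (C := (fun ω : Om R => (ω.u1, ω.u2, ω.w1, ω.w2, ω.x1, ω.x2))) (D := (fun ω : Om R => (ω.u1, ω.w1 + ω.w2, ω.w1 + ω.x2))) ?_ ?_ ?_
  · linarith [qA, qB, qC, qD]
  · intro ω ω' h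
    simp only [Prod.mk.injEq] at h
    have c1 := ω.s1; have c2 := ω.s2; have c3 := ω'.s1; have c4 := ω'.s2
    simp only [Prod.mk.injEq]
    refine ⟨by omega, by omega, by omega⟩
  · intro ω ω' h
    simp only [Prod.mk.injEq] at h
    have c1 := ω.s1; have c2 := ω.s2; have c3 := ω'.s1; have c4 := ω'.s2
    obtain ⟨e0, e0'⟩ := rule hi ω.y1x1 ω'.y1x1 (by omega)
    obtain ⟨e1, e1'⟩ := rule hi ω.u1x2 ω'.u1x2 (by omega)
    simp only [Prod.mk.injEq]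
    refine ⟨by omega, by omega, by omega⟩
  · intro ω ω' h h'
    simp only [Prod.mk.injEq] at h
    simp only [Prod.mk.injEq] at h'
    have c1 := ω.s1; have c2 := ω.s2; have c3 := ω'.s1; have c4 := ω'.s2
    simp only [Prod.mk.injEq]
    refine ⟨by omega, by omega, by omega, by omega, by omega, by omega⟩

include hs hi in
lemma ineq57 : H (F56 R) + H (F60 R) ≤ H (F58 R) + H (F63 R) := by
  have qA : H (fun ω : Om R => (ω.u1, ω.u2, ω.y1, ω.w1 + ω.x2)) = H (F58 R) := H_comp (Equiv.refl (Om R)) (F58 R)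
  have qB : H (fun ω : Om R => (ω.u1 + ω.u2 - ω.x2, ω.u2 + ω.y1 - ω.u1, ω.w1 + ω.u2 - ω.y2)) = H (F63 R) := H_comp (Equiv.refl (Om R)) (F63 R)
  have qC : H (fun ω : Om R => (ω.u1, ω.u2, ω.w1, ω.w2, ω.x1, ω.x2)) = H (F56 R) := H_comp (Equiv.refl (Om R)) (F56 R)
  have qD : H (fun ω : Om R => (ω.u1, ω.w1 + ω.x2, ω.y1 + ω.u2)) = H (F60 R) := H_comp (Equiv.refl (Om R)) (F60 R)
  have h := SM (A := (fun ω : Om R => (ω.u1, ω.u2, ω.y1, ω.w1 + ω.x2))) (B := (fun ω : Om R => (ω.u1 + ω.u2 - ω.x2, ω.u2 + ω.y1 - ω.u1, ω.w1 + ω.u2 - ω.y2)))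
    (C := (fun ω : Om R => (ω.u1, ω.u2, ω.w1, ω.w2, ω.x1, ω.x2))) (D := (fun ω : Om R => (ω.u1, ω.w1 + ω.x2, ω.y1 + ω.u2))) ?_ ?_ ?_
  · linarith [qA, qB, qC, qD]
  · intro ω ω' h
    simp only [Prod.mk.injEq] at h
    have c1 := ω.s1; have c2 := ω.s2; have c3 := ω'.s1; have c4 := ω'.s2
    simp only [Prod.mk.injEq]
    refine ⟨by omega, by omega, by omega⟩
  · intro ω ω' h
    simp only [Prod.mk.injEq] at h
    have c1 := ω.s1; have c2 := ω.s2; have c3 := ω'.s1; have c4 := ω'.s2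
    obtain ⟨e0, e0'⟩ := rule hi ω.y2x1 ω'.y2x1 (by omega)
    obtain ⟨e1, e1'⟩ := rule hi ω.u1w2 ω'.u1w2 (by omega)
    simp only [Prod.mk.injEq]
    refine ⟨by omega, by omega, by omega⟩
  · intro ω ω' h h'
    simp only [Prod.mk.injEq] at h
    simp only [Prod.mk.injEq] at h'
    have c1 := ω.s1; have c2 := ω.s2; have c3 := ω'.s1; have c4 := ω'.s2
    simp only [Prod.mk.injEq]
    refine ⟨by omega, by omega, by omega, by omega, by omega, by omega⟩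

include hs hi in
lemma ineq58 : H (F56 R) + H (F65 R) ≤ H (F36 R) + H (F63 R) := by
  have qA : H (fun ω : Om R => (ω.u1, ω.x2, ω.u2 + ω.u1 - ω.x1)) = H (F36 R) := H_comp (Equiv.refl (Om R)) (F36 R)
  have qB : H (fun ω : Om R => (ω.y1 + ω.u2 - ω.x2, ω.u2 + ω.u1 - ω.y1, ω.x1 + ω.u2 - ω.y2)) = H (F63 R) := H_comp (sw1 R) (F63 R)
  have qC : H (fun ω : Om R => (ω.u1, ω.u2, ω.w1, ω.w2, ω.x1, ω.x2)) = H (F56 R) := H_comp (Equiv.refl (Om R)) (F56 R)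
  have qD : H (fun ω : Om R => (ω.u1 + ω.u2, ω.u1 + ω.x2, ω.x1 + ω.u2)) = H (F65 R) := H_comp (Equiv.refl (Om R)) (F65 R)
  have h := SM (A := (fun ω : Om R => (ω.u1, ω.x2, ω.u2 + ω.u1 - ω.x1))) (B := (fun ω : Om R => (ω.y1 + ω.u2 - ω.x2, ω.u2 + ω.u1 - ω.y1, ω.x1 + ω.u2 - ω.y2)))
    (C := (fun ω : Om R => (ω.u1, ω.u2, ω.w1, ω.w2, ω.x1, ω.x2))) (D := (fun ω : Om R => (ω.u1 + ω.u2, ω.u1 + ω.x2, ω.x1 + ω.u2))) ?_ ?_ ?_
  · linarith [qA, qB, qC, qD]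
  · intro ω ω' h
    simp only [Prod.mk.injEq] at h
    have c1 := ω.s1; have c2 := ω.s2; have c3 := ω'.s1; have c4 := ω'.s2
    obtain ⟨e0, e0'⟩ := rule hi ω.u2x1 ω'.u2x1 (by omega)
    simp only [Prod.mk.injEq]
    refine ⟨by omega, by omega, by omega⟩
  · intro ω ω' h
    simp only [Prod.mk.injEq] at h
    have c1 := ω.s1; have c2 := ω.s2; have c3 := ω'.s1; have c4 := ω'.s2
    obtain ⟨e0, e0'⟩ := rule hi ω.y2w1 ω'.y2w1 (by omega)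
    obtain ⟨e1, e1'⟩ := rule hi ω.y1w2 ω'.y1w2 (by omega)
    simp only [Prod.mk.injEq]
    refine ⟨by omega, by omega, by omega⟩
  · intro ω ω' h h'
    simp only [Prod.mk.injEq] at h
    simp only [Prod.mk.injEq] at h'
    have c1 := ω.s1; have c2 := ω.s2; have c3 := ω'.s1; have c4 := ω'.s2
    simp only [Prod.mk.injEq]
    refine ⟨by omega, by omega, by omega, by omega, by omega, by omega⟩

include hs hi in
lemma ineq59 : H (F56 R) + H (F66 R) ≤ H (F59 R) + H (F55 R) := by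
  have qA : H (fun ω : Om R => (ω.w1, ω.x1, ω.u1 + ω.u2, ω.u1 + ω.y2)) = H (F59 R) := H_comp (ty hs) (F59 R)
  have qB : H (fun ω : Om R => (ω.u1, ω.y1 + ω.u2 - ω.x2, ω.y1 + ω.u2 - ω.y2)) = H (F55 R) := H_comp (Equiv.refl (Om R)) (F55 R)
  have qC : H (fun ω : Om R => (ω.u1, ω.u2, ω.w1, ω.w2, ω.x1, ω.x2)) = H (F56 R) := H_comp (Equiv.refl (Om R)) (F56 R)
  have qD : H (fun ω : Om R => (ω.u1 + ω.u2, ω.u1 + ω.y2, ω.y1 + ω.u2)) = H (F66 R) := H_comp (Equiv.refl (Om R)) (F66 R)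
  have h := SM (A := (fun ω : Om R => (ω.w1, ω.x1, ω.u1 + ω.u2, ω.u1 + ω.y2))) (B := (fun ω : Om R => (ω.u1, ω.y1 + ω.u2 - ω.x2, ω.y1 + ω.u2 - ω.y2)))
    (C := (fun ω : Om R => (ω.u1, ω.u2, ω.w1, ω.w2, ω.x1, ω.x2))) (D := (fun ω : Om R => (ω.u1 + ω.u2, ω.u1 + ω.y2, ω.y1 + ω.u2))) ?_ ?_ ?_
  · linarith [qA, qB, qC, qD]
  · intro ω ω' h
    simp only [Prod.mk.injEq] at h
    have c1 := ω.s1; have c2 := ω.s2; have c3 := ω'.s1; have c4 := ω'.s2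
    simp only [Prod.mk.injEq]
    refine ⟨by omega, by omega, by omega⟩
  · intro ω ω' h
    simp only [Prod.mk.injEq] at h
    have c1 := ω.s1; have c2 := ω.s2; have c3 := ω'.s1; have c4 := ω'.s2
    obtain ⟨e0, e0'⟩ := rule hi ω.y2x2 ω'.y2x2 (by omega)
    obtain ⟨e1, e1'⟩ := rule hi ω.y1w2 ω'.y1w2 (by omega)
    simp only [Prod.mk.injEq]
    refine ⟨by omega, by omega, by omega⟩
  · intro ω ω' h h'
    simp only [Prod.mk.injEq] at h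
    simp only [Prod.mk.injEq] at h'
    have c1 := ω.s1; have c2 := ω.s2; have c3 := ω'.s1; have c4 := ω'.s2
    simp only [Prod.mk.injEq]
    refine ⟨by omega, by omega, by omega, by omega, by omega, by omega⟩

include hs hi in
lemma total : 50 * H (F56 R) ≤ 72 * H (F0 R) + 68 * H (F1 R) + 18 * H (F8 R) + 24 * H (F12 R) := by
  have h0 := ineq0 hs hi
  have h1 := ineq1 hs hi
  have h2 := ineq2 hs hi
  have h3 := ineq3 hs hi
  have h4 := ineq4 hs hi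
  have h5 := ineq5 hs hi
  have h6 := ineq6 hs hi
  have h7 := ineq7 hs hi
  have h8 := ineq8 hs hi
  have h9 := ineq9 hs hi
  have h10 := ineq10 hs hi
  have h11 := ineq11 hs hi
  have h12 := ineq12 hs hi
  have h13 := ineq13 hs hi
  have h14 := ineq14 hs hi
  have h15 := ineq15 hs hi
  have h16 := ineq16 hs hi
  have h17 := ineq17 hs hi
  have h18 := ineq18 hs hi
  have h19 := ineq19 hs hi
  have h20 := ineq20 hs hi
  have h21 := ineq21 hs hi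
  have h22 := ineq22 hs hi
  have h23 := ineq23 hs hi
  have h24 := ineq24 hs hi
  have h25 := ineq25 hs hi
  have h26 := ineq26 hs hi
  have h27 := ineq27 hs hi
  have h28 := ineq28 hs hi
  have h29 := ineq29 hs hi
  have h30 := ineq30 hs hi
  have h31 := ineq31 hs hi
  have h32 := ineq32 hs hi
  have h33 := ineq33 hs hi
  have h34 := ineq34 hs hi
  have h35 := ineq35 hs hi
  have h36 := ineq36 hs hi
  have h37 := ineq37 hs hi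
  have h38 := ineq38 hs hi
  have h39 := ineq39 hs hi
  have h40 := ineq40 hs hi
  have h41 := ineq41 hs hi
  have h42 := ineq42 hs hi
  have h43 := ineq43 hs hi
  have h44 := ineq44 hs hi
  have h45 := ineq45 hs hi
  have h46 := ineq46 hs hi
  have h47 := ineq47 hs hi
  have h48 := ineq48 hs hi
  have h49 := ineq49 hs hi
  have h50 := ineq50 hs hi
  have h51 := ineq51 hs hi
  have h52 := ineq52 hs hi
  have h53 := ineq53 hs hi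
  have h54 := ineq54 hs hi
  have h55 := ineq55 hs hi
  have h56 := ineq56 hs hi
  have h57 := ineq57 hs hi
  have h58 := ineq58 hs hi
  have h59 := ineq59 hs hi
  linear_combination 21 * h0 + 20 * h1 + 9 * h2 + 12 * h3 + 20 * h4 + 1 * h5 + 32 * h6 + 4 * h7 + 4 * h8 + 4 * h9 + 5 * h10 + 2 * h11 + 4 * h12 + 1 * h13 + 2 * h14 + 1 * h15 + 2 * h16 + 4 * h17 + 2 * h18 + 12 * h19 + 4 * h20 + 4 * h21 + 1 * h22 + 13 * h23 + 3 * h24 + 2 * h25 + 1 * h26 + 4 * h27 + 6 * h28 + 2 * h29 + 7 * h30 + 8 * h31 + 2 * h32 + 12 * h33 + 5 * h34 + 2 * h35 + 3 * h36 + 2 * h37 + 1 * h38 + 2 * h39 + 1 * h40 + 4 * h41 + 1 * h42 + 1 * h43 + 1 * h44 + 8 * h45 + 2 * h46 + 7 * h47 + 4 * h48 + 2 * h49 + 4 * h50 + 2 * h51 + 1 * h52 + 1 * h53 + 2 * h54 + 5 * h55 + 1 * h56 + 2 * h57 + 2 * h58 + 4 * h59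

end

end Pool.Agent.Lib.MP_8be780_co
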